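import Mathlib

/-! Oscillation bounds in the plane from integration along horizontal and vertical segments. -/

open MeasureTheory Metric Filter Topology Set

namespace Pool.Agent.Lib.MP_8daebb_an.H16

lemma int_lin {X : Type*} [MeasurableSpace X] {μ : Measure X} {F f g h : X → ℝ} (a b c : ℝ)
    (hf : Integrable f μ) (hg : Integrable g μ) (hh : Integrable h μ)
    (H : ∀ᵐ x ∂μ, F x = a * f x + b * g x + c * h x) :
    ∫ x, F x ∂μ = a * ∫ x, f x ∂μ + b * ∫ x, g x ∂μ + c * ∫ x, h x ∂μ := by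
  have h1 : Integrable (fun x => a * f x + b * g x) μ := (hf.const_mul a).add (hg.const_mul b)
  rw [integral_congr_ae H, integral_add h1 (hh.const_mul c),
    integral_add (hf.const_mul a) (hg.const_mul b), integral_const_mul, integral_const_mul,
    integral_const_mul]

/-- The linear form with coefficients `a`, `b`. -/
noncomputable def lf (a b : ℝ) : ℝ × ℝ →L[ℝ] ℝ :=
  a • ContinuousLinearMap.fst ℝ ℝ ℝ + b • ContinuousLinearMap.snd ℝ ℝ ℝ

@[simp] lemma lf_apply (a b : ℝ) (v : ℝ × ℝ) : lf a b v = a * v.1 + b * v.2 := by simp [lf]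

lemma row_deriv {g : ℝ × ℝ → ℝ} {a b s t : ℝ} (h : HasFDerivAt g (lf a b) (t, s)) :
    HasDerivAt (fun t => g (t, s)) a t := by
  have := h.comp_hasDerivAt t ((hasDerivAt_id t).prodMk (hasDerivAt_const t s))
  exact this.congr_deriv (by simp)

lemma swap_deriv {g : ℝ × ℝ → ℝ} {a b : ℝ} {x : ℝ × ℝ} (h : HasFDerivAt g (lf a b) x.swap) :
    HasFDerivAt (fun y => g y.swap) (lf b a) x := by
  have := h.comp x (hasFDerivAt_snd.prodMk hasFDerivAt_fst)
  exact this.congr_fderiv (by ext <;> simp)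

/-- A bounded measurable nonnegative function with bounded support. -/
structure Maj (F : ℝ × ℝ → ℝ) : Prop where
  meas : Measurable F
  nonneg : ∀ x, 0 ≤ F x
  bdd : ∃ C R, (∀ x, F x ≤ C) ∧ ∀ x, R < ‖x‖ → F x = 0

lemma Maj.swap {F : ℝ × ℝ → ℝ} (h : Maj F) : Maj fun x => F x.swap := by
  obtain ⟨C, R, h1, h2⟩ := h.bdd
  exact ⟨h.meas.comp measurable_swap, fun _ => h.nonneg _, C, R, fun _ => h1 _,
    fun x hx => h2 _ (by rwa [Prod.norm_def, max_comm])⟩

lemma integrable_of_bdd {X : Type} [NormedAddCommGroup X] [ProperSpace X] [MeasurableSpace X]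
    [BorelSpace X] {μ : Measure X} [IsFiniteMeasureOnCompacts μ] {f : X → ℝ} (hf : Measurable f)
    {C R : ℝ} (h1 : ∀ x, |f x| ≤ C) (h2 : ∀ x, R < ‖x‖ → f x = 0) : Integrable f μ := by
  rw [← integrableOn_iff_integrable_of_support_subset (s := closedBall 0 R) fun x hx => by
    by_contra h
    exact hx (h2 x (by simpa using h))]
  exact Measure.integrableOn_of_bounded measure_closedBall_lt_top.ne hf.aestronglyMeasurable
    (Eventually.of_forall h1)

lemma Maj.int {F : ℝ × ℝ → ℝ} (h : Maj F) : Integrable F := by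
  obtain ⟨C, R, h1, h2⟩ := h.bdd
  exact integrable_of_bdd h.meas (fun x => by rw [abs_of_nonneg (h.nonneg x)]; exact h1 x) h2

lemma Maj.int_row {F : ℝ × ℝ → ℝ} (h : Maj F) (s : ℝ) : Integrable fun t => F (t, s) := by
  obtain ⟨C, R, h1, h2⟩ := h.bdd
  exact integrable_of_bdd (h.meas.comp measurable_prodMk_right)
    (fun x => by rw [abs_of_nonneg (h.nonneg _)]; exact h1 _)
    (fun x hx => h2 _ (hx.trans_le (norm_fst_le (x, s))))

/-- The integral along the row of height `s`. -/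
noncomputable def row (F : ℝ × ℝ → ℝ) (s : ℝ) : ℝ := ∫ t, F (t, s)

lemma Maj.row_int {F : ℝ × ℝ → ℝ} (h : Maj F) : Integrable (row F) :=
  Integrable.integral_prod_right h.int

lemma Maj.row_nonneg {F : ℝ × ℝ → ℝ} (h : Maj F) (s : ℝ) : 0 ≤ row F s :=
  integral_nonneg fun _ => h.nonneg _

lemma Maj.integral_row {F : ℝ × ℝ → ℝ} (h : Maj F) : ∫ s, row F s = ∫ x, F x :=
  (integral_prod_symm F h.int).symm

lemma Maj.set_row {F : ℝ × ℝ → ℝ} (h : Maj F) (S : Set ℝ) : ∫ s in S, row F s ≤ ∫ x, F x :=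
  (setIntegral_le_integral h.row_int (Eventually.of_forall h.row_nonneg)).trans h.integral_row.le

lemma Maj.good_row {F : ℝ × ℝ → ℝ} (h : Maj F) (u : ℝ) {θ : ℝ} (hθ : 0 < θ) :
    ∃ s ∈ Icc u (u + θ), row F s ≤ (∫ x, F x) / θ := by
  obtain ⟨s, hs, h1⟩ := exists_le_setAverage (μ := volume) (s := Icc u (u + θ)) (f := row F)
    (by simp [hθ]) (by simp) h.row_int.integrableOn
  refine ⟨s, hs, h1.trans ?_⟩
  rw [setAverage_eq, Real.volume_real_Icc_of_le (by linarith), add_sub_cancel_left, smul_eq_mul,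
    div_eq_inv_mul]
  exact mul_le_mul_of_nonneg_left (h.set_row _) (by positivity)

lemma integral_swap' (F : ℝ × ℝ → ℝ) : ∫ x : ℝ × ℝ, F x.swap = ∫ x, F x :=
  integral_prod_swap F

/-- A function with continuous gradient `(a, b)` on the convex set `B`, dominated by `F`. -/
structure Grad (B : Set (ℝ × ℝ)) (g a b F : ℝ × ℝ → ℝ) : Prop where
  conv : Convex ℝ B
  ca : Continuous a
  cb : Continuous b
  der : ∀ x ∈ B, HasFDerivAt g (lf (a x) (b x)) x
  maj : Maj F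
  la : ∀ x ∈ B, |a x| ≤ F x
  lb : ∀ x ∈ B, |b x| ≤ F x

lemma Grad.swap {B : Set (ℝ × ℝ)} {g a b F : ℝ × ℝ → ℝ} (h : Grad B g a b F) :
    Grad (Prod.swap ⁻¹' B) (fun x => g x.swap) (fun x => b x.swap) (fun x => a x.swap)
      (fun x => F x.swap) :=
  ⟨h.conv.linear_preimage (LinearEquiv.prodComm ℝ ℝ ℝ).toLinearMap, h.cb.comp continuous_swap,
    h.ca.comp continuous_swap, fun _ hx => swap_deriv (h.der _ hx), h.maj.swap,
    fun _ hx => h.lb _ hx, fun _ hx => h.la _ hx⟩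

lemma row_mem {B : Set (ℝ × ℝ)} (h : Convex ℝ B) {s t₁ t₂ t : ℝ} (h1 : (t₁, s) ∈ B)
    (h2 : (t₂, s) ∈ B) (ht : t ∈ uIcc t₁ t₂) : (t, s) ∈ B := by
  rw [← segment_eq_uIcc] at ht
  obtain ⟨u, v, hu, hv, huv, rfl⟩ := ht
  have := h h1 h2 hu hv huv
  simpa [← add_mul, huv] using this

lemma Grad.ftc {B : Set (ℝ × ℝ)} {g a b F : ℝ × ℝ → ℝ} (h : Grad B g a b F) {s t₁ t₂ : ℝ}
    (h1 : (t₁, s) ∈ B) (h2 : (t₂, s) ∈ B) : ∫ t in t₁..t₂, a (t, s) = g (t₂, s) - g (t₁, s) :=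
  intervalIntegral.integral_eq_sub_of_hasDerivAt (f := fun t => g (t, s))
    (fun _ ht => row_deriv (h.der _ (row_mem h.conv h1 h2 ht)))
    ((h.ca.comp (by fun_prop)).intervalIntegrable _ _)

lemma Grad.seg {B : Set (ℝ × ℝ)} {g a b F : ℝ × ℝ → ℝ} (h : Grad B g a b F) {s t₁ t₂ : ℝ}
    (h1 : (t₁, s) ∈ B) (h2 : (t₂, s) ∈ B) : |g (t₂, s) - g (t₁, s)| ≤ row F s := by
  rw [← h.ftc h1 h2, intervalIntegral.abs_integral_eq_abs_integral_uIoc]
  refine (abs_integral_le_integral_abs).trans ((setIntegral_mono_on ?_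
    (h.maj.int_row s).integrableOn measurableSet_uIoc fun t ht =>
      h.la _ (row_mem h.conv h1 h2 (uIoc_subset_uIcc ht))).trans
    (setIntegral_le_integral (h.maj.int_row s) (Eventually.of_forall fun _ => h.maj.nonneg _)))
  exact ((h.ca.comp (by fun_prop)).abs.integrableOn_uIcc).mono_set uIoc_subset_uIcc

/-- The Sobolev inequality with exponents `1` and `2` on a set containing a cross. -/
lemma Grad.cross {B B₀ : Set (ℝ × ℝ)} {g a b F : ℝ × ℝ → ℝ} (h : Grad B g a b F) {r δ : ℝ}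
    (hδ : 0 < δ) (hδr : δ ≤ r) (hB₀ : IsCompact B₀) (h0 : B₀ ⊆ B)
    (h1 : B₀ ⊆ Icc (-r) r ×ˢ Icc (-r) r)
    (h2 : ∀ s ∈ Icc (-δ) δ, ∀ t ∈ Icc (-r) r, (s, t) ∈ B ∧ (t, s) ∈ B) :
    ∃ c, ∫ x in B₀, (g x - c) ^ 2 ≤ ((1 + r / δ) * ∫ x, F x) ^ 2 := by
  obtain ⟨α, hα, hα'⟩ := h.maj.swap.good_row (-δ) (θ := 2 * δ) (by linarith)
  obtain ⟨β, hβ, hβ'⟩ := h.maj.good_row (-δ) (θ := 2 * δ) (by linarith)
  rw [integral_swap'] at hα'
  rw [show -δ + 2 * δ = δ by ring] at hα hβ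
  have hαr : α ∈ Icc (-r) r := ⟨by linarith [hα.1], by linarith [hα.2]⟩
  have hβr : β ∈ Icc (-r) r := ⟨by linarith [hβ.1], by linarith [hβ.2]⟩
  set I := ∫ x, F x with hI
  have hI0 : 0 ≤ I := integral_nonneg h.maj.nonneg
  have key : ∀ G : ℝ × ℝ → ℝ, Maj G → ∫ x, G x = I →
      IntegrableOn (fun s => row G s + I / (2 * δ)) (Icc (-r) r) ∧
      ∫ s in Icc (-r) r, (row G s + I / (2 * δ)) ≤ (1 + r / δ) * I := by
    intro G hG hGI
    have h3 : IntegrableOn (fun _ : ℝ => I / (2 * δ)) (Icc (-r) r) := integrableOn_const (by simp)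
    refine ⟨hG.row_int.integrableOn.add h3, ?_⟩
    rw [integral_add hG.row_int.integrableOn h3, setIntegral_const,
      Real.volume_real_Icc_of_le (by linarith), smul_eq_mul]
    have := hG.set_row (Icc (-r) r)
    have h4 : (r - -r) * (I / (2 * δ)) = r / δ * I := by field_simp; ring
    linarith
  obtain ⟨k1, k2⟩ := key _ h.maj.swap (integral_swap' F)
  obtain ⟨k3, k4⟩ := key _ h.maj rfl
  have hp : ∀ G : ℝ × ℝ → ℝ, Maj G → ∀ s, 0 ≤ row G s + I / (2 * δ) := fun G hG s =>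
    add_nonneg (hG.row_nonneg s) (by positivity)
  have hint : IntegrableOn (fun x : ℝ × ℝ => (row (fun x => F x.swap) x.1 + I / (2 * δ)) *
      (row F x.2 + I / (2 * δ))) (Icc (-r) r ×ˢ Icc (-r) r) := by
    rw [IntegrableOn, Measure.volume_eq_prod, ← Measure.prod_restrict]
    exact Integrable.mul_prod k1 k3
  refine ⟨g (α, β), ?_⟩
  calc ∫ x in B₀, (g x - g (α, β)) ^ 2
      ≤ ∫ x in B₀, (row (fun x => F x.swap) x.1 + I / (2 * δ)) * (row F x.2 + I / (2 * δ)) := by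
        refine setIntegral_mono_on (ContinuousOn.integrableOn_compact hB₀ fun x hx =>
          (((h.der x (h0 hx)).continuousAt.sub continuousAt_const).pow 2).continuousWithinAt)
          (hint.mono_set h1) hB₀.measurableSet fun x hx => ?_
        obtain ⟨hx1, hx2⟩ := h1 hx
        have e1 := h.seg (s := x.2) (h2 α hα _ hx2).1 (h0 hx)
        have e2 := h.swap.seg (s := α) (t₁ := β) (t₂ := x.2) (h2 α hα _ hβr).1 (h2 α hα _ hx2).1
        have e3 := h.swap.seg (s := x.1) (t₁ := β) (t₂ := x.2) (h2 β hβ _ hx1).2 (h0 hx)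
        have e4 := h.seg (s := β) (h2 β hβ _ hαr).2 (h2 β hβ _ hx1).2
        simp only [Prod.swap_prod_mk, Prod.mk.eta] at e1 e2 e3 e4
        rw [← sq_abs, sq]
        refine mul_le_mul ((abs_sub_le _ (g (x.1, β)) _).trans (by linarith))
          ((abs_sub_le _ (g (α, x.2)) _).trans (by linarith)) (abs_nonneg _) (hp _ h.maj.swap _)
    _ ≤ ∫ x in Icc (-r) r ×ˢ Icc (-r) r, (row (fun x => F x.swap) x.1 + I / (2 * δ)) *
          (row F x.2 + I / (2 * δ)) :=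
        setIntegral_mono_set hint (Eventually.of_forall fun x =>
          mul_nonneg (hp _ h.maj.swap _) (hp _ h.maj _)) h1.eventuallyLE
    _ ≤ _ := by
        rw [Measure.volume_eq_prod, setIntegral_prod_mul (fun s => row (fun x => F x.swap) s +
          I / (2 * δ)) (fun s => row F s + I / (2 * δ)), sq]
        exact mul_le_mul k2 k4 (integral_nonneg (hp _ h.maj))
          (mul_nonneg (add_nonneg zero_le_one (div_nonneg (hδ.le.trans hδr) hδ.le)) hI0)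

/-- Oscillation bound for a function that is almost monotone along rows. -/
lemma Grad.osc {g a b F : ℝ × ℝ → ℝ} {p : ℝ × ℝ} {ρ θ L : ℝ}
    (h : Grad (closedBall p (2 * ρ)) g a b F) (hθ : 0 < θ) (hθρ : θ ≤ ρ) (hL : 0 ≤ L)
    (ha : ∀ x ∈ closedBall p (2 * ρ), -L ≤ a x) :
    ∃ c, ∀ x ∈ closedBall p ρ, |g x - c| ≤ L * θ + 2 * (∫ x, F x) / θ := by
  obtain ⟨α, hα, hα'⟩ := h.maj.good_row p.2 hθ
  have hm : ∀ s t : ℝ, |s - p.1| ≤ 2 * ρ → |t - p.2| ≤ 2 * ρ → (s, t) ∈ closedBall p (2 * ρ) :=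
    fun s t hs ht => by rw [mem_closedBall, Prod.dist_eq]; exact max_le hs ht
  have hα2 : |α - p.2| ≤ 2 * ρ := abs_le.mpr ⟨by linarith [hα.1], by linarith [hα.2]⟩
  refine ⟨g (p.1, α), fun x hx => ?_⟩
  rw [mem_closedBall, Prod.dist_eq, max_le_iff, Real.dist_eq, Real.dist_eq, abs_le, abs_le] at hx
  have hx1 : |x.1 - p.1| ≤ 2 * ρ := abs_le.mpr ⟨by linarith [hx.1.1], by linarith [hx.1.2]⟩
  have hx2 : |x.2 - p.2| ≤ 2 * ρ := abs_le.mpr ⟨by linarith [hx.2.1], by linarith [hx.2.2]⟩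
  have key : ∀ u ∈ Icc (x.1 - θ) x.1, ∃ β ∈ Icc u (u + θ), |β - p.1| ≤ 2 * ρ ∧
      |g (β, x.2) - g (p.1, α)| ≤ 2 * (∫ x, F x) / θ := by
    intro u hu
    obtain ⟨β, hβ, hβ'⟩ := h.maj.swap.good_row u hθ
    rw [integral_swap'] at hβ'
    have hβ2 : |β - p.1| ≤ 2 * ρ := abs_le.mpr
      ⟨by linarith [hβ.1, hu.1, hx.1.1], by linarith [hβ.2, hu.2, hx.1.2]⟩
    have e1 := h.swap.seg (s := β) (t₁ := α) (t₂ := x.2) (hm _ _ hβ2 hα2) (hm _ _ hβ2 hx2)
    have e2 := h.seg (s := α) (t₁ := p.1) (hm _ _ (by simp; linarith) hα2) (hm _ _ hβ2 hα2)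
    simp only [Prod.swap_prod_mk] at e1
    refine ⟨β, hβ, hβ2, (abs_sub_le _ (g (β, α)) _).trans ?_⟩
    rw [mul_div_assoc]
    linarith
  have mono : ∀ s t : ℝ, |s - p.1| ≤ 2 * ρ → |t - p.1| ≤ 2 * ρ → s ≤ t → t ≤ s + θ →
      g (s, x.2) ≤ g (t, x.2) + L * θ := by
    intro s t hs ht hst hts
    have e1 := h.ftc (hm _ _ hs hx2) (hm _ _ ht hx2)
    have e2 := intervalIntegral.integral_mono_on (μ := volume) (f := fun _ => -L) hst
      intervalIntegrable_const ((h.ca.comp (by fun_prop : Continuous fun t : ℝ =>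
        (t, x.2))).intervalIntegrable _ _) fun u hu => ha _ (row_mem h.conv (hm _ _ hs hx2)
          (hm _ _ ht hx2) (Icc_subset_uIcc hu))
    simp only [intervalIntegral.integral_const, smul_eq_mul, Function.comp_apply] at e2
    nlinarith
  obtain ⟨β, hβ, hβ1, hβ2⟩ := key x.1 ⟨by linarith, le_rfl⟩
  obtain ⟨γ, hγ, hγ1, hγ2⟩ := key (x.1 - θ) ⟨le_rfl, by linarith⟩
  have e1 := mono _ _ hx1 hβ1 hβ.1 hβ.2
  have e2 := mono _ _ hγ1 hx1 (by linarith [hγ.2]) (by linarith [hγ.1])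
  simp only [Prod.mk.eta] at e1 e2
  rw [abs_le] at hβ2 hγ2 ⊢
  constructor <;> linarith [hβ2.2, hγ2.1]

end Pool.Agent.Lib.MP_8daebb_an.H16
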