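import Pool.Agent.Lib.MP_8daebb_an.Fiber
import Pool.Agent.Lib.MP_8daebb_an.Barrier
import Pool.Agent.Lib.MP_8daebb_an.H16.Lines

/-! First variation formulas with polynomial weights in a cylinder. -/

set_option linter.unusedSectionVars false

open MeasureTheory Metric Filter Topology Set
open scoped RealInnerProductSpace

namespace Pool.Agent.Lib.MP_8daebb_an.H16

/-- Powers of the positive part. -/
noncomputable def pp (k : ℕ) (u : ℝ) : ℝ := max u 0 ^ k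

@[fun_prop] lemma pp_cont (k : ℕ) : Continuous (pp k) := by unfold pp; fun_prop

lemma pp_nonneg (k : ℕ) (u : ℝ) : 0 ≤ pp k u := pow_nonneg (le_max_right _ _) _

lemma pp_zero (k : ℕ) {u : ℝ} (h : u ≤ 0) : pp (k + 1) u = 0 := by simp [pp, h]

lemma pp_pos (k : ℕ) {u : ℝ} (h : 0 ≤ u) : pp k u = u ^ k := by simp [pp, h]

lemma pp_succ (k : ℕ) (u : ℝ) : pp (k + 2) u = pp (k + 1) u * u := by
  rcases le_total u 0 with h | h
  · simp [pp_zero _ h]
  · rw [pp_pos _ h, pp_pos _ h, pow_succ]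

lemma pp_mono (k : ℕ) {u v : ℝ} (h : u ≤ v) : pp k u ≤ pp k v := by
  unfold pp; gcongr

lemma pp_deriv (k : ℕ) (u : ℝ) : HasDerivAt (pp (k + 2)) ((k + 2) * pp (k + 1) u) u := by
  rcases lt_trichotomy u 0 with h | rfl | h
  · rw [pp_zero _ h.le, mul_zero]
    refine (hasDerivAt_const u 0).congr_of_eventuallyEq ?_
    filter_upwards [gt_mem_nhds h] with v hv using pp_zero _ hv.le
  · rw [pp_zero _ le_rfl, mul_zero, hasDerivAt_iff_tendsto_slope_zero]
    have h1 := ((pp_cont (k + 1)).tendsto 0).mono_left (nhdsWithin_le_nhds (s := {0}ᶜ))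
    rw [pp_zero _ le_rfl] at h1
    refine h1.congr' ?_
    filter_upwards [self_mem_nhdsWithin] with v hv
    rw [zero_add, pp_zero _ le_rfl, pp_succ, sub_zero, smul_eq_mul, mul_comm _ v,
      inv_mul_cancel_left₀ hv]
  · rw [pp_pos _ h.le]
    refine ((hasDerivAt_pow (k + 2) u).congr_deriv (by simp)).congr_of_eventuallyEq ?_
    filter_upwards [lt_mem_nhds h] with v hv using pp_pos _ hv.le

variable {E : Type*} [NormedAddCommGroup E] [InnerProductSpace ℝ E] [FiniteDimensional ℝ E]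

/-- `G` is the continuous gradient of `φ`. -/
structure Gr (φ : E → ℝ) (G : E → E) : Prop where
  d : ∀ y, HasFDerivAt φ (innerSL ℝ (G y)) y
  c : Continuous G

lemma Gr.cd {φ : E → ℝ} {G : E → E} (h : Gr φ G) : ContDiff ℝ 1 φ :=
  contDiff_one_iff_hasFDerivAt.mpr ⟨_, (innerSL ℝ).continuous.comp h.c, h.d⟩

lemma Gr.mul {φ ψ : E → ℝ} {G F : E → E} (h : Gr φ G) (h' : Gr ψ F) :
    Gr (fun y => φ y * ψ y) fun y => φ y • F y + ψ y • G y :=
  ⟨fun y => ((h.d y).mul (h'.d y)).congr_fderiv (by ext; simp),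
    (h.cd.continuous.smul h'.c).add (h'.cd.continuous.smul h.c)⟩

lemma gr_sq {B : E →L[ℝ] E} (hB : ∀ u v, ⟪B u, B v⟫ = ⟪B u, v⟫) (c : E) :
    Gr (fun y => ‖B (y - c)‖ ^ 2) fun y => (2 : ℝ) • B (y - c) :=
  ⟨fun y => (B.hasFDerivAt.comp y ((hasFDerivAt_id y).sub_const c)).norm_sq.congr_fderiv
    (by ext; simp [hB]), by fun_prop⟩

lemma Gr.pp {φ : E → ℝ} {G : E → E} (h : Gr φ G) (k : ℕ) (a : ℝ) :
    Gr (fun y => pp (k + 2) (a - φ y)) fun y => (-((k + 2) * H16.pp (k + 1) (a - φ y))) • G y :=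
  ⟨fun y => ((pp_deriv k _).comp_hasFDerivAt y ((h.d y).const_sub a)).congr_fderiv
    (by ext; simp), by have := h.cd.continuous; have := h.c; fun_prop⟩

/-- The trace of a continuous linear map. -/
noncomputable def trc (A : E →L[ℝ] E) : ℝ := LinearMap.trace ℝ E (A : E →ₗ[ℝ] E)

lemma tanDiv_smul {φ : E → ℝ} {G : E → E} (h : Gr φ G) (A : E →L[ℝ] E) (x₀ b : E)
    (z : E × (E →L[ℝ] E)) : tanDiv (fun y => φ y • (A (y - x₀) + b)) z =
      φ z.1 * trc (z.2.comp A) + ⟪G z.1, z.2 (A (z.1 - x₀) + b)⟫ := by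
  have h1 := (h.d z.1).smul
    ((A.hasFDerivAt.comp z.1 ((hasFDerivAt_id z.1).sub_const x₀)).add_const b)
  rw [tanDiv, show fderiv ℝ (fun y => φ y • (A (y - x₀) + b)) z.1 = _ from h1.fderiv,
    show ((z.2.comp _ : E →L[ℝ] E) : E →ₗ[ℝ] E) = φ z.1 • ((z.2.comp A : E →L[ℝ] E) : E →ₗ[ℝ] E) +
      LinearMap.smulRight (innerSL ℝ (G z.1) : E →ₗ[ℝ] ℝ) (z.2 (A (z.1 - x₀) + b)) by ext; simp,
    map_add, map_smul, LinearMap.trace_smulRight]
  rfl

variable (ι : EuclideanSpace ℝ (Fin 2) →ₗᵢ[ℝ] E)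

/-- The coordinate vectors of the plane. -/
noncomputable def ev (a : Fin 2) : E := ι (EuclideanSpace.single a 1)

/-- The horizontal projection. -/
noncomputable def hz : E →L[ℝ] E := ι.toContinuousLinearMap.comp (pr ι)

/-- Entries of the horizontal block of a projection. -/
noncomputable def en (a b : Fin 2) (P : E →L[ℝ] E) : ℝ := ⟪P (ev ι a), ev ι b⟫

/-- The tilt of a plane. -/
noncomputable def tl (P : E →L[ℝ] E) : ℝ := 2 - en ι 0 0 P - en ι 1 1 P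

@[fun_prop] lemma en_cont (a b : Fin 2) : Continuous (en ι a b) := by unfold en; fun_prop

@[fun_prop] lemma tl_cont : Continuous (tl ι) := by unfold tl; fun_prop

lemma pr_apply (u : E) (a : Fin 2) : pr ι u a = ⟪u, ev ι a⟫ := by
  rw [ev, ← inner_pr]; simp [EuclideanSpace.inner_single_right]

lemma hz_eq (u : E) : hz ι u = pr ι u 0 • ev ι 0 + pr ι u 1 • ev ι 1 := by
  rw [ev, ev, ← map_smul, ← map_smul, ← map_add]
  refine congrArg ι ?_
  ext i
  fin_cases i <;> simp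

lemma norm_hz (u : E) : ‖hz ι u‖ = ‖pr ι u‖ := ι.norm_map _

lemma inner_nr_hz (u v : E) : ⟪nr ι u, hz ι v⟫ = 0 := inner_nr_iota ι _ _

lemma hz_add_nr (u : E) : hz ι u + nr ι u = u := iota_pr_add_nr ι u

lemma hz_proj (u v : E) : ⟪hz ι u, hz ι v⟫ = ⟪hz ι u, v⟫ := by
  conv_rhs => rw [← hz_add_nr ι v, inner_add_right, real_inner_comm (nr ι v), inner_nr_hz, add_zero]

lemma nr_proj (u v : E) : ⟪nr ι u, nr ι v⟫ = ⟪nr ι u, v⟫ := by
  conv_rhs => rw [← hz_add_nr ι v, inner_add_right, inner_nr_hz, zero_add]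

lemma norm_ev (a : Fin 2) : ‖ev ι a‖ = 1 := by simp [ev]

lemma inner_ev : ⟪ev ι 0, ev ι 1⟫ = 0 := by simp [ev, EuclideanSpace.inner_single_left]

variable {ι} {P : E →L[ℝ] E}

lemma trc_id (h : IsPlane 2 P) : trc (P.comp (ContinuousLinearMap.id ℝ E)) = 2 := by
  obtain ⟨e, he, h1⟩ := h.exists_frame
  rw [trc, h1]
  simp [he.1]

lemma trc_hz (P : E →L[ℝ] E) : trc (P.comp (hz ι)) = 2 - tl ι P := by
  rw [trc, show ((P.comp (hz ι) : E →L[ℝ] E) : E →ₗ[ℝ] E) =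
    LinearMap.smulRight (innerSL ℝ (ev ι 0) : E →ₗ[ℝ] ℝ) (P (ev ι 0)) +
      LinearMap.smulRight (innerSL ℝ (ev ι 1) : E →ₗ[ℝ] ℝ) (P (ev ι 1)) by
        ext; simp [hz_eq, pr_apply, real_inner_comm], map_add, LinearMap.trace_smulRight,
    LinearMap.trace_smulRight]
  simp [tl, en, real_inner_comm]
  ring

lemma trc_nr (h : IsPlane 2 P) : trc (P.comp (nr ι)) = tl ι P := by
  have h1 := trc_id h
  have h2 := trc_hz (ι := ι) P
  rw [trc, show ((P.comp (nr ι) : E →L[ℝ] E) : E →ₗ[ℝ] E) =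
    (P.comp (ContinuousLinearMap.id ℝ E) : E →L[ℝ] E) - (P.comp (hz ι) : E →L[ℝ] E) by
      ext; simp [nr_apply, hz], map_sub]
  unfold trc at h1 h2
  linarith

lemma inner_self_eq {m : ℕ} (h : IsPlane m P) (v : E) : ⟪v, P v⟫ = ‖P v‖ ^ 2 := by
  rw [← real_inner_self_eq_norm_sq, h.1 v (P v), h.2.1]

lemma norm_perp {m : ℕ} (h : IsPlane m P) (v : E) : ‖v - P v‖ ^ 2 = ‖v‖ ^ 2 - ⟪v, P v⟫ := by
  rw [norm_sub_sq_real, inner_self_eq h]; ring

lemma norm_le_one {m : ℕ} (h : IsPlane m P) : ‖P‖ ≤ 1 :=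
  P.opNorm_le_bound zero_le_one fun v => by
    have h1 := norm_perp h v
    rw [inner_self_eq h] at h1
    rw [one_mul]
    exact abs_le_of_sq_le_sq' (by nlinarith [sq_nonneg ‖v - P v‖]) (norm_nonneg _) |>.2

lemma en_symm (h : IsPlane 2 P) : en ι 1 0 P = en ι 0 1 P := by
  rw [en, en, h.1, real_inner_comm]

lemma quad (h : IsPlane 2 P) (x y : ℝ) :
    ⟪x • ev ι 0 + y • ev ι 1, P (x • ev ι 0 + y • ev ι 1)⟫ =
      en ι 0 0 P * x ^ 2 + 2 * en ι 0 1 P * x * y + en ι 1 1 P * y ^ 2 := by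
  have h1 := en_symm (ι := ι) h
  simp only [en] at h1
  simp only [map_add, map_smul, inner_add_right, inner_smul_right, en, real_inner_comm (P _), h1]
  ring

lemma quad_nonneg (h : IsPlane 2 P) (x y : ℝ) :
    0 ≤ en ι 0 0 P * x ^ 2 + 2 * en ι 0 1 P * x * y + en ι 1 1 P * y ^ 2 := by
  rw [← quad h, inner_self_eq h]; positivity

lemma quad_le (h : IsPlane 2 P) (x y : ℝ) :
    en ι 0 0 P * x ^ 2 + 2 * en ι 0 1 P * x * y + en ι 1 1 P * y ^ 2 ≤ x ^ 2 + y ^ 2 := by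
  have h1 := norm_perp h (x • ev ι 0 + y • ev ι 1)
  rw [quad h, norm_add_sq_real (x • ev ι 0)] at h1
  simp only [norm_smul, norm_ev, inner_smul_left, inner_smul_right, inner_ev, Real.norm_eq_abs,
    mul_one, sq_abs, mul_zero] at h1
  nlinarith [sq_nonneg ‖x • ev ι 0 + y • ev ι 1 - P (x • ev ι 0 + y • ev ι 1)‖]

lemma en_bounds (h : IsPlane 2 P) : |en ι 1 1 P - en ι 0 0 P| ≤ tl ι P ∧
    |en ι 0 1 P| ≤ tl ι P ∧ 0 ≤ tl ι P := by
  have h1 := quad_le (ι := ι) h 1 0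
  have h2 := quad_le (ι := ι) h 0 1
  have h3 := quad_le (ι := ι) h 1 1
  have h4 := quad_le (ι := ι) h 1 (-1)
  unfold tl
  exact ⟨abs_le.mpr ⟨by linarith, by linarith⟩, abs_le.mpr ⟨by linarith, by linarith⟩, by linarith⟩

lemma theta_le (h : IsPlane 2 P) (u : E) :
    ‖hz ι u‖ ^ 2 - ⟪hz ι u, P (hz ι u)⟫ ≤ ‖hz ι u‖ ^ 2 * tl ι P := by
  have h1 := quad_le (ι := ι) h (pr ι u 1) (-pr ι u 0)
  rw [norm_hz, EuclideanSpace.real_norm_sq_eq, Fin.sum_univ_two, hz_eq, quad h, tl]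
  linarith

lemma theta_quad (h : IsPlane 2 P) (u : E) (x y : ℝ) : 0 ≤ x ^ 2 * ‖nr ι u‖ ^ 2 -
    2 * x * y * ⟪hz ι u, P (nr ι u)⟫ + y ^ 2 * (‖hz ι u‖ ^ 2 - ⟪hz ι u, P (hz ι u)⟫) := by
  refine (sq_nonneg ‖x • nr ι u + y • (hz ι u - P (hz ι u))‖).trans_eq ?_
  rw [norm_add_sq_real, norm_smul, norm_smul, mul_pow, mul_pow, norm_perp h, inner_smul_left,
    inner_smul_right, inner_sub_right, inner_nr_hz, ← h.1, real_inner_comm (hz ι u)]
  simp only [Real.norm_eq_abs, sq_abs, conj_trivial]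
  ring

variable [MeasurableSpace E] [BorelSpace E]

/-- A finite varifold in a cone over the disc of radius `R`, stationary inside the cylinder. -/
structure Core (ν : Measure (E × (E →L[ℝ] E))) (ι : EuclideanSpace ℝ (Fin 2) →ₗᵢ[ℝ] E) (x₀ : E)
    (R : ℝ) : Prop where
  fin : IsFiniteMeasure ν
  car : ∀ᵐ z ∂ν, IsPlane 2 z.2 ∧ ‖z.1 - x₀‖ ≤ 2 * R
  stat : ∀ X : E → E, ContDiff ℝ 1 X → ∀ r < R, (∀ y, r ≤ ‖pr ι (y - x₀)‖ → X y = 0) →
    ∫ z, tanDiv X z ∂ν = 0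

theorem core_of_cone {U : Set E} {V : Measure (E × (E →L[ℝ] E))} (hV : IsStationaryVarifold 2 U V)
    {x₀ : E} {R : ℝ} (hU : closedBall x₀ (2 * R) ⊆ U)
    (hc : ∀ x ∈ V.fst.support, x ∈ cyl ι x₀ R → ‖nr ι (x - x₀)‖ ≤ ‖pr ι (x - x₀)‖) :
    Core (V.restrict (cyl ι x₀ R ×ˢ univ)) ι x₀ R := by
  have hm : MeasurableSet (cyl ι x₀ R ×ˢ (univ : Set (E →L[ℝ] E))) :=
    (isOpen_cyl ι x₀ R).measurableSet.prod MeasurableSet.univ
  refine ⟨⟨?_⟩, ?_, fun X hX r hr h0 => ?_⟩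
  · rw [Measure.restrict_apply_univ, prod_univ,
      ← Measure.fst_apply (isOpen_cyl ι x₀ R).measurableSet]
    exact (measure_mono (cyl_subset ι x₀ R)).trans_lt (hV.ball_lt_top hU)
  · filter_upwards [ae_restrict_of_ae hV.carried, ae_restrict_mem hm] with z h1 h2
    exact ⟨h1.2, (mem_ball_iff_norm.mp (cyl_subset ι x₀ R h2.1)).le⟩
  have hK : IsCompact (closure (cyl ι x₀ R)) := (isCompact_closedBall _ _).of_isClosed_subset
    isClosed_closure (closure_cyl' ι x₀ R)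
  have hK' : {y | ‖pr ι (y - x₀)‖ ≤ r ∧ ‖nr ι (y - x₀)‖ ≤ r} ⊆ cyl ι x₀ R := fun y hy =>
    ⟨hy.1.trans_lt hr, hy.2.trans_lt hr⟩
  obtain ⟨χ, h1, h2, h3⟩ := exists_cutoff (hK.of_isClosed_subset (IsClosed.and
    (isClosed_le (by fun_prop) continuous_const) (isClosed_le (by fun_prop) continuous_const))
    (hK'.trans subset_closure)) (isOpen_cyl ι x₀ R) hK'
  have h4 : tsupport (χ • X) ⊆ cyl ι x₀ R := (tsupport_smul_subset_left _ _).trans h2
  rw [← integral_indicator hm, ← hV.stationary _ (h1.smul hX) (hK.of_isClosed_subset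
    (isClosed_tsupport _) (h4.trans subset_closure)) (h4.trans ((cyl_subset ι x₀ R).trans
      (ball_subset_closedBall.trans hU)))]
  refine integral_congr_ae ?_
  filter_upwards [ae_of_ae_map measurable_fst.aemeasurable
    (Measure.support_mem_ae (μ := V.fst))] with z hz
  by_cases h5 : z.1 ∈ cyl ι x₀ R
  · rw [indicator_of_mem (mk_mem_prod h5 (mem_univ z.2)), tanDiv, tanDiv]
    congr 3
    refine Filter.EventuallyEq.fderiv_eq ?_
    rcases le_or_gt ‖pr ι (z.1 - x₀)‖ r with h6 | h6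
    · filter_upwards [h3 z.1 ⟨h6, (hc _ hz h5).trans h6⟩] with y hy
      simp [hy]
    · filter_upwards [continuousAt_const.eventually_lt (g := fun y => ‖pr ι (y - x₀)‖)
        (by fun_prop) h6] with y hy
      simp [h0 y hy.le]
  · rw [indicator_of_notMem fun h => h5 h.1, tanDiv,
      (notMem_tsupport_iff_eventuallyEq.mp fun h => h5 (h4 h)).fderiv_eq]
    simp

variable {ν : Measure (E × (E →L[ℝ] E))} {x₀ : E} {R : ℝ}

lemma Core.int (h : Core ν ι x₀ R) {g : E × (E →L[ℝ] E) → ℝ} (hg : Continuous g) :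
    Integrable g ν := by
  have := h.fin
  obtain ⟨C, hC⟩ := ((isCompact_closedBall x₀ (2 * R)).prod
    (isCompact_closedBall (0 : E →L[ℝ] E) 1)).exists_bound_of_continuousOn hg.continuousOn
  exact Integrable.of_bound hg.aestronglyMeasurable C (h.car.mono fun z hz => hC z
    ⟨mem_closedBall_iff_norm.mpr hz.2, mem_closedBall_zero_iff.mpr (norm_le_one hz.1)⟩)

lemma Core.var (h : Core ν ι x₀ R) {φ : E → ℝ} {G : E → E} (hφ : Gr φ G) (A : E →L[ℝ] E) (b : E)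
    {r : ℝ} (hr : r < R) (h0 : ∀ y, r ≤ ‖pr ι (y - x₀)‖ → φ y = 0) :
    ∫ z, (φ z.1 * trc (z.2.comp A) + ⟪G z.1, z.2 (A (z.1 - x₀) + b)⟫) ∂ν = 0 := by
  simp only [← tanDiv_smul hφ]
  exact h.stat _ (hφ.cd.smul (by fun_prop)) r hr fun y hy => by rw [h0 y hy, zero_smul]

lemma Core.deriv (h : Core ν ι x₀ R) {σ g : E × (E →L[ℝ] E) → ℝ} (hσ : Continuous σ)
    (hg : Continuous g) (k : ℕ) (a : ℝ) : HasDerivAt (fun a => ∫ z, pp (k + 2) (a - σ z) * g z ∂ν)
      ((k + 2) * ∫ z, pp (k + 1) (a - σ z) * g z ∂ν) a := by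
  refine (hasDerivAt_integral_of_dominated_loc_of_deriv_le (Iio_mem_nhds (lt_add_one a))
    (F' := fun a z => (k + 2) * (pp (k + 1) (a - σ z) * g z))
    (bound := fun z => (k + 2) * (pp (k + 1) (a + 1 - σ z) * |g z|))
    (Eventually.of_forall fun a => (h.int (by fun_prop)).aestronglyMeasurable)
    (h.int (by fun_prop)) (h.int (by fun_prop)).aestronglyMeasurable
    (Eventually.of_forall fun z b hb => ?_) (h.int (by fun_prop))
    (Eventually.of_forall fun z b _ => ?_)).2.congr_deriv (integral_const_mul _ _)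
  · rw [Real.norm_eq_abs, abs_mul, abs_mul, abs_of_nonneg (pp_nonneg _ _),
      abs_of_nonneg (by positivity)]
    gcongr
    exact pp_mono _ (by linarith [mem_Iio.mp hb])
  · exact (((pp_deriv k _).comp b ((hasDerivAt_id b).sub_const (σ z))).mul_const
      (g z)).congr_deriv (by simp [mul_assoc])

end Pool.Agent.Lib.MP_8daebb_an.H16
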