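import Mathlib

/-! Covering arguments for upper limits of a sequence of measures. -/

open MeasureTheory Metric Filter Topology Set
open scoped ENNReal

namespace Pool.Agent.Lib.MP_8daebb_an.H16

/-- Some open neighbourhood of `A` has all its compact subsets eventually of mass at most `b`. -/
def Sm (ν : ℕ → Measure (ℝ × ℝ)) (A : Set (ℝ × ℝ)) (b : ℝ≥0∞) : Prop :=
  ∃ W, IsOpen W ∧ A ⊆ W ∧ ∀ K, IsCompact K → K ⊆ W → ∀ᶠ k in atTop, ν k K ≤ b

variable {ν : ℕ → Measure (ℝ × ℝ)}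

lemma Sm.mono {A A' : Set (ℝ × ℝ)} {b b' : ℝ≥0∞} (h : Sm ν A b) (h1 : A' ⊆ A) (h2 : b ≤ b') :
    Sm ν A' b' :=
  let ⟨W, hW, h3, h4⟩ := h
  ⟨W, hW, h1.trans h3, fun K hK hKW => (h4 K hK hKW).mono fun _ h5 => h5.trans h2⟩

lemma Sm.iUnion {ι : Type} [Countable ι] {A : ι → Set (ℝ × ℝ)} {b : ι → ℝ≥0∞}
    (h : ∀ i, Sm ν (A i) (b i)) : Sm ν (⋃ i, A i) (∑' i, b i) := by
  choose W hW h1 h2 using h
  refine ⟨⋃ i, W i, isOpen_iUnion hW, iUnion_mono h1, fun K hK hKW => ?_⟩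
  obtain ⟨t, ht⟩ := hK.elim_finite_subcover W hW hKW
  obtain ⟨L, hL, h3, h4⟩ := hK.finite_compact_cover t W (fun i _ => hW i) ht
  filter_upwards [(eventually_all_finset t).mpr fun i _ => h2 i (L i) (hL i) (h3 i)] with k hk
  rw [h4]
  exact (measure_biUnion_finset_le t L).trans
    ((Finset.sum_le_sum hk).trans (ENNReal.sum_le_tsum t))

lemma Sm.union {A A' : Set (ℝ × ℝ)} {b b' : ℝ≥0∞} (h : Sm ν A b) (h' : Sm ν A' b') :
    Sm ν (A ∪ A') (b + b') := by
  have := Sm.iUnion (ν := ν) (A := fun i : Bool => cond i A A') (b := fun i => cond i b b')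
    (fun i => by cases i <;> assumption)
  rwa [← union_eq_iUnion, tsum_bool, add_comm] at this

lemma Sm.besi {s : Set (ℝ × ℝ)} {l : ℝ≥0∞}
    (h : ∀ x ∈ s, ∀ δ > 0, ∃ r ∈ Ioo 0 δ, Sm ν (closedBall x r) (l * volume (closedBall x r)))
    {ε : ℝ≥0∞} (hε : ε ≠ 0) : Sm ν s (l * (volume s + ε)) := by
  obtain ⟨t, r, ht, -, h1, h2, h3⟩ := Besicovitch.exists_closedBall_covering_tsum_measure_le
    volume hε (fun x => {r | Sm ν (closedBall x r) (l * volume (closedBall x r))}) s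
    fun x hx δ hδ => let ⟨r, h1, h2⟩ := h x hx δ hδ; ⟨r, h2, h1⟩
  have := ht.to_subtype
  refine (Sm.iUnion fun x : t => h1 x x.2).mono (by rwa [biUnion_eq_iUnion] at h2) ?_
  rw [ENNReal.tsum_mul_left]
  gcongr

/-- Asymptotically negligible sets. -/
def Neg (ν : ℕ → Measure (ℝ × ℝ)) (A : Set (ℝ × ℝ)) : Prop := ∀ ε : ℝ≥0∞, ε ≠ 0 → Sm ν A ε

lemma Neg.iUnion {A : ℕ → Set (ℝ × ℝ)} (h : ∀ i, Neg ν (A i)) : Neg ν (⋃ i, A i) := by
  intro ε hε
  obtain ⟨e, h1, h2⟩ := ENNReal.exists_pos_sum_of_countable' hε ℕ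
  exact (Sm.iUnion fun i => h i (e i) (h1 i).ne').mono Subset.rfl h2.le

lemma Neg.union {A B : Set (ℝ × ℝ)} (h : Neg ν A) (h' : Neg ν B) : Neg ν (A ∪ B) := fun ε hε =>
  ((h _ (ENNReal.half_pos hε).ne').union (h' _ (ENNReal.half_pos hε).ne')).mono Subset.rfl
    (ENNReal.add_halves ε).le

lemma neg_of_null {s : Set (ℝ × ℝ)} {l : ℝ≥0∞} (hl : l ≠ ⊤) (hs : volume s = 0)
    (h : ∀ x ∈ s, ∀ δ > 0, ∃ r ∈ Ioo 0 δ, Sm ν (closedBall x r) (l * volume (closedBall x r))) :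
    Neg ν s := fun ε hε =>
  (Sm.besi h (ENNReal.div_pos hε hl).ne').mono Subset.rfl (by
    rw [hs, zero_add]; exact ENNReal.mul_div_le)

lemma limsup_le_of_cover {K L N : Set (ℝ × ℝ)} {q : ℝ≥0∞} (hq : q ≠ ⊤) (hK : IsCompact K)
    (h1 : K ⊆ L ∪ N) (h2 : Neg ν N) (h3 : ∀ l, q < l → ∀ x ∈ L, ∀ δ > 0, ∃ r ∈ Ioo 0 δ,
      Sm ν (closedBall x r) (l * volume (closedBall x r))) :
    limsup (fun k => ν k K) atTop ≤ q * volume K := by
  have hfin := hK.measure_lt_top (μ := volume)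
  have ht : Tendsto (fun ε : ℝ≥0∞ => (q + ε) * (volume K + ε) + ε) (𝓝[>] 0)
      (𝓝 ((q + 0) * (volume K + 0) + 0)) := by
    refine Tendsto.mono_left ?_ nhdsWithin_le_nhds
    exact (ENNReal.Tendsto.mul (tendsto_const_nhds.add tendsto_id) (Or.inr (by simp [hfin.ne]))
      (tendsto_const_nhds.add tendsto_id) (Or.inr (by simp [hq]))).add tendsto_id
  simp only [add_zero] at ht
  refine ge_of_tendsto ht ?_
  filter_upwards [self_mem_nhdsWithin] with ε hε
  have hε' : ε ≠ 0 := ne_of_gt hε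
  obtain ⟨W, -, h4, h5⟩ := (Sm.besi (s := K ∩ L) (fun x hx => h3 (q + ε)
    (ENNReal.lt_add_right hq hε') x hx.2) hε').union (h2 ε hε')
  refine limsup_le_of_le (h := (h5 K hK fun x hx => h4 ?_).mono fun k hk => hk.trans ?_)
  · exact (h1 hx).imp (fun h => ⟨hx, h⟩) id
  · gcongr
    exact inter_subset_left

lemma limsup_lintegral_le_of_compact {D : Set (ℝ × ℝ)} {q : ℝ≥0∞} (hq : q ≠ ⊤)
    (h : ∀ K, IsCompact K → K ⊆ D → limsup (fun k => ν k K) atTop ≤ q * volume K)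
    {χ : ℝ × ℝ → ℝ} (hχ : Continuous χ) (h0 : ∀ x, 0 ≤ χ x) {S : Set (ℝ × ℝ)} (hS : IsCompact S)
    (hSD : S ⊆ D) (h1 : ∀ x, x ∉ S → χ x = 0) :
    limsup (fun k => ∫⁻ x, ENNReal.ofReal (χ x) ∂ν k) atTop ≤
      q * ∫⁻ x, ENNReal.ofReal (χ x) := by
  have hsub : ∀ t ∈ Ioi (0 : ℝ), {x | t ≤ χ x} ⊆ S := fun t ht x hx => by
    by_contra h2
    exact absurd (h1 x h2 ▸ hx : t ≤ 0) (not_le.mpr ht)
  obtain ⟨M, hM⟩ := hχ.bounded_above_of_compact_support (HasCompactSupport.intro hS h1)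
  obtain ⟨B, hB⟩ : ∃ B, B = q * volume S + 1 := ⟨_, rfl⟩
  have hfin : q * volume S ≠ ⊤ := ENNReal.mul_ne_top hq hS.measure_lt_top.ne
  have hev := eventually_lt_of_limsup_lt ((h S hS hSD).trans_lt
    (hB ▸ ENNReal.lt_add_right hfin one_ne_zero : _ < B))
  have key := limsup_lintegral_le (μ := volume.restrict (Ioi (0 : ℝ)))
    (f := fun k t => min (ν k {x | t ≤ χ x}) B) ((Icc 0 M).indicator fun _ => B)
    (fun k => (Antitone.measurable fun s t hst =>
      measure_mono fun x (hx : t ≤ χ x) => hst.trans hx).min measurable_const)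
    (fun k => by
      filter_upwards [ae_restrict_mem measurableSet_Ioi] with t ht
      by_cases h2 : t ≤ M
      · rw [indicator_of_mem (show t ∈ Icc 0 M from ⟨le_of_lt ht, h2⟩)]
        exact min_le_right _ _
      · have : {x | t ≤ χ x} = ∅ := eq_empty_of_forall_notMem fun x hx =>
          h2 (le_trans hx ((le_abs_self _).trans (hM x)))
        simp [this])
    (by
      rw [lintegral_indicator_const measurableSet_Icc]
      exact ENNReal.mul_ne_top (by simp [hB, hfin])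
        ((Measure.restrict_apply_le _ _).trans_lt measure_Icc_lt_top).ne)
  refine (limsup_congr ?_).trans_le (key.trans ?_)
  · filter_upwards [hev] with k hk
    rw [lintegral_eq_lintegral_meas_le _ (Eventually.of_forall h0) hχ.aemeasurable]
    exact setLIntegral_congr_fun measurableSet_Ioi fun t ht =>
      (min_eq_left ((measure_mono (hsub t ht)).trans hk.le)).symm
  · rw [lintegral_eq_lintegral_meas_le _ (Eventually.of_forall h0) hχ.aemeasurable,
      ← lintegral_const_mul' _ _ hq]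
    refine setLIntegral_mono' measurableSet_Ioi fun t ht => ?_
    refine (limsup_le_limsup (Eventually.of_forall fun k => min_le_left _ _)).trans
      (h _ (hS.of_isClosed_subset (isClosed_le continuous_const hχ) (hsub t ht))
        ((hsub t ht).trans hSD))

end Pool.Agent.Lib.MP_8daebb_an.H16
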