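import Mathlib

/-! A differential inequality for an additive frequency function with two-scale errors. -/

open Filter Topology Set

namespace Pool.Agent.Lib.MP_8daebb_an.H16

lemma boot {f : ℝ → ℝ} {a b : ℝ} (hf : ContinuousOn f (Icc a b)) (hb : f b ≤ 0)
    (h : ∀ t ∈ Ioc a b, (∀ u ∈ Icc t b, f u ≤ 0) → f t < 0) : ∀ u ∈ Icc a b, f u ≤ 0 := by
  have hc : ContinuousOn (fun s => f (-s)) (Icc (-b) (-a)) :=
    hf.comp continuous_neg.continuousOn fun s hs => ⟨by linarith [hs.2], by linarith [hs.1]⟩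
  have key := IsClosed.Icc_subset_of_forall_mem_nhdsGT_of_Icc_subset (a := -b) (b := -a)
    (s := {s | f (-s) ≤ 0}) (by
      rw [inter_comm]
      exact hc.preimage_isClosed_of_isClosed isClosed_Icc isClosed_Iic) (by simpa using hb) (by
      intro t ht h1
      have h2 := h (-t) ⟨by linarith [ht.2], by linarith [ht.1]⟩ fun u hu => by
        simpa using h1 (show -u ∈ Icc (-b) t from ⟨by linarith [hu.2], by linarith [hu.1]⟩)
      have h3 := (hc t (Ico_subset_Icc_self ht)).eventually (gt_mem_nhds h2)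
      filter_upwards [h3.filter_mono (nhdsWithin_le_of_mem (Icc_mem_nhdsGT_of_mem ht))] with s hs
      exact hs.le)
  intro u hu
  simpa using key (show -u ∈ Icc (-b) (-a) from ⟨by linarith [hu.2], by linarith [hu.1]⟩)

lemma fence_down {f f' : ℝ → ℝ} {a b c d : ℝ} (hf : ∀ t ∈ Icc a b, HasDerivAt f (f' t) t)
    (hb : f b ≤ c - d * b) (h : ∀ t ∈ Icc a b, f t = c - d * t → -d < f' t) :
    ∀ u ∈ Icc a b, f u ≤ c - d * u := by
  have hm : ∀ s ∈ Icc (-b) (-a), -s ∈ Icc a b := fun s hs =>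
    ⟨by linarith [hs.2], by linarith [hs.1]⟩
  have hd : ∀ s ∈ Icc (-b) (-a), HasDerivAt (fun s => f (-s)) (-f' (-s)) s := fun s hs =>
    ((hf _ (hm s hs)).comp s (hasDerivAt_neg s)).congr_deriv (by ring)
  have key := image_le_of_deriv_right_lt_deriv_boundary (f := fun s => f (-s))
    (f' := fun s => -f' (-s)) (a := -b) (b := -a)
    (fun s hs => (hd s hs).continuousAt.continuousWithinAt)
    (fun s hs => (hd s (Ico_subset_Icc_self hs)).hasDerivWithinAt) (B := fun s => c + d * s)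
    (B' := fun _ => d) (by simp only [neg_neg]; linarith)
    (fun s => (((hasDerivAt_id s).const_mul d).const_add c).congr_deriv (by ring))
    (fun s hs h1 => by
      have := h _ (hm s (Ico_subset_Icc_self hs)) (by linarith)
      linarith)
  intro u hu
  have := key (show -u ∈ Icc (-b) (-a) from ⟨by linarith [hu.2], by linarith [hu.1]⟩)
  simp only [neg_neg] at this
  linarith

lemma deriv_le_of_le {f g : ℝ → ℝ} {f' g' a b : ℝ} (hab : a < b) (hf : HasDerivAt f f' a)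
    (hg : HasDerivAt g g' a) (h0 : f a = g a) (h : ∀ t ∈ Icc a b, f t ≤ g t) : f' ≤ g' := by
  have h1 := hasDerivWithinAt_iff_tendsto_slope' (s := Ioi a) (by simp) |>.mp
    (hg.sub hf).hasDerivWithinAt
  refine sub_nonneg.mp (ge_of_tendsto h1 ?_)
  filter_upwards [Ioo_mem_nhdsGT hab] with t ht
  rw [slope_def_field]
  refine div_nonneg ?_ (by linarith [ht.1])
  have := h t ⟨ht.1.le, ht.2.le⟩
  simp only [Pi.sub_apply]
  linarith

lemma decay {H : ℝ → ℝ} {a₁ : ℝ} (h0 : ∀ a ∈ Ioc 0 a₁, 0 ≤ H a) (hm : MonotoneOn H (Ioc 0 a₁))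
    (h : ∀ a ∈ Ioc 0 a₁, H (a / 4) ≤ H a / 4 ^ 5) {a : ℝ} (ha : 0 < a) :
    ∀ b ∈ Icc a a₁, H a / a ^ 5 ≤ 4 ^ 5 * (H b / b ^ 5) := by
  have key : ∀ k : ℕ, ∀ b ∈ Icc a a₁, b ≤ 4 ^ k * a → H a / a ^ 5 ≤ 4 ^ 5 * (H b / b ^ 5) := by
    intro k
    induction k with
    | zero =>
      intro b hb h1
      have : b = a := le_antisymm (by simpa using h1) hb.1
      subst this
      have := div_nonneg (h0 b ⟨ha, hb.2⟩) (pow_pos ha 5).le
      linarith
    | succ k ih =>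
      intro b hb h1
      have hb0 : 0 < b := ha.trans_le hb.1
      rcases le_or_gt a (b / 4) with h2 | h2
      · refine (ih (b / 4) ⟨h2, by linarith [hb.2]⟩ (by rw [pow_succ] at h1; linarith)).trans ?_
        have h3 := h b ⟨hb0, hb.2⟩
        have h4 : H (b / 4) / (b / 4) ^ 5 ≤ H b / 4 ^ 5 / (b / 4) ^ 5 := by gcongr
        have h5 : H b / 4 ^ 5 / (b / 4) ^ 5 = H b / b ^ 5 := by field_simp
        linarith
      · have h3 := hm ⟨ha, hb.1.trans hb.2⟩ ⟨hb0, hb.2⟩ hb.1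
        have h4 := h0 b ⟨hb0, hb.2⟩
        calc H a / a ^ 5 ≤ H b / (b / 4) ^ 5 := by gcongr
          _ = _ := by field_simp
  intro b hb
  obtain ⟨k, hk⟩ := pow_unbounded_of_one_lt (b / a) (by norm_num : (1 : ℝ) < 4)
  exact key k b hb (by rw [div_lt_iff₀ ha] at hk; exact hk.le)

/-- The differential inequalities satisfied by the height `H` and the frequency `n`. -/
structure Freq (a₀ K : ℝ) (p : ℕ) (H n x ε n' : ℝ → ℝ) : Prop where
  K0 : 0 ≤ K
  pos : ∀ a ∈ Ioo 0 a₀, 0 < H a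
  mono : MonotoneOn H (Ioo 0 a₀)
  dH : ∀ a ∈ Ioo 0 a₀, HasDerivAt H (H a * (3 + x a + ε a) / a) a
  dn : ∀ a ∈ Ioo 0 a₀, HasDerivAt n (n' a) a
  ineq : ∀ a ∈ Ioo 0 a₀, (x a - n a) * (x a - 1) - n a * ε a ≤ a * n' a
  n0 : ∀ a ∈ Ioo 0 a₀, 0 ≤ n a
  err : ∀ a τ, 0 < a → 0 < τ → τ ≤ 1 → a * (1 + τ) < a₀ →
    n a - x a ≤ K * H (a * (1 + τ)) ^ 2 / (τ ^ p * a ^ 4 * H a) ∧
    |ε a| ≤ K * H (a * (1 + τ)) ^ 2 / (τ ^ p * a ^ 4 * H a)

variable {a₀ K : ℝ} {p : ℕ} {H n x ε n' : ℝ → ℝ}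

lemma Freq.lyap (h : Freq a₀ K p H n x ε n') {u v N : ℝ} (hu : 0 < u) (huv : u ≤ v)
    (hv : v < a₀) (hN : 2 ≤ N) (h1 : ∀ a ∈ Icc u v, n a ≤ 2 * N ∧ |ε a| ≤ 1) :
    H v ≤ H u * Real.exp (2 + 6 * N * (v / u - 1)) := by
  have hm : ∀ a ∈ Icc u v, a ∈ Ioo 0 a₀ := fun a ha => ⟨hu.trans_le ha.1, ha.2.trans_lt hv⟩
  have hd : ∀ a ∈ Icc u v, HasDerivAt (fun a => Real.log (H a) - n a / N - 6 * N * Real.log a)
      (H a * (3 + x a + ε a) / a / H a - n' a / N - 6 * N * a⁻¹) a := fun a ha =>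
    (((h.dH a (hm a ha)).log (h.pos a (hm a ha)).ne').sub ((h.dn a (hm a ha)).div_const N)).sub
      ((Real.hasDerivAt_log (hm a ha).1.ne').const_mul _)
  have key := antitoneOn_of_deriv_nonpos (convex_Icc u v)
    (fun a ha => (hd a ha).continuousAt.continuousWithinAt)
    (fun a ha => (hd a (interior_subset ha)).differentiableAt.differentiableWithinAt)
    (fun a ha => by
      have ha' := interior_subset ha
      rw [(hd a ha').deriv]
      have h2 := h.ineq a (hm a ha')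
      have h3 := h.n0 a (hm a ha')
      have h4 := h.pos a (hm a ha')
      have h5 := (hm a ha').1
      obtain ⟨h6, h7⟩ := h1 a ha'
      rw [abs_le] at h7
      have h8 : H a * (3 + x a + ε a) / a / H a - n' a / N - 6 * N * a⁻¹ =
          (N * (3 + x a + ε a) - a * n' a - 6 * N ^ 2) / (a * N) := by field_simp
      rw [h8]
      refine div_nonpos_of_nonpos_of_nonneg ?_ (by positivity)
      have h9 : (n a + 1 + N) ^ 2 ≤ (7 / 2 * N) ^ 2 := by gcongr; linarith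
      nlinarith [sq_nonneg (2 * x a - (n a + 1 + N)), mul_nonneg h3 (sub_nonneg.mpr h7.2)])
    ⟨le_rfl, huv⟩ ⟨huv, le_rfl⟩ huv
  have hu' := hm u ⟨le_rfl, huv⟩
  have hv' := hm v ⟨huv, le_rfl⟩
  have h2 : Real.log v - Real.log u ≤ v / u - 1 := by
    rw [← Real.log_div hv'.1.ne' hu.ne']
    exact Real.log_le_sub_one_of_pos (div_pos hv'.1 hu)
  have h3 : n v / N ≤ 2 := by rw [div_le_iff₀ (by linarith)]; exact (h1 v ⟨huv, le_rfl⟩).1
  have h4 : 0 ≤ n u / N := div_nonneg (h.n0 u hu') (by linarith)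
  rw [← Real.exp_log (h.pos v hv'), ← Real.exp_log (h.pos u hu'), ← Real.exp_add]
  apply Real.exp_le_exp.mpr
  simp only at key
  nlinarith

lemma Freq.fence (h : Freq a₀ K p H n x ε n') {u v N : ℝ} (hu : 0 < u)
    (hv : v < a₀) (hN : 2 ≤ N) (hb : n v ≤ N)
    (h1 : ∀ a ∈ Icc u v, n a - x a ≤ a / (4 * v) ∧ |ε a| ≤ a / (4 * v)) :
    ∀ a ∈ Icc u v, n a ≤ 2 * N := by
  intro a ha
  have hv0 : 0 < v := hu.trans_le (ha.1.trans ha.2)
  have hm : ∀ a ∈ Icc u v, a ∈ Ioo 0 a₀ := fun a ha => ⟨hu.trans_le ha.1, ha.2.trans_lt hv⟩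
  have key := fence_down (c := 2 * N) (d := N / v) (fun t ht => h.dn t (hm t ht))
    (by rw [div_mul_cancel₀ _ hv0.ne']; linarith) (fun t ht h2 => by
      have h3 := h.ineq t (hm t ht)
      have ht0 := (hm t ht).1
      obtain ⟨h4, h5⟩ := h1 t ht
      obtain ⟨δ, hδ⟩ : ∃ δ, δ = t / (4 * v) := ⟨_, rfl⟩
      rw [← hδ] at h4 h5
      have h6 : N / v * t = 4 * N * δ := by rw [hδ]; field_simp
      have h7 : 0 < δ := by rw [hδ]; positivity
      have h8 : δ ≤ 1 / 4 := by rw [hδ, div_le_iff₀ (by positivity)]; linarith [ht.2]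
      rw [abs_le] at h5
      have h9 : N ≤ n t := by nlinarith
      have h10 : n t < 2 * N := by nlinarith
      have h11 : -(δ * n t) ≤ (x t - n t) * (x t - 1) := by
        rcases le_total (n t) (x t) with h12 | h12
        · nlinarith [mul_nonneg (sub_nonneg.mpr h12) (by linarith : 0 ≤ x t - 1)]
        · nlinarith [mul_le_mul h4 (by linarith : x t - 1 ≤ n t) (by linarith) h7.le]
      have h13 : n t * ε t ≤ n t * δ := by gcongr <;> linarith
      have h14 : -(N / v) * t < n' t * t := by nlinarith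
      exact lt_of_mul_lt_mul_right h14 ht0.le) a ha
  have : 0 ≤ N / v * a := by have := (hm a ha).1; positivity
  linarith

lemma Freq.good (h : Freq a₀ K p H n x ε n') {b η : ℝ} (hb : 0 < b) (hb' : b < a₀) (hη : 0 ≤ η)
    (hη4 : η ≤ 1 / 4) (h1 : H b / b ^ 4 ≤ η ^ (p + 1)) :
    ∃ a ∈ Icc (b / 2) (3 / 4 * b), ∃ Y ∈ Ioc 0 η, H a = b ^ 4 * Y ^ (p + 1) ∧
      (∀ τ ∈ Icc 0 Y, H (a * (1 + τ)) ≤ 2 ^ (p + 1) * H a) ∧ 3 + x a + ε a ≤ (p + 1) / Y := by
  have hm : ∀ a ∈ Icc (b / 2) b, a ∈ Ioo 0 a₀ := fun a ha =>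
    ⟨by linarith [ha.1], ha.2.trans_lt hb'⟩
  let Y : ℝ → ℝ := fun a => (H a / b ^ 4) ^ (((p + 1 : ℕ) : ℝ)⁻¹)
  have hY0 : ∀ a ∈ Icc (b / 2) b, 0 < Y a := fun a ha =>
    Real.rpow_pos_of_pos (div_pos (h.pos a (hm a ha)) (by positivity)) _
  have hY : ∀ a ∈ Icc (b / 2) b, H a = b ^ 4 * Y a ^ (p + 1) := fun a ha => by
    rw [Real.rpow_inv_natCast_pow (div_pos (h.pos a (hm a ha)) (by positivity)).le (by omega)]
    field_simp
  have hc : ContinuousOn (fun a => Y a - a / b) (Icc (b / 2) b) :=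
    ((ContinuousOn.div_const (fun a ha => (h.dH a (hm a ha)).continuousAt.continuousWithinAt)
      _).rpow_const fun _ _ => Or.inr (by positivity)).sub (by fun_prop)
  obtain ⟨a, ha, hmax⟩ := isCompact_Icc.exists_isMaxOn (nonempty_Icc.mpr (by linarith)) hc
  have hle : ∀ t ∈ Icc (b / 2) b, Y t ≤ Y a + (t - a) / b := fun t ht => by
    have := hmax ht
    simp only [mem_ofPred_eq] at this
    rw [sub_div]
    linarith
  have hYa := hY0 a ha
  have hYη : Y a ≤ η := by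
    refine le_of_pow_le_pow_left₀ (Nat.succ_ne_zero p) hη (le_trans ?_ h1)
    rw [le_div_iff₀ (by positivity), mul_comm, ← hY a ha]
    exact h.mono (hm a ha) ⟨hb, hb'⟩ ha.2
  have ha34 : a ≤ 3 / 4 * b := by
    have h2 := hle (b / 2) ⟨le_rfl, by linarith⟩
    have h3 := hY0 (b / 2) ⟨le_rfl, by linarith⟩
    have h4 : -(1 / 4) ≤ (b / 2 - a) / b := by linarith
    rw [le_div_iff₀ hb] at h4
    linarith
  have hle' : ∀ t ∈ Icc a b, H t ≤ b ^ 4 * (Y a + (t - a) / b) ^ (p + 1) := fun t ht => by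
    have ht' : t ∈ Icc (b / 2) b := ⟨ha.1.trans ht.1, ht.2⟩
    rw [hY t ht']
    have := hle t ht'
    have := (hY0 t ht').le
    gcongr
  have ha0 := (hm a ha).1
  refine ⟨a, ⟨ha.1, ha34⟩, Y a, ⟨hYa, hYη⟩, hY a ha, fun τ hτ => ?_, ?_⟩
  · refine (hle' _ ⟨by nlinarith [hτ.1], by nlinarith [hτ.2]⟩).trans ?_
    have h2 : (a * (1 + τ) - a) / b ≤ Y a := by
      rw [div_le_iff₀ hb]
      nlinarith [hτ.1, hτ.2, ha.2]
    have h3 : 0 ≤ (a * (1 + τ) - a) / b := div_nonneg (by nlinarith [hτ.1]) hb.le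
    calc _ ≤ b ^ 4 * (2 * Y a) ^ (p + 1) := by gcongr; linarith
      _ = _ := by rw [hY a ha]; ring
  · have h2 := deriv_le_of_le (by linarith : a < b) (h.dH a (hm a ha))
      ((((((hasDerivAt_id a).sub_const a).div_const b).const_add (Y a)).pow (p + 1)).const_mul
        (b ^ 4)) (by simpa using hY a ha) hle'
    simp only [id, sub_self, zero_div, add_zero, Nat.add_sub_cancel, hY a ha, Nat.cast_add,
      Nat.cast_one] at h2
    rw [div_le_iff₀ ha0] at h2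
    rw [le_div_iff₀ hYa]
    have h3 : b ^ 4 * ((p + 1) * Y a ^ p * (1 / b)) * a ≤ b ^ 4 * Y a ^ p * (p + 1) := by
      calc _ = b ^ 4 * Y a ^ p * (p + 1) * (a / b) := by ring
        _ ≤ b ^ 4 * Y a ^ p * (p + 1) * 1 := by gcongr; exact (div_le_one hb).mpr ha.2
        _ = _ := mul_one _
    refine le_of_mul_le_mul_left (a := b ^ 4 * Y a ^ p) (le_trans (le_of_eq ?_) (h2.trans h3))
      (by positivity)
    ring

theorem Freq.false (h : Freq a₀ K p H n x ε n') (ha₀ : 0 < a₀)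
    (hdec : ∀ η > 0, ∀ᶠ a in 𝓝[>] 0, H (a / 4) ≤ η * H a) : False := by
  obtain ⟨a₁, ha₁, h1⟩ := (nhdsGT_basis_Ioc (0 : ℝ)).eventually_iff.mp
    ((hdec (1 / 4 ^ 5) (by positivity)).and (Ioo_mem_nhdsGT ha₀))
  have hdc := fun a ha => decay (a₁ := a₁) (a := a) (fun a ha => (h.pos a (h1 ha).2).le)
    (h.mono.mono fun a ha => (h1 ha).2) (fun a ha => by linarith [(h1 ha).1]) ha
  obtain ⟨C, hC⟩ : ∃ C : ℝ, C = K * (6 * (p + 1)) ^ p * (2 ^ (p + 1) * Real.exp 3) ^ 2 * 4 ^ 7 :=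
    ⟨_, rfl⟩
  have hK := h.K0
  have hC0 : 0 ≤ C := by rw [hC]; positivity
  obtain ⟨η, hη, hη4, hηC⟩ : ∃ η : ℝ, 0 < η ∧ η ≤ 1 / 4 ∧ C * η ≤ 1 / 8 := by
    refine ⟨1 / (8 * (C + 1)), by positivity, one_div_le_one_div_of_le (by norm_num)
      (by linarith), ?_⟩
    rw [mul_one_div, div_le_div_iff₀ (by positivity) (by norm_num)]
    linarith
  have ht : Tendsto (fun b : ℝ => b * (4 ^ 5 * (H a₁ / a₁ ^ 5))) (𝓝[>] 0)
      (𝓝 (0 * (4 ^ 5 * (H a₁ / a₁ ^ 5)))) :=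
    (Continuous.tendsto (by fun_prop) 0).mono_left nhdsWithin_le_nhds
  rw [zero_mul] at ht
  obtain ⟨b, hb1, hb⟩ := ((ht.eventually (gt_mem_nhds (pow_pos hη (p + 1)))).and
    (Ioc_mem_nhdsGT ha₁)).exists
  have hb0 := hb.1
  have hba := (h1 hb).2.2
  obtain ⟨v, hv, Y, hY, e1, e2, e3⟩ := h.good hb0 hba hη.le hη4 (by
    refine le_trans ?_ hb1.le
    calc H b / b ^ 4 = b * (H b / b ^ 5) := by field_simp
      _ ≤ _ := by gcongr; exact hdc b hb0 a₁ ⟨hb.2, le_rfl⟩)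
  have hv0 : 0 < v := by linarith [hv.1]
  have hY0 := hY.1
  have hY4 : Y ≤ 1 / 4 := hY.2.trans hη4
  have hp : (0 : ℝ) ≤ p := Nat.cast_nonneg p
  obtain ⟨N, hN⟩ : ∃ N : ℝ, N = (p + 1) / Y := ⟨_, rfl⟩
  obtain ⟨τ, hτ⟩ : ∃ τ : ℝ, τ = Y / (6 * (p + 1)) := ⟨_, rfl⟩
  have hN2 : 2 ≤ N := by rw [hN, le_div_iff₀ hY0]; linarith
  have hτ0 : 0 < τ := by rw [hτ]; positivity
  have hτY : τ ≤ Y := by rw [hτ]; exact div_le_self hY0.le (by linarith)
  have hNτ : 6 * N * τ = 1 := by rw [hN, hτ]; field_simp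
  have hva : v * (1 + τ) < a₀ := by nlinarith [hv.2]
  have hva' : v < a₀ := by nlinarith
  have hm : ∀ a ∈ Ioc 0 v, a ∈ Ioo 0 a₀ ∧ a * (1 + τ) ∈ Ioo 0 a₀ := fun a ha =>
    ⟨⟨ha.1, ha.2.trans_lt hva'⟩, by have := ha.1; positivity, by nlinarith [ha.2]⟩
  let δ : ℝ → ℝ := fun a => K * H (a * (1 + τ)) ^ 2 / (τ ^ p * a ^ 4 * H a)
  have herr : ∀ a ∈ Ioc 0 v, n a - x a ≤ δ a ∧ |ε a| ≤ δ a := fun a ha =>
    h.err a τ ha.1 hτ0 (by linarith) (hm a ha).2.2
  have hsm : ∀ a ∈ Ioc 0 v, H (a * (1 + τ)) ≤ 2 ^ (p + 1) * Real.exp 3 * H a →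
      δ a ≤ a / (8 * v) := by
    intro a ha h2
    have ha0 := ha.1
    have h3 := h.pos a (hm a ha).1
    have h4 := (h.pos _ (hm a ha).2).le
    have h5 := hdc a ha0 v ⟨ha.2, by linarith [hv.2, hb.2]⟩
    have h6 : H v / v ^ 5 ≤ 4 ^ 2 * Y ^ (p + 1) / v := by
      rw [e1, div_le_div_iff₀ (by positivity) hv0]
      have : b ^ 4 ≤ (2 * v) ^ 4 := by gcongr; linarith [hv.1]
      calc b ^ 4 * Y ^ (p + 1) * v ≤ (2 * v) ^ 4 * Y ^ (p + 1) * v := by gcongr
        _ = _ := by ring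
    calc δ a ≤ K * (2 ^ (p + 1) * Real.exp 3 * H a) ^ 2 / (τ ^ p * a ^ 4 * H a) := by
          simp only [δ]; gcongr
      _ = K * (2 ^ (p + 1) * Real.exp 3) ^ 2 / τ ^ p * a * (H a / a ^ 5) := by field_simp
      _ ≤ K * (2 ^ (p + 1) * Real.exp 3) ^ 2 / τ ^ p * a * (4 ^ 5 * (4 ^ 2 * Y ^ (p + 1) / v)) := by
          gcongr; linarith
      _ = C * Y * (a / v) := by rw [hC, hτ, div_pow, pow_succ Y p]; field_simp
      _ ≤ 1 / 8 * (a / v) := by gcongr; exact (mul_le_mul_of_nonneg_left hY.2 hC0).trans hηC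
      _ = _ := by field_simp
  have he1 : (1 : ℝ) ≤ Real.exp 3 := Real.one_le_exp (by norm_num)
  have he2 : (1 : ℝ) ≤ 2 ^ (p + 1) := one_le_pow₀ (by norm_num)
  have hHv := h.pos v ⟨hv0, hva'⟩
  have htop : δ v ≤ v / (8 * v) := hsm v ⟨hv0, le_rfl⟩ ((e2 τ ⟨hτ0.le, hτY⟩).trans (by
    rw [mul_assoc]; gcongr; exact le_mul_of_one_le_left hHv.le he1))
  have hnv : n v ≤ N := by
    obtain ⟨h2, h3⟩ := herr v ⟨hv0, le_rfl⟩
    have h4 : v / (8 * v) = 1 / 8 := by field_simp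
    rw [abs_le] at h3
    linarith [h3.1]
  have hly : ∀ t, 0 < t → (∀ a ∈ Icc t v, δ a - a / (4 * v) ≤ 0) → ∀ u w, t ≤ u → u ≤ w → w ≤ v →
      H w ≤ H u * Real.exp (2 + 6 * N * (w / u - 1)) := by
    intro t ht h2 u w h3 h4 h5
    have h6 : ∀ a ∈ Icc t v, n a - x a ≤ a / (4 * v) ∧ |ε a| ≤ a / (4 * v) := fun a ha =>
      ⟨by linarith [(herr a ⟨ht.trans_le ha.1, ha.2⟩).1, h2 a ha],
        by linarith [(herr a ⟨ht.trans_le ha.1, ha.2⟩).2, h2 a ha]⟩
    refine h.lyap (ht.trans_le h3) h4 (h5.trans_lt hva') hN2 fun a ha => ?_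
    have ha' : a ∈ Icc t v := ⟨h3.trans ha.1, ha.2.trans h5⟩
    refine ⟨h.fence ht hva' hN2 hnv h6 a ha', (h6 a ha').2.trans ?_⟩
    rw [div_le_one (by positivity)]
    linarith [ha'.2]
  have hall : ∀ s, 0 < s → ∀ a ∈ Icc s v, δ a - a / (4 * v) ≤ 0 := by
    intro s hs
    refine boot (fun a ha => ?_) ?_ fun t ht h2 => ?_
    · have ha' := hm a ⟨hs.trans_le ha.1, ha.2⟩
      have h2 := (h.dH _ ha'.1).continuousAt
      have h3 : ContinuousAt (fun a => H (a * (1 + τ))) a :=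
        ContinuousAt.comp (f := fun a => a * (1 + τ)) (h.dH _ ha'.2).continuousAt (by fun_prop)
      have h4 := h.pos _ ha'.1
      have h5 := ha'.1.1
      refine ContinuousAt.continuousWithinAt (ContinuousAt.sub ?_ (by fun_prop))
      exact (continuousAt_const.mul (h3.pow 2)).div
        ((continuousAt_const.mul (continuousAt_id.pow 4)).mul h2) (by positivity)
    · have : v / (8 * v) ≤ v / (4 * v) := by gcongr; norm_num
      linarith
    · have ht0 : 0 < t := hs.trans ht.1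
      have hHt := h.pos t (hm t ⟨ht0, ht.2⟩).1
      have h3 : δ t ≤ t / (8 * v) := by
        refine hsm t ⟨ht0, ht.2⟩ ?_
        rcases le_total (t * (1 + τ)) v with h4 | h4
        · refine (hly t ht0 h2 t _ le_rfl (by nlinarith) h4).trans ?_
          rw [mul_div_cancel_left₀ _ ht0.ne', add_sub_cancel_left, hNτ, mul_comm]
          norm_num
          gcongr
          exact le_mul_of_one_le_left (by positivity) he2
        · refine (h.mono (hm t ⟨ht0, ht.2⟩).2 (hm v ⟨hv0, le_rfl⟩).2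
            (by nlinarith [ht.2])).trans ((e2 τ ⟨hτ0.le, hτY⟩).trans ?_)
          rw [mul_assoc, mul_comm _ (H t)]
          gcongr
          refine (hly t ht0 h2 t v le_rfl ht.2 le_rfl).trans ?_
          gcongr
          have h5 : v / t - 1 ≤ τ := by rw [sub_le_iff_le_add, div_le_iff₀ ht0]; linarith
          nlinarith
      have h4 : t / (8 * v) < t / (4 * v) := by gcongr; norm_num
      linarith
  obtain ⟨a, h2, ha⟩ := ((hdec (1 / (2 * Real.exp (2 + 6 * N * 3))) (by positivity)).and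
    (Ioc_mem_nhdsGT hv0)).exists
  have ha0 := ha.1
  have h3 := hly (a / 4) (by positivity) (hall _ (by positivity)) (a / 4) a le_rfl (by linarith) ha.2
  have h4 : a / (a / 4) - 1 = 3 := by field_simp; norm_num
  rw [h4] at h3
  have h5 := h.pos a (hm a ha).1
  have h6 := Real.exp_pos (2 + 6 * N * 3)
  have h7 := mul_le_mul_of_nonneg_right h2 h6.le
  have h8 : 1 / (2 * Real.exp (2 + 6 * N * 3)) * H a * Real.exp (2 + 6 * N * 3) = H a / 2 := by
    field_simp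
  linarith

end Pool.Agent.Lib.MP_8daebb_an.H16
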