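import Pool.Agent.Lib.MP_8daebb_an.H16.Disc
import Pool.Agent.Lib.MP_8daebb_an.H16.Ode

/-! The projected stress tensor and the vanishing of the height. -/

set_option linter.unusedSectionVars false

open MeasureTheory Metric Filter Topology Set
open scoped RealInnerProductSpace

namespace Pool.Agent.Lib.MP_8daebb_an.H16

variable {E : Type*} [NormedAddCommGroup E] [InnerProductSpace ℝ E] [FiniteDimensional ℝ E]

/-- Horizontal coordinates. -/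
noncomputable def co (ι : EuclideanSpace ℝ (Fin 2) →ₗᵢ[ℝ] E) (x₀ y : E) : ℝ × ℝ :=
  (pr ι (y - x₀) 0, pr ι (y - x₀) 1)

variable {ι : EuclideanSpace ℝ (Fin 2) →ₗᵢ[ℝ] E} {x₀ : E}

@[fun_prop] lemma co_cont : Continuous (co ι x₀) := by unfold co; fun_prop

lemma q2_co (y : E) : q2 (co ι x₀ y) = ‖pr ι (y - x₀)‖ ^ 2 := by
  rw [EuclideanSpace.real_norm_sq_eq, Fin.sum_univ_two]; rfl

lemma sv_eq (z : E × (E →L[ℝ] E)) : sv ι x₀ z = q2 (co ι x₀ z.1) := by rw [q2_co, sv, norm_hz]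

lemma gr_co {φ : ℝ × ℝ → ℝ} (hφ : ContDiff ℝ 1 φ) : Gr (fun y => φ (co ι x₀ y))
    fun y => pd (1, 0) φ (co ι x₀ y) • ev ι 0 + pd (0, 1) φ (co ι x₀ y) • ev ι 1 := by
  have hc : ∀ v, Continuous (pd v φ) := fun v =>
    (hφ.continuous_fderiv one_ne_zero).clm_apply continuous_const
  refine ⟨fun y => ?_, by have := hc (1, 0); have := hc (0, 1); fun_prop⟩
  have h1 : ∀ a, HasFDerivAt (fun y => pr ι (y - x₀) a) (innerSL ℝ (ev ι a)) y := fun a => by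
    simp only [pr_apply, real_inner_comm (ev ι a)]
    exact ((innerSL ℝ (ev ι a)).hasFDerivAt.comp y
      ((hasFDerivAt_id y).sub_const x₀)).congr_fderiv (by ext; simp)
  refine ((hφ.differentiable one_ne_zero _).hasFDerivAt.comp y
    ((h1 0).prodMk (h1 1))).congr_fderiv ?_
  ext v
  have : (⟪ev ι 0, v⟫, ⟪ev ι 1, v⟫) = ⟪ev ι 0, v⟫ • ((1 : ℝ), (0 : ℝ)) + ⟪ev ι 1, v⟫ • (0, 1) := by
    simp
  simp only [ContinuousLinearMap.comp_apply, ContinuousLinearMap.prod_apply, innerSL_apply_apply,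
    this, map_add, map_smul, pd, smul_eq_mul]
  simp [mul_comm, co]

variable [MeasurableSpace E] [BorelSpace E]

/-- `g` is the density of the projection of the signed measure `G ν`. -/
def Rep (ν : Measure (E × (E →L[ℝ] E))) (ι : EuclideanSpace ℝ (Fin 2) →ₗᵢ[ℝ] E) (x₀ : E)
    (G : (E →L[ℝ] E) → ℝ) (g : ℝ × ℝ → ℝ) : Prop :=
  Continuous G ∧ Integrable g ∧ ∀ φ : ℝ × ℝ → ℝ, Measurable φ → (∃ C, ∀ x, |φ x| ≤ C) →
    ∫ z, φ (co ι x₀ z.1) * G z.2 ∂ν = ∫ x, φ x * g x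

variable {ν : Measure (E × (E →L[ℝ] E))} {R : ℝ} {G G₁ G₂ G₃ : (E →L[ℝ] E) → ℝ}
  {g g₁ g₂ g₃ φ : ℝ × ℝ → ℝ}

lemma Core.bint (h : Core ν ι x₀ R) (hG : Continuous G) (h1 : Measurable φ)
    (h2 : ∃ C, ∀ x, |φ x| ≤ C) : Integrable (fun z => φ (co ι x₀ z.1) * G z.2) ν :=
  let ⟨_, hC⟩ := h2
  (h.int (by fun_prop)).bdd_mul (h1.comp (by fun_prop : Continuous fun z : E × (E →L[ℝ] E) =>
    co ι x₀ z.1).measurable).aestronglyMeasurable (Eventually.of_forall fun _ => hC _)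

lemma bint (hg : Integrable g) (h1 : Measurable φ) (h2 : ∃ C, ∀ x, |φ x| ≤ C) :
    Integrable fun x => φ x * g x :=
  let ⟨_, hC⟩ := h2
  hg.bdd_mul h1.aestronglyMeasurable (Eventually.of_forall hC)

lemma Rep.lin (h : Core ν ι x₀ R) (h1 : Rep ν ι x₀ G₁ g₁) (h2 : Rep ν ι x₀ G₂ g₂)
    (h3 : Rep ν ι x₀ G₃ g₃) (a b c : ℝ) : Rep ν ι x₀ (fun P => a * G₁ P + b * G₂ P + c * G₃ P)
      fun x => a * g₁ x + b * g₂ x + c * g₃ x := by
  refine ⟨by have := h1.1; have := h2.1; have := h3.1; fun_prop,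
    ((h1.2.1.const_mul a).add (h2.2.1.const_mul b)).add (h3.2.1.const_mul c), fun φ k1 k2 => ?_⟩
  rw [int_lin a b c (h.bint h1.1 k1 k2) (h.bint h2.1 k1 k2) (h.bint h3.1 k1 k2)
    (Eventually.of_forall fun z => by ring), int_lin a b c (bint h1.2.1 k1 k2)
    (bint h2.2.1 k1 k2) (bint h3.2.1 k1 k2) (Eventually.of_forall fun z => by ring),
    h1.2.2 φ k1 k2, h2.2.2 φ k1 k2, h3.2.2 φ k1 k2]

lemma ind_bdd (S : Set (ℝ × ℝ)) : ∃ C, ∀ x, |S.indicator (1 : ℝ × ℝ → ℝ) x| ≤ C :=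
  ⟨1, fun x => by by_cases h : x ∈ S <;> simp [h]⟩

lemma Rep.nonneg (h : Core ν ι x₀ R) (h1 : Rep ν ι x₀ G g) (h2 : ∀ P, IsPlane 2 P → 0 ≤ G P) :
    ∀ᵐ x, 0 ≤ g x := by
  refine ae_nonneg_of_forall_setIntegral_nonneg h1.2.1 fun S hS _ => ?_
  have h3 := h1.2.2 _ (measurable_one.indicator hS) (ind_bdd S)
  simp only [← indicator_mul_left, Pi.one_apply, one_mul, integral_indicator hS] at h3
  rw [← h3]
  exact integral_nonneg_of_ae (h.car.mono fun z hz =>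
    mul_nonneg (indicator_nonneg (fun _ _ => zero_le_one) _) (h2 _ hz.1))

lemma w_bdd (k : ℕ) (a : ℝ) (x : ℝ × ℝ) : |pp k (a - q2 x)| ≤ pp k a := by
  rw [abs_of_nonneg (pp_nonneg _ _)]
  exact pp_mono _ (sub_le_self _ (by unfold q2; positivity))

lemma Rep.w (h1 : Rep ν ι x₀ G g) (k : ℕ) (a : ℝ) :
    Wt ι x₀ ν k (fun z => G z.2) a = ∫ x, pp k (a - q2 x) * g x := by
  simp only [Wt, sv_eq]
  exact h1.2.2 _ (Continuous.measurable (by fun_prop)) ⟨_, w_bdd k a⟩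

lemma Rep.abs (h : Core ν ι x₀ R) (h1 : Rep ν ι x₀ G g) (h2 : ∀ P, IsPlane 2 P → |G P| ≤ tl ι P)
    (a : ℝ) : ∫ x, pp 3 (a - q2 x) * |g x| ≤ Wt ι x₀ ν 3 (fun z => tl ι z.2) a := by
  obtain ⟨g', k1, k2⟩ := h1.2.1.aemeasurable
  have k3 : Measurable fun x => pp 3 (a - q2 x) * (if 0 ≤ g' x then (1 : ℝ) else -1) :=
    (Continuous.measurable (by fun_prop)).mul
      (Measurable.ite (measurableSet_le measurable_const k1) measurable_const measurable_const)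
  have k4 : ∀ x, |pp 3 (a - q2 x) * (if 0 ≤ g' x then (1 : ℝ) else -1)| = pp 3 (a - q2 x) :=
    fun x => by split_ifs <;> simp [abs_of_nonneg (pp_nonneg _ _)]
  have k5 : ∃ C, ∀ x, |pp 3 (a - q2 x) * (if 0 ≤ g' x then (1 : ℝ) else -1)| ≤ C :=
    ⟨_, fun x => (k4 x).trans_le ((le_abs_self _).trans (w_bdd 3 a x))⟩
  refine le_trans (le_of_eq (Eq.trans (integral_congr_ae (k2.mono fun x hx => ?_))
    (h1.2.2 _ k3 k5).symm)) (integral_mono_ae (h.bint h1.1 k3 k5) (h.int (by fun_prop))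
      (h.car.mono fun z hz => (le_abs_self _).trans ?_))
  · simp only [hx]
    split_ifs with k6
    · rw [abs_of_nonneg k6, mul_one]
    · rw [abs_of_neg (not_le.mp k6)]; ring
  · rw [abs_mul, k4, ← sv_eq]
    exact mul_le_mul_of_nonneg_left (h2 _ hz.1) (pp_nonneg _ _)

lemma Rep.cf (h : Core ν ι x₀ R) (hR : 0 < R) (a : Fin 2) (c : ℝ)
    (h1 : Rep ν ι x₀ G₁ g₁) (h2 : Rep ν ι x₀ G₂ g₂)
    (h3 : ∀ P, IsPlane 2 P → G₁ P = c * en ι a 1 P ∧ G₂ P = -c * en ι a 0 P) :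
    Cf {x | q2 x < R ^ 2} g₁ g₂ := by
  intro φ k1 k2 k3
  have hc : ∀ v, Measurable (pd v φ) ∧ ∃ C, ∀ x, |pd v φ x| ≤ C := fun v =>
    have := (k1.continuous_fderiv one_ne_zero).clm_apply (continuous_const (y := v))
    ⟨this.measurable, this.bounded_above_of_compact_support (k2.fderiv_apply ℝ v)⟩
  obtain ⟨r, hr, h0⟩ : ∃ r < R, ∀ y, r ≤ ‖pr ι (y - x₀)‖ → φ (co ι x₀ y) = 0 := by
    obtain ⟨b, hb, k4⟩ : ∃ b < R ^ 2, ∀ x ∈ tsupport φ, q2 x < b := by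
      rcases (tsupport φ).eq_empty_or_nonempty with k5 | k5
      · exact ⟨0, by positivity, by simp [k5]⟩
      · obtain ⟨x, hx, k6⟩ := k2.exists_isMaxOn k5 q2_cont.continuousOn
        obtain ⟨b, k7, k8⟩ := exists_between (show q2 x < R ^ 2 from k3 hx)
        exact ⟨b, k8, fun y hy => lt_of_le_of_lt (k6 hy) k7⟩
    refine ⟨√b, (Real.sqrt_lt' hR).mpr hb, fun y hy => image_eq_zero_of_notMem_tsupport
      fun k5 => absurd (k4 _ k5) (not_lt.mpr ?_)⟩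
    rw [q2_co]
    exact (Real.sqrt_le_left (norm_nonneg _)).mp hy
  have k4 := h.var (gr_co k1) 0 (c • ev ι a) hr h0
  rw [int_lin 1 (-1) 0 (h.bint h1.1 (hc (0, 1)).1 (hc (0, 1)).2)
    (h.bint h2.1 (hc (1, 0)).1 (hc (1, 0)).2) (integrable_zero _ _ _) (h.car.mono fun z hz => by
      simp [trc, h3 _ hz.1, inner_add_right, inner_smul_right, en, real_inner_comm (z.2 _)]
      ring), h1.2.2 _ (hc (0, 1)).1 (hc (0, 1)).2, h2.2.2 _ (hc (1, 0)).1 (hc (1, 0)).2] at k4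
  rw [int_lin 1 (-1) 0 (bint h1.2.1 (hc (0, 1)).1 (hc (0, 1)).2)
    (bint h2.2.1 (hc (1, 0)).1 (hc (1, 0)).2) (integrable_zero _ _ _)
    (Eventually.of_forall fun z => by ring)]
  simpa using k4

/-- The hypotheses of the unique continuation theorem in coordinates. -/
structure Data (ν : Measure (E × (E →L[ℝ] E))) (ι : EuclideanSpace ℝ (Fin 2) →ₗᵢ[ℝ] E) (x₀ : E)
    (R Q ω : ℝ) (α β γ : ℝ × ℝ → ℝ) (O : ℕ → Set (ℝ × ℝ)) : Prop where
  core : Core ν ι x₀ R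
  R0 : 0 < R
  Q0 : 0 < Q
  ω0 : 0 < ω
  rα : Rep ν ι x₀ (en ι 1 1) α
  rβ : Rep ν ι x₀ (fun P => -en ι 0 1 P) β
  rγ : Rep ν ι x₀ (en ι 0 0) γ
  det : ∀ᵐ x, α x * γ x - β x ^ 2 ≤ Q ^ 2
  hole : ∀ i, IsOpen (O i) ∧ IsPreconnected (O i) ∧ O i ⊆ {x | q2 x < R ^ 2} ∧
    ∀ᵐ x, x ∈ O i → α x + γ x = 0
  steep : ∀ p, q2 p < R ^ 2 →
    (∃ C, ∃ᶠ ρ in 𝓝[>] 0, ∫ x in closedBall p ρ, (α x + γ x) ≤ C * ρ ^ 2) ∨
    ((∀ η > 0, ∃ᶠ ρ in 𝓝[>] 0, ∫ x in closedBall p ρ, (α x + γ x) ≤ η * ρ) ∧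
      ∃ i, p ∈ closure (O i))
  mass : ∀ u ∈ Ioo 0 (R ^ 2), ENNReal.ofReal Q * volume {x | q2 x < u} ≤ ν {z | sv ι x₀ z < u}
  low : ∀ᵐ z ∂ν, ∀ᶠ r in 𝓝[>] (0 : ℝ), ω * r ^ 2 ≤ ν.real (Prod.fst ⁻¹' ball z.1 r)
  thin : ∀ η > 0, ∀ᶠ a in 𝓝[>] (0 : ℝ), ν.real {z | sv ι x₀ z < a ∧ fv ι x₀ z ≠ 0} ≤ η * a

variable {Q ω a : ℝ} {α β γ : ℝ × ℝ → ℝ} {O : ℕ → Set (ℝ × ℝ)}

lemma Data.plane (h : Data ν ι x₀ R Q ω α β γ O) : Plane {x | q2 x < R ^ 2} α β γ Q O := by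
  refine ⟨disc_open _, disc_conv _, h.rα.2.1, h.rβ.2.1, h.rγ.2.1, ?_,
    Rep.cf h.core h.R0 1 1 h.rα h.rβ fun P hP => ⟨by ring, by rw [en_symm hP]; ring⟩,
    Rep.cf h.core h.R0 0 (-1) h.rβ h.rγ fun P hP => ⟨by ring, by ring⟩, h.det, h.hole, h.steep⟩
  filter_upwards [ae_all_iff.mpr fun v : ℚ × ℚ => (Rep.lin h.core h.rα h.rβ h.rγ (v.1 ^ 2)
    (2 * v.1 * v.2) (v.2 ^ 2)).nonneg h.core fun P hP => by
      linarith [quad_nonneg (ι := ι) hP v.2 (-v.1)]] with x hx v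
  refine (Rat.denseRange_cast.prodMap Rat.denseRange_cast).induction_on v
    (isClosed_le continuous_const (by fun_prop)) fun w => ?_
  have := hx w
  simp only [Prod.map_fst, Prod.map_snd]
  linarith

lemma Data.tr (h : Data ν ι x₀ R Q ω α β γ O) (a : ℝ) : ∫ x, pp 3 (a - q2 x) * (α x + γ x) =
    2 * Wt ι x₀ ν 3 (fun _ => 1) a - Wt ι x₀ ν 3 (fun z => tl ι z.2) a := by
  have h1 := (Rep.lin h.core h.rα h.rβ h.rγ 1 0 1).w 3 a
  rw [Wt, int_lin 2 (-1) 0 (h.core.wint 3 a (g := fun _ => 1) (by fun_prop))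
    (h.core.wint 3 a (g := fun z => tl ι z.2) (by fun_prop)) (integrable_zero _ _ _)
    (Eventually.of_forall fun z => by simp only [tl]; ring)] at h1
  simp only [one_mul, zero_mul, add_zero] at h1
  rw [← h1, Wt, Wt]
  ring

lemma one_int (a : ℝ) : Integrable fun x => pp 3 (a - q2 x) * 1 :=
  w_int 2 a (integrableOn_const (cd_cpt a).measure_lt_top.ne)

lemma Data.exc (h : Data ν ι x₀ R Q ω α β γ O) (ha : a < R ^ 2) :
    Q * ∫ x, pp 3 (a - q2 x) * 1 ≤ Wt ι x₀ ν 3 (fun _ => 1) a := by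
  have h1 : ∀ x, 0 ≤ pp 3 x * 1 := fun x => mul_nonneg (pp_nonneg _ _) zero_le_one
  rw [Wt, ← ENNReal.ofReal_le_ofReal_iff (integral_nonneg fun _ => h1 _),
    ENNReal.ofReal_mul h.Q0.le,
    ofReal_integral_eq_lintegral_ofReal (one_int a) (Eventually.of_forall fun _ => h1 _),
    ofReal_integral_eq_lintegral_ofReal (h.core.wint 3 a continuous_const)
      (Eventually.of_forall fun _ => h1 _),
    lintegral_eq_lintegral_meas_lt _ (Eventually.of_forall fun _ => h1 _) (one_int a).aemeasurable,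
    lintegral_eq_lintegral_meas_lt _ (Eventually.of_forall fun _ => h1 _)
      (h.core.wint 3 a continuous_const).aemeasurable,
    ← lintegral_const_mul' _ _ ENNReal.ofReal_ne_top]
  refine setLIntegral_mono' measurableSet_Ioi fun t ht => ?_
  obtain ⟨c, hc, rfl⟩ : ∃ c, 0 < c ∧ t = c ^ 3 :=
    ⟨_, Real.rpow_pos_of_pos ht _, (Real.rpow_inv_natCast_pow (le_of_lt ht) three_ne_zero).symm⟩
  have h2 : ∀ s, c ^ 3 < pp 3 (a - s) * 1 ↔ s < a - c := fun s => by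
    rw [mul_one, pp, pow_lt_pow_iff_left₀ hc.le (le_max_right _ _) three_ne_zero, lt_max_iff,
      or_iff_left hc.not_gt, lt_sub_comm]
  simp only [h2]
  rcases le_or_gt (a - c) 0 with h3 | h3
  · rw [show {x | q2 x < a - c} = ∅ from eq_empty_of_forall_notMem fun x hx =>
      absurd (lt_of_lt_of_le hx h3) (not_lt.mpr (by unfold q2; positivity))]
    simp
  · exact h.mass _ ⟨h3, by linarith⟩

lemma Data.dev_le (h : Data ν ι x₀ R Q ω α β γ O) (ha : a < R ^ 2) :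
    ∫ x, pp 3 (a - q2 x) * dev α β γ Q 0 Q x ≤ 9 * Wt ι x₀ ν 3 (fun z => tl ι z.2) a := by
  have r1 := Rep.lin h.core h.rα h.rβ h.rγ 1 0 (-1)
  have h1 := r1.abs h.core (fun P hP => by
    simpa [← sub_eq_add_neg] using (en_bounds (ι := ι) hP).1) a
  have h2 := h.rβ.abs h.core (fun P hP => by simpa using (en_bounds (ι := ι) hP).2.1) a
  have i1 := w_int 2 a r1.2.1.abs.integrableOn
  have i2 := w_int 2 a h.rβ.2.1.abs.integrableOn
  have i3 := w_int 2 a (h.rα.2.1.add h.rγ.2.1).integrableOn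
  have i4 : Integrable fun x => 2 * Q * (pp 3 (a - q2 x) * 1) - pp 3 (a - q2 x) * (α x + γ x) :=
    ((one_int a).const_mul _).sub i3
  have h3 := int_lin (F := fun x => 2 * Q * (pp 3 (a - q2 x) * 1) - pp 3 (a - q2 x) * (α x + γ x))
    (2 * Q) (-1) 0 (one_int a) i3 (integrable_zero _ _ _) (Eventually.of_forall fun x => by
      simp only [Pi.add_apply]; ring)
  have h4 := int_lin 3 5 1 i1 i2 i4 (Eventually.of_forall fun _ => rfl)
  have h5 := h.tr a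
  have h6 := h.exc ha
  simp only [Pi.add_apply] at h3
  refine le_trans (integral_mono_ae (w_int 2 a (h.plane.dev_int Q 0 Q
    (cd_cpt a).measure_lt_top.ne)) (((i1.const_mul 3).add (i2.const_mul 5)).add (i4.const_mul 1))
    (h.det.mono fun x hx => ?_)) (h4.trans_le (by linarith))
  have e1 : α x + γ x ≤ 2 * Q + |1 * α x + 0 * β x + -1 * γ x| + 2 * |β x| := by
    refine (abs_le_of_sq_le_sq' ?_ (by have := h.Q0; positivity)).2
    have e2 := sq_abs (1 * α x + 0 * β x + -1 * γ x)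
    have e3 := sq_abs (β x)
    have e4 := abs_nonneg (1 * α x + 0 * β x + -1 * γ x)
    have e5 := abs_nonneg (β x)
    nlinarith [mul_nonneg e4 e5, mul_nonneg h.Q0.le e4, mul_nonneg h.Q0.le e5]
  have e2 : dev α β γ Q 0 Q x ≤ 3 * |1 * α x + 0 * β x + -1 * γ x| + 5 * |β x| +
      (2 * Q - (α x + γ x)) := by
    have e3 := le_abs_self (1 * α x + 0 * β x + -1 * γ x)
    have e4 := neg_abs_le (1 * α x + 0 * β x + -1 * γ x)
    have e5 := abs_nonneg (β x)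
    rw [dev, sub_zero]
    rcases abs_cases (α x - Q) with e6 | e6 <;> rcases abs_cases (γ x - Q) with e7 | e7 <;>
      linarith [e6.1, e7.1]
  have := mul_le_mul_of_nonneg_left e2 (pp_nonneg 3 (a - q2 x))
  simp only [Pi.add_apply]
  linarith

end Pool.Agent.Lib.MP_8daebb_an.H16
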