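import Pool.Agent.Lib.MP_8daebb_an.H16.Lines

/-! The Jacobian of a monotone gradient map: image bound and null Lagrangian bound. -/

open MeasureTheory Metric Filter Topology Set
open scoped ENNReal Pointwise

namespace Pool.Agent.Lib.MP_8daebb_an.H16

lemma det_lf (a b c d : ℝ) : ((lf a b).prod (lf c d)).det = a * d - b * c := by
  rw [lf, lf, ← Matrix.toLin_finTwoProd_toContinuousLinearMap, LinearMap.det_toContinuousLinearMap,
    LinearMap.det_toLin, Matrix.det_fin_two_of]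

lemma det_le_image {B U S : Set (ℝ × ℝ)} {g₁ g₂ a b c : ℝ × ℝ → ℝ} (hB : Convex ℝ B)
    (h1 : ∀ x ∈ B, HasFDerivAt g₁ (lf (a x) (b x)) x)
    (h2 : ∀ x ∈ B, HasFDerivAt g₂ (lf (b x) (c x)) x)
    (psd : ∀ x (v : ℝ × ℝ), 0 ≤ a x * v.1 ^ 2 + 2 * b x * v.1 * v.2 + c x * v.2 ^ 2)
    (hU : IsCompact U) (hUB : U ⊆ B) (hS : IsCompact S) (h : ∀ x ∈ U, (g₁ x, g₂ x) ∈ S) :
    ∫⁻ x in U, ENNReal.ofReal (a x * c x - b x ^ 2) ≤ volume S := by
  obtain ⟨R, hR, hUR⟩ := hU.isBounded.subset_closedBall_lt 0 0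
  refine ge_of_tendsto ((tendsto_measure_cthickening_of_isCompact (μ := volume) hS).mono_left
    (nhdsWithin_le_nhds (s := Ioi 0))) ?_
  filter_upwards [self_mem_nhdsWithin] with r hr
  obtain ⟨δ, hδ⟩ : ∃ δ, δ = r / R := ⟨_, rfl⟩
  have hδ0 : 0 < δ := hδ ▸ div_pos hr hR
  let f : ℝ × ℝ → ℝ × ℝ := fun x => (g₁ x + δ * x.1, g₂ x + δ * x.2)
  have hd : ∀ x ∈ B, HasFDerivAt f ((lf (a x + δ) (b x)).prod (lf (b x) (c x + δ))) x :=
    fun x hx => (((h1 x hx).add (hasFDerivAt_fst.const_mul δ)).prodMk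
      ((h2 x hx).add (hasFDerivAt_snd.const_mul δ))).congr_fderiv (by ext <;> simp)
  have hinj : InjOn f U := by
    intro x hx y hy hxy
    by_contra hne
    have hl : ∀ t ∈ Icc (0 : ℝ) 1, HasDerivAt (fun t : ℝ =>
        lf (y - x).1 (y - x).2 (f (x + t • (y - x)))) (lf (y - x).1 (y - x).2
          ((lf (a (x + t • (y - x)) + δ) (b (x + t • (y - x)))).prod
            (lf (b (x + t • (y - x))) (c (x + t • (y - x)) + δ)) (y - x))) t := fun t ht =>
      (lf _ _).hasFDerivAt.comp_hasDerivAt t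
        ((hd _ (hB.add_smul_sub_mem (hUB hx) (hUB hy) ht)).comp_hasDerivAt t
          ((((hasDerivAt_id t).smul_const (y - x)).const_add x).congr_deriv (one_smul _ _)))
    obtain ⟨t, -, ht⟩ := exists_hasDerivAt_eq_slope _ _ zero_lt_one
      (fun t ht => (hl t ht).continuousAt.continuousWithinAt)
      (fun t ht => hl t (Ioo_subset_Icc_self ht))
    simp only [one_smul, zero_smul, add_zero, add_sub_cancel, hxy, sub_self, zero_div, lf_apply,
      ContinuousLinearMap.prod_apply] at ht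
    have h3 := psd (x + t • (y - x)) (y - x)
    have h4 : 0 < (y - x).1 ^ 2 + (y - x).2 ^ 2 := by
      by_contra h5
      have h6 : (y - x).1 = 0 := by nlinarith [sq_nonneg (y - x).1, sq_nonneg (y - x).2]
      have h7 : (y - x).2 = 0 := by nlinarith [sq_nonneg (y - x).1, sq_nonneg (y - x).2]
      exact hne (sub_eq_zero.mp (Prod.ext h6 h7)).symm
    nlinarith [mul_pos hδ0 h4]
  refine le_trans (lintegral_mono fun x => ENNReal.ofReal_le_ofReal ?_)
    ((lintegral_abs_det_fderiv_le_addHaar_image volume hU.measurableSet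
      (fun x hx => (hd x (hUB hx)).hasFDerivWithinAt) hinj).trans (measure_mono ?_))
  · rw [det_lf]
    refine le_trans ?_ (le_abs_self _)
    have h3 := psd x (1, 0)
    have h4 := psd x (0, 1)
    simp only at h3 h4
    nlinarith [mul_pos hδ0 hδ0]
  · rintro _ ⟨x, hx, rfl⟩
    refine mem_cthickening_of_dist_le _ _ _ _ (h x hx) ?_
    have h3 : f x = (g₁ x, g₂ x) + δ • x := rfl
    rw [h3, dist_self_add_left, norm_smul, Real.norm_eq_abs, abs_of_pos hδ0, hδ, div_mul_eq_mul_div,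
      div_le_iff₀ hR]
    exact mul_le_mul_of_nonneg_left (by simpa using hUR hx) (le_of_lt hr)

lemma thick (L : ℝ × ℝ →L[ℝ] ℝ × ℝ) {l : ℝ≥0∞} (hl : ENNReal.ofReal |L.det| < l) :
    ∃ η ∈ Ioc (0 : ℝ) 1, ∀ (c p : ℝ × ℝ) (ρ : ℝ), 0 < ρ → ∃ S, IsCompact S ∧
      volume S ≤ l * volume (closedBall p ρ) ∧
      ∀ y ∈ closedBall p ((1 + η) * ρ), ∀ z, ‖z - c - L (y - p)‖ ≤ η * ρ → z ∈ S := by
  have hK : IsCompact (L '' closedBall 0 1) := (isCompact_closedBall _ _).image L.continuous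
  have h1 := tendsto_measure_cthickening_of_isCompact (μ := volume) hK
  rw [Measure.addHaar_image_continuousLinearMap] at h1
  obtain ⟨η₀, h2, hη₀⟩ := (((h1.eventually (gt_mem_nhds (ENNReal.mul_lt_mul_left
    (measure_closedBall_pos volume (0 : ℝ × ℝ) one_pos).ne' measure_closedBall_lt_top.ne
      hl))).filter_mono (nhdsWithin_le_nhds (s := Ioi 0))).and (Ioc_mem_nhdsGT one_pos)).exists
  obtain ⟨η, hη⟩ : ∃ η, η = η₀ / (1 + ‖L‖) := ⟨_, rfl⟩
  have hη0 : 0 < η := hη ▸ div_pos hη₀.1 (by positivity)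
  have hη1 : η + η * ‖L‖ = η₀ := by rw [hη]; field_simp
  refine ⟨η, ⟨hη0, by nlinarith [norm_nonneg L, hη₀.2]⟩, fun c p ρ hρ =>
    ⟨c +ᵥ ρ • cthickening η₀ (L '' closedBall 0 1), (hK.cthickening.smul ρ).vadd c, ?_,
      fun y hy z hz => ?_⟩⟩
  · rw [measure_vadd, Measure.addHaar_smul_of_nonneg _ hρ.le,
      Measure.addHaar_closedBall' _ _ hρ.le, mul_left_comm]
    exact mul_le_mul_right h2.le _
  · obtain ⟨w, hw⟩ : ∃ w, w = ((1 + η) * ρ)⁻¹ • (y - p) := ⟨_, rfl⟩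
    have h3 : ‖w‖ ≤ 1 := by
      rw [hw, norm_smul, norm_inv, Real.norm_eq_abs, abs_of_pos (by positivity),
        inv_mul_le_iff₀ (by positivity), mul_one]
      exact mem_closedBall_iff_norm.mp hy
    have h4 : ρ⁻¹ • (z - c) - L w = ρ⁻¹ • (z - c - L (y - p)) + η • L w := by
      have : y - p = ((1 + η) * ρ) • w := by rw [hw, smul_inv_smul₀ (by positivity)]
      rw [this, map_smul, smul_sub ρ⁻¹ (z - c), smul_smul,
        show ρ⁻¹ * ((1 + η) * ρ) = 1 + η by field_simp]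
      module
    refine ⟨z - c, ⟨ρ⁻¹ • (z - c), mem_cthickening_of_dist_le _ (L w) _ _
      ⟨w, mem_closedBall_zero_iff.mpr h3, rfl⟩ ?_, smul_inv_smul₀ hρ.ne' _⟩, add_sub_cancel _ _⟩
    rw [dist_eq_norm, h4, ← hη1]
    refine (norm_add_le _ _).trans (add_le_add ?_ ?_)
    · rw [norm_smul, norm_inv, Real.norm_eq_abs, abs_of_pos hρ, inv_mul_le_iff₀ hρ, mul_comm]
      exact hz
    · rw [norm_smul, Real.norm_eq_abs, abs_of_pos hη0]
      exact mul_le_mul_of_nonneg_left (L.unit_le_opNorm w h3) hη0.le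

lemma div_zero {K : Set (ℝ × ℝ)} (hK : IsCompact K) {F G : ℝ × ℝ → ℝ} (v : ℝ × ℝ)
    {F' : ℝ × ℝ → ℝ × ℝ →L[ℝ] ℝ} (h1 : ∀ x ∈ K, HasFDerivAt F (F' x) x)
    (h2 : ∀ x ∈ K, F' x v = G x) (h3 : ContinuousOn G K) (h4 : ∀ x, x ∉ K → F x = 0) :
    ∫ x in K, G x = 0 := by
  have h5 : Integrable (K.indicator G) :=
    (integrable_indicator_iff hK.measurableSet).mpr (h3.integrableOn_compact hK)
  have h6 : Integrable F := (integrableOn_iff_integrable_of_support_subset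
    (s := K) fun x hx => by_contra fun h => hx (h4 x h)).mp (ContinuousOn.integrableOn_compact hK
      fun x hx => (h1 x hx).continuousAt.continuousWithinAt)
  have := integral_bilinear_hasLineDerivAt_right_eq_neg_left_of_integrable (μ := volume)
    (f := fun _ => (1 : ℝ)) (f' := fun _ => 0) (g := F) (g' := K.indicator G) (v := v)
    (B := ContinuousLinearMap.mul ℝ ℝ) (by simp) (by simpa using h5) (by simpa using h6)
    (fun x _ => (hasFDerivAt_const 1 x).hasLineDerivAt v) (fun x _ => by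
      by_cases hx : x ∈ K
      · rw [indicator_of_mem hx, ← h2 x hx]
        exact (h1 x hx).hasLineDerivAt v
      · rw [indicator_of_notMem hx]
        refine ((hasFDerivAt_const 0 x).congr_of_eventuallyEq ?_).hasLineDerivAt v
        filter_upwards [hK.isClosed.isOpen_compl.mem_nhds hx] with y hy using h4 y hy)
  simpa [integral_indicator hK.measurableSet] using this

/-- A nonnegative test function supported in `K` with second derivatives bounded by `C`. -/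
structure Test (K : Set (ℝ × ℝ)) (C : ℝ) (χ χ₁ χ₂ χ₁₁ χ₁₂ χ₂₂ : ℝ × ℝ → ℝ) : Prop where
  cpt : IsCompact K
  d : ∀ x, HasFDerivAt χ (lf (χ₁ x) (χ₂ x)) x
  d₁ : ∀ x, HasFDerivAt χ₁ (lf (χ₁₁ x) (χ₁₂ x)) x
  d₂ : ∀ x, HasFDerivAt χ₂ (lf (χ₁₂ x) (χ₂₂ x)) x
  c₁₁ : Continuous χ₁₁
  c₁₂ : Continuous χ₁₂
  c₂₂ : Continuous χ₂₂
  zero : ∀ x, x ∉ K → χ x = 0 ∧ χ₁ x = 0 ∧ χ₂ x = 0
  bd : ∀ x, |χ₁₁ x| ≤ C ∧ |χ₁₂ x| ≤ C ∧ |χ₂₂ x| ≤ C
  nonneg : ∀ x, 0 ≤ χ x

lemma Test.null {K : Set (ℝ × ℝ)} {C : ℝ} {χ χ₁ χ₂ χ₁₁ χ₁₂ χ₂₂ : ℝ × ℝ → ℝ}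
    (h : Test K C χ χ₁ χ₂ χ₁₁ χ₁₂ χ₂₂) {g₁ g₂ a b c b₁ b₂ c₂ : ℝ × ℝ → ℝ}
    (h1 : ∀ x ∈ K, HasFDerivAt g₁ (lf (a x) (b x)) x)
    (h2 : ∀ x ∈ K, HasFDerivAt g₂ (lf (b x) (c x)) x)
    (h3 : ∀ x ∈ K, HasFDerivAt b (lf (b₁ x) (b₂ x)) x)
    (h4 : ∀ x ∈ K, HasFDerivAt c (lf (b₂ x) (c₂ x)) x)
    (ha : ContinuousOn a K) (hb₂ : ContinuousOn b₂ K) :
    -∫ x in K, χ x * (a x * c x - b x ^ 2) ≤ C * ((∫ x in K, g₁ x ^ 2) + ∫ x in K, g₂ x ^ 2) := by
  have cg₁ : ContinuousOn g₁ K := fun x hx => (h1 x hx).continuousAt.continuousWithinAt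
  have cg₂ : ContinuousOn g₂ K := fun x hx => (h2 x hx).continuousAt.continuousWithinAt
  have cb : ContinuousOn b K := fun x hx => (h3 x hx).continuousAt.continuousWithinAt
  have cc : ContinuousOn c K := fun x hx => (h4 x hx).continuousAt.continuousWithinAt
  have cχ : ContinuousOn χ K := fun x _ => (h.d x).continuousAt.continuousWithinAt
  have cχ₁ : ContinuousOn χ₁ K := fun x _ => (h.d₁ x).continuousAt.continuousWithinAt
  have cχ₂ : ContinuousOn χ₂ K := fun x _ => (h.d₂ x).continuousAt.continuousWithinAt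
  have c₁₁ := h.c₁₁.continuousOn (s := K)
  have c₁₂ := h.c₁₂.continuousOn (s := K)
  have c₂₂ := h.c₂₂.continuousOn (s := K)
  have hK := h.cpt
  have i1 : ContinuousOn (fun x => χ₁ x * g₁ x * c x + χ x * a x * c x + χ x * g₁ x * b₂ x +
      (χ₁₁ x * g₂ x ^ 2 / 2 + χ₁ x * g₂ x * b x)) K := by fun_prop
  have i2 : ContinuousOn (fun x => χ₂₂ x * g₁ x ^ 2 / 2 - (χ x * b x * b x +
      χ x * g₁ x * b₂ x) - (χ₁₂ x * g₁ x * g₂ x + χ₁ x * b x * g₂ x + χ₁ x * g₁ x * c x)) K := by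
    fun_prop
  have e1 := div_zero hK (1, 0) (fun x hx => (((h.d x).mul (h1 x hx)).mul (h4 x hx)).add
    ((((h.d₁ x).mul (h2 x hx)).mul (h2 x hx)).const_mul (1 / 2)))
    (fun x _ => by simp; ring) i1 (fun x hx => by simp [h.zero x hx])
  have e2 := div_zero hK (0, 1) (fun x hx => (((((h.d₂ x).mul (h1 x hx)).mul (h1 x hx)).const_mul
    (1 / 2)).sub (((h.d x).mul (h1 x hx)).mul (h3 x hx))).sub
      (((h.d₁ x).mul (h1 x hx)).mul (h2 x hx)))
    (fun x _ => by simp; ring) i2 (fun x hx => by simp [h.zero x hx])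
  have j1 : IntegrableOn (fun x => g₁ x ^ 2) K := (cg₁.pow 2).integrableOn_compact hK
  have j2 : IntegrableOn (fun x => g₂ x ^ 2) K := (cg₂.pow 2).integrableOn_compact hK
  have j3 : IntegrableOn (fun x => χ x * (a x * c x - b x ^ 2)) K :=
    ContinuousOn.integrableOn_compact hK (by fun_prop)
  have j4 : IntegrableOn (fun x => C * (g₁ x ^ 2 + g₂ x ^ 2)) K := (j1.add j2).const_mul C
  rw [← integral_add j1 j2, ← integral_const_mul, neg_le_iff_add_nonneg', ← integral_add j3 j4]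
  refine le_trans (le_of_eq ?_) (setIntegral_mono_on
    ((i1.integrableOn_compact hK).add (i2.integrableOn_compact hK))
    (j3.add j4) hK.measurableSet fun x _ => ?_)
  · rw [integral_add' (i1.integrableOn_compact hK) (i2.integrableOn_compact hK), e1, e2, add_zero]
  · obtain ⟨k1, k2, k3⟩ := h.bd x
    rw [abs_le] at k1 k2 k3
    simp only [Pi.add_apply]
    nlinarith [mul_nonneg (sub_nonneg.mpr k1.2) (sq_nonneg (g₂ x)),
      mul_nonneg (sub_nonneg.mpr k3.2) (sq_nonneg (g₁ x)),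
      mul_nonneg (sub_nonneg.mpr k2.2) (sq_nonneg (g₁ x - g₂ x)),
      mul_nonneg (sub_nonneg.mpr k2.1) (sq_nonneg (g₁ x + g₂ x))]

end Pool.Agent.Lib.MP_8daebb_an.H16
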