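import Pool.Agent.Lib.MP_8daebb_an.H16.Lines

/-! Mollification in the plane and potentials of curl-free fields. -/

open MeasureTheory Metric Filter Topology Set
open scoped Convolution

namespace Pool.Agent.Lib.MP_8daebb_an.H16

/-- Convolution with the kernel `ρ`. -/
noncomputable def mol (ρ f : ℝ × ℝ → ℝ) (x : ℝ × ℝ) : ℝ := ∫ t, f t * ρ (x - t)

/-- Partial derivative in the direction `v`. -/
noncomputable def pd (v : ℝ × ℝ) (ρ : ℝ × ℝ → ℝ) (x : ℝ × ℝ) : ℝ := fderiv ℝ ρ x v

/-- The mollification scale. -/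
noncomputable def eps (k : ℕ) : ℝ := 1 / ((k : ℝ) + 1)

lemma eps_pos (k : ℕ) : 0 < eps k := Nat.one_div_pos_of_nat

lemma eps_lim : Tendsto eps atTop (𝓝 0) := tendsto_one_div_add_atTop_nhds_zero_nat

/-- The bump function at scale `eps k`. -/
noncomputable def bump (k : ℕ) : ContDiffBump (0 : ℝ × ℝ) :=
  ⟨eps k / 2, eps k, half_pos (eps_pos k), half_lt_self (eps_pos k)⟩

/-- The mollifier at scale `eps k`. -/
noncomputable def ker (k : ℕ) : ℝ × ℝ → ℝ := (bump k).normed volume

lemma ker_cd (k : ℕ) : ContDiff ℝ 1 (ker k) := (bump k).contDiff_normed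

lemma ker_cs (k : ℕ) : HasCompactSupport (ker k) := (bump k).hasCompactSupport_normed

lemma ker_nonneg (k : ℕ) (x : ℝ × ℝ) : 0 ≤ ker k x := (bump k).nonneg_normed x

lemma ker_zero (k : ℕ) {x t : ℝ × ℝ} (h : t ∉ closedBall x (eps k)) : ker k (x - t) = 0 := by
  by_contra h1
  have h2 : x - t ∈ ball 0 (eps k) := (bump k).support_normed_eq (μ := volume) ▸ h1
  rw [mem_ball_zero_iff, ← dist_eq_norm, dist_comm] at h2
  exact h h2.le

lemma pd_cont (k : ℕ) (v : ℝ × ℝ) : Continuous (pd v (ker k)) :=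
  ((ker_cd k).continuous_fderiv one_ne_zero).clm_apply continuous_const

lemma pd_cs (k : ℕ) (v : ℝ × ℝ) : HasCompactSupport (pd v (ker k)) := (ker_cs k).fderiv_apply ℝ v

variable {ρ f G : ℝ × ℝ → ℝ}

lemma mol_int (h1 : Continuous ρ) (h2 : HasCompactSupport ρ) (hf : Integrable f) (x : ℝ × ℝ) :
    Integrable fun t => f t * ρ (x - t) :=
  h2.convolutionExists_right (ContinuousLinearMap.mul ℝ ℝ) hf.locallyIntegrable h1 x

lemma mol_cont (h1 : Continuous ρ) (h2 : HasCompactSupport ρ) (hf : Integrable f) :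
    Continuous (mol ρ f) :=
  h2.continuous_convolution_right (ContinuousLinearMap.mul ℝ ℝ) hf.locallyIntegrable h1

lemma ker_int (k : ℕ) (hf : Integrable f) (x : ℝ × ℝ) : Integrable fun t => f t * ker k (x - t) :=
  mol_int (ker_cd k).continuous (ker_cs k) hf x

lemma ker_cont (k : ℕ) (hf : Integrable f) : Continuous (mol (ker k) f) :=
  mol_cont (ker_cd k).continuous (ker_cs k) hf

lemma mol_deriv (k : ℕ) (hf : Integrable f) (x : ℝ × ℝ) : HasFDerivAt (mol (ker k) f)
    (lf (mol (pd (1, 0) (ker k)) f x) (mol (pd (0, 1) (ker k)) f x)) x := by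
  have h1 := (ker_cs k).hasFDerivAt_convolution_right (ContinuousLinearMap.mul ℝ ℝ)
    hf.locallyIntegrable (ker_cd k) x
  have h2 := convolution_precompR_apply (ContinuousLinearMap.mul ℝ ℝ) hf.locallyIntegrable
    ((ker_cs k).fderiv ℝ) ((ker_cd k).continuous_fderiv one_ne_zero) x
  refine h1.congr_fderiv ?_
  ext
  · exact (h2 (1, 0)).trans (by simp; rfl)
  · exact (h2 (0, 1)).trans (by simp; rfl)

lemma mol_nonneg (k : ℕ) (hG : ∀ᵐ t, 0 ≤ G t) (x : ℝ × ℝ) : 0 ≤ mol (ker k) G x :=
  integral_nonneg_of_ae (hG.mono fun _ ht => mul_nonneg ht (ker_nonneg k _))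

lemma mol_bound (k : ℕ) (hf : Integrable f) (hG : Integrable G) {A : ℝ} {x : ℝ × ℝ}
    (h : ∀ᵐ t, t ∈ closedBall x (eps k) → |f t - A| ≤ G t) :
    |mol (ker k) f x - A| ≤ mol (ker k) G x := by
  have h1 : ∫ t, ker k (x - t) = 1 :=
    (integral_sub_left_eq_self (ker k) volume x).trans (bump k).integral_normed
  have h2 : Integrable fun t => A * ker k (x - t) :=
    (((ker_cd k).continuous.integrable_of_hasCompactSupport (ker_cs k)).comp_sub_left x).const_mul A
  have h3 : mol (ker k) f x - A = ∫ t, (f t * ker k (x - t) - A * ker k (x - t)) := by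
    rw [integral_sub (ker_int k hf x) h2, integral_const_mul, h1, mul_one, mol]
  rw [h3]
  refine abs_integral_le_integral_abs.trans (integral_mono_ae ((ker_int k hf x).sub h2).abs
    (ker_int k hG x) (h.mono fun t ht => ?_))
  by_cases h4 : t ∈ closedBall x (eps k)
  · simp only [← sub_mul, abs_mul, abs_of_nonneg (ker_nonneg k _)]
    exact mul_le_mul_of_nonneg_right (ht h4) (ker_nonneg k _)
  · simp [ker_zero k h4]

lemma mol_maj (k : ℕ) (hG : Integrable G) (h0 : ∀ t, 0 ≤ G t) {B : Set (ℝ × ℝ)}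
    (hB : IsCompact B) : Maj (B.indicator (mol (ker k) G)) ∧
      ∫ x, B.indicator (mol (ker k) G) x ≤ ∫ x, G x := by
  have h1 := mol_nonneg k (Eventually.of_forall h0)
  have h2 := ker_cont k hG
  have h3 : Integrable (ker k) := (ker_cd k).continuous.integrable_of_hasCompactSupport (ker_cs k)
  obtain ⟨C, hC⟩ := hB.exists_bound_of_continuousOn h2.continuousOn
  obtain ⟨R, hR⟩ := hB.isBounded.subset_closedBall 0
  refine ⟨⟨h2.measurable.indicator hB.measurableSet, indicator_nonneg fun x _ => h1 x, max C 0, R,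
    fun x => indicator_le' (fun x hx => ((le_abs_self _).trans (hC x hx)).trans (le_max_left _ _))
      (fun _ _ => le_max_right _ _) x,
    fun x hx => indicator_of_notMem (fun h => absurd (mem_closedBall_zero_iff.mp (hR h))
      (not_le.mpr hx)) _⟩, ?_⟩
  rw [integral_indicator hB.measurableSet]
  refine (setIntegral_le_integral (hG.integrable_convolution (ContinuousLinearMap.mul ℝ ℝ) h3)
    (Eventually.of_forall h1)).trans (le_of_eq ?_)
  rw [integral_convolution (ContinuousLinearMap.mul ℝ ℝ) hG h3, ker, (bump k).integral_normed]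
  simp

lemma mol_ae (hf : Integrable f) :
    ∀ᵐ x, Tendsto (fun k => mol (ker k) f x) atTop (𝓝 (f x)) := by
  filter_upwards [ContDiffBump.ae_convolution_tendsto_right_of_locallyIntegrable (φ := bump)
    (K := 2) eps_lim (Eventually.of_forall fun k => by simp only [bump]; linarith)
    hf.locallyIntegrable] with x hx
  refine hx.congr fun k => ?_
  rw [convolution_lsmul_swap]
  simp only [smul_eq_mul, mul_comm, mol, ker]

/-- The field `(f, g)` is curl free in `D`. -/
def Cf (D : Set (ℝ × ℝ)) (f g : ℝ × ℝ → ℝ) : Prop :=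
  ∀ φ : ℝ × ℝ → ℝ, ContDiff ℝ 1 φ → HasCompactSupport φ → tsupport φ ⊆ D →
    ∫ t, (f t * pd (0, 1) φ t - g t * pd (1, 0) φ t) = 0

/-- The part of `D` where the mollification sees only `D`. -/
def dom (D : Set (ℝ × ℝ)) (k : ℕ) : Set (ℝ × ℝ) := interior {x | closedBall x (eps k) ⊆ D}

lemma dom_convex {D : Set (ℝ × ℝ)} (hD : Convex ℝ D) (k : ℕ) : Convex ℝ (dom D k) := by
  refine Convex.interior fun x hx y hy a b ha hb hab z hz => ?_
  have h1 : z = a • (x + (z - (a • x + b • y))) + b • (y + (z - (a • x + b • y))) := by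
    rw [smul_add, smul_add, add_add_add_comm, ← add_smul, hab, one_smul, add_sub_cancel]
  rw [h1]
  rw [mem_closedBall, dist_eq_norm] at hz
  exact hD (hx (by simpa using hz)) (hy (by simpa using hz)) ha hb hab

lemma dom_ev {D K : Set (ℝ × ℝ)} (hD : IsOpen D) (hK : IsCompact K) (h : K ⊆ D) :
    ∀ᶠ k in atTop, K ⊆ dom D k := by
  obtain ⟨δ, hδ, h1⟩ := hK.exists_thickening_subset_open hD h
  filter_upwards [eps_lim.eventually (gt_mem_nhds (half_pos hδ))] with k hk
  refine (self_subset_thickening (half_pos hδ) K).trans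
    (interior_maximal (fun x hx y hy => h1 ?_) isOpen_thickening)
  obtain ⟨z, hz, h2⟩ := mem_thickening_iff.mp hx
  exact mem_thickening_iff.mpr ⟨z, hz, by linarith [dist_triangle y x z, mem_closedBall.mp hy]⟩

lemma Cf.mol {D : Set (ℝ × ℝ)} {g : ℝ × ℝ → ℝ} (h : Cf D f g) (hf : Integrable f)
    (hg : Integrable g) (k : ℕ) {x : ℝ × ℝ} (hx : x ∈ dom D k) :
    mol (pd (0, 1) (ker k)) f x = mol (pd (1, 0) (ker k)) g x := by
  have h1 : ∀ v t, pd v (fun t => ker k (x - t)) t = -pd v (ker k) (x - t) := fun v t => by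
    have := ((ker_cd k).differentiable one_ne_zero (x - t)).hasFDerivAt.comp t
      ((hasFDerivAt_id t).const_sub x)
    rw [pd, show fderiv ℝ (fun t => ker k (x - t)) t = _ from this.fderiv]
    simp [pd]
  have h2 : Function.support (fun t => ker k (x - t)) ⊆ closedBall x (eps k) := fun t ht =>
    by_contra fun h3 => ht (ker_zero k h3)
  have h3 := h _ ((ker_cd k).comp (contDiff_const.sub contDiff_id))
    (HasCompactSupport.of_support_subset_isCompact (isCompact_closedBall _ _) h2)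
    ((closure_minimal h2 isClosed_closedBall).trans
      (interior_subset (s := {x | closedBall x (eps k) ⊆ D}) hx))
  change ∫ t, (f t * pd (0, 1) (fun t => ker k (x - t)) t -
    g t * pd (1, 0) (fun t => ker k (x - t)) t) = 0 at h3
  simp only [h1, mul_neg, sub_neg_eq_add, neg_add_eq_sub] at h3
  rw [integral_sub (mol_int (pd_cont k _) (pd_cs k _) hg x)
    (mol_int (pd_cont k _) (pd_cs k _) hf x), sub_eq_zero] at h3
  exact h3.symm

lemma Cf.pot {D : Set (ℝ × ℝ)} {g : ℝ × ℝ → ℝ} (h : Cf D f g) (hD : Convex ℝ D)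
    (hf : Integrable f) (hg : Integrable g) (k : ℕ) : ∃ u : ℝ × ℝ → ℝ, ∀ x ∈ dom D k,
      HasFDerivAt u (lf (H16.mol (ker k) f x) (H16.mol (ker k) g x)) x := by
  have h1 := fun x => ((mol_deriv k hf x).smul_const (ContinuousLinearMap.fst ℝ ℝ ℝ)).add
    ((mol_deriv k hg x).smul_const (ContinuousLinearMap.snd ℝ ℝ ℝ))
  refine (dom_convex hD k).exists_forall_hasFDerivAt_of_fderiv_symmetric isOpen_interior
    (fun x _ => (h1 x).differentiableAt.differentiableWithinAt) fun x hx v w => ?_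
  rw [show fderiv ℝ (fun x => lf (H16.mol (ker k) f x) (H16.mol (ker k) g x)) x = _ from
    (h1 x).fderiv]
  simp [h.mol hf hg k hx]
  ring

end Pool.Agent.Lib.MP_8daebb_an.H16
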