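import Pool.Agent.Lib.MP_8daebb_an.H16.Cover
import Pool.Agent.Lib.MP_8daebb_an.H16.Image
import Pool.Agent.Lib.MP_8daebb_an.H16.Moll

/-! A trace inequality for curl-free positive matrix fields with bounded determinant. -/

open MeasureTheory Metric Filter Topology Set
open scoped ENNReal

namespace Pool.Agent.Lib.MP_8daebb_an.H16

/-- A positive symmetric matrix field with curl-free rows, bounded determinant, and holes. -/
structure Plane (D : Set (ℝ × ℝ)) (α β γ : ℝ × ℝ → ℝ) (Q : ℝ) (O : ℕ → Set (ℝ × ℝ)) : Prop where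
  op : IsOpen D
  cv : Convex ℝ D
  iα : Integrable α
  iβ : Integrable β
  iγ : Integrable γ
  psd : ∀ᵐ x, ∀ v : ℝ × ℝ, 0 ≤ α x * v.1 ^ 2 + 2 * β x * v.1 * v.2 + γ x * v.2 ^ 2
  c₁ : Cf D α β
  c₂ : Cf D β γ
  det : ∀ᵐ x, α x * γ x - β x ^ 2 ≤ Q ^ 2
  hole : ∀ i, IsOpen (O i) ∧ IsPreconnected (O i) ∧ O i ⊆ D ∧ ∀ᵐ x, x ∈ O i → α x + γ x = 0
  steep : ∀ p ∈ D, (∃ C, ∃ᶠ ρ in 𝓝[>] 0, ∫ x in closedBall p ρ, (α x + γ x) ≤ C * ρ ^ 2) ∨
    ((∀ η > 0, ∃ᶠ ρ in 𝓝[>] 0, ∫ x in closedBall p ρ, (α x + γ x) ≤ η * ρ) ∧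
      ∃ i, p ∈ closure (O i))

/-- Potentials of the two mollified rows. -/
def Pots (D : Set (ℝ × ℝ)) (α β γ : ℝ × ℝ → ℝ) (g₁ g₂ : ℕ → ℝ × ℝ → ℝ) : Prop :=
  ∀ k, ∀ x ∈ dom D k, HasFDerivAt (g₁ k) (lf (mol (ker k) α x) (mol (ker k) β x)) x ∧
    HasFDerivAt (g₂ k) (lf (mol (ker k) β x) (mol (ker k) γ x)) x

/-- The Jacobian measures of the mollified gradient maps. -/
noncomputable def jac (α β γ : ℝ × ℝ → ℝ) (k : ℕ) : Measure (ℝ × ℝ) :=
  volume.withDensity fun x =>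
    ENNReal.ofReal (mol (ker k) α x * mol (ker k) γ x - mol (ker k) β x ^ 2)

/-- The deviation from a constant matrix. -/
def dev (α β γ : ℝ × ℝ → ℝ) (A B C : ℝ) (x : ℝ × ℝ) : ℝ := |α x - A| + |β x - B| + |γ x - C|

variable {D : Set (ℝ × ℝ)} {α β γ : ℝ × ℝ → ℝ} {Q : ℝ} {O : ℕ → Set (ℝ × ℝ)}
  {g₁ g₂ : ℕ → ℝ × ℝ → ℝ}

lemma Plane.pots (h : Plane D α β γ Q O) : ∃ g₁ g₂, Pots D α β γ g₁ g₂ := by
  choose g₁ h1 using h.c₁.pot h.cv h.iα h.iβ
  choose g₂ h2 using h.c₂.pot h.cv h.iβ h.iγ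
  exact ⟨g₁, g₂, fun k x hx => ⟨h1 k x hx, h2 k x hx⟩⟩

lemma Plane.mpsd (h : Plane D α β γ Q O) (k : ℕ) (x v : ℝ × ℝ) : 0 ≤ mol (ker k) α x * v.1 ^ 2 +
    2 * mol (ker k) β x * v.1 * v.2 + mol (ker k) γ x * v.2 ^ 2 := by
  refine (mol_nonneg k (h.psd.mono fun t ht => ht v) x).trans_eq ?_
  have h1 := (ker_int k h.iα x).mul_const (v.1 ^ 2)
  have h2 := (ker_int k h.iβ x).mul_const (2 * v.1 * v.2)
  have h3 := (ker_int k h.iγ x).mul_const (v.2 ^ 2)
  have h4 := integral_add (h1.add h2) h3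
  rw [integral_add' h1 h2, integral_mul_const, integral_mul_const, integral_mul_const] at h4
  refine Eq.trans (integral_congr_ae (Eventually.of_forall fun t => ?_)) (h4.trans ?_)
  · simp only [Pi.add_apply]; ring
  · simp only [mol]; ring

lemma Plane.jac_le (h : Plane D α β γ Q O) (hg : Pots D α β γ g₁ g₂) {k : ℕ} {U S : Set (ℝ × ℝ)}
    (hU : IsCompact U) (hUD : U ⊆ dom D k) (hS : IsCompact S)
    (h1 : ∀ x ∈ U, (g₁ k x, g₂ k x) ∈ S) : jac α β γ k U ≤ volume S := by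
  rw [jac, withDensity_apply _ hU.measurableSet]
  exact det_le_image (dom_convex h.cv k) (fun x hx => (hg k x hx).1) (fun x hx => (hg k x hx).2)
    (h.mpsd k) hU hUD hS h1

lemma Plane.dev_int (h : Plane D α β γ Q O) (A B C : ℝ) {S : Set (ℝ × ℝ)} (hS : volume S ≠ ⊤) :
    IntegrableOn (dev α β γ A B C) S :=
  ((h.iα.integrableOn.sub (integrableOn_const hS)).abs.add
    (h.iβ.integrableOn.sub (integrableOn_const hS)).abs).add
      (h.iγ.integrableOn.sub (integrableOn_const hS)).abs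

lemma Plane.grad (h : Plane D α β γ Q O) (hg : Pots D α β γ g₁ g₂) (A B C : ℝ) {k : ℕ}
    {S S' : Set (ℝ × ℝ)} (hS : IsCompact S) (hc : Convex ℝ S) (hSD : S ⊆ dom D k)
    (hm : MeasurableSet S') (hS' : volume S' ≠ ⊤) (h1 : ∀ x ∈ S, closedBall x (eps k) ⊆ S') :
    ∃ F, Grad S (fun y => g₁ k y - lf A B y) (fun y => mol (ker k) α y - A)
      (fun y => mol (ker k) β y - B) F ∧ Grad S (fun y => g₂ k y - lf B C y)
      (fun y => mol (ker k) β y - B) (fun y => mol (ker k) γ y - C) F ∧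
      ∫ x, F x ≤ ∫ x in S', dev α β γ A B C x := by
  have hG := (integrable_indicator_iff hm).mpr (h.dev_int A B C hS')
  obtain ⟨h2, h3⟩ := mol_maj k hG (indicator_nonneg fun x _ => by unfold dev; positivity) hS
  have key : ∀ f : ℝ × ℝ → ℝ, Integrable f → ∀ c, (∀ t, |f t - c| ≤ dev α β γ A B C t) → ∀ x ∈ S,
      |mol (ker k) f x - c| ≤ S.indicator (mol (ker k) (S'.indicator (dev α β γ A B C))) x := by
    intro f hf c h4 x hx
    rw [indicator_of_mem hx]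
    exact mol_bound k hf hG (Eventually.of_forall fun t ht => by
      rw [indicator_of_mem (h1 x hx ht)]; exact h4 t)
  have k1 := key α h.iα A fun t => by
    unfold dev; linarith [abs_nonneg (β t - B), abs_nonneg (γ t - C)]
  have k2 := key β h.iβ B fun t => by
    unfold dev; linarith [abs_nonneg (α t - A), abs_nonneg (γ t - C)]
  have k3 := key γ h.iγ C fun t => by
    unfold dev; linarith [abs_nonneg (α t - A), abs_nonneg (β t - B)]
  refine ⟨_, ⟨hc, (ker_cont k h.iα).sub continuous_const, (ker_cont k h.iβ).sub continuous_const,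
    fun x hx => ((hg k x (hSD hx)).1.sub (lf A B).hasFDerivAt).congr_fderiv (by ext <;> simp),
    h2, k1, k2⟩, ⟨hc, (ker_cont k h.iβ).sub continuous_const,
    (ker_cont k h.iγ).sub continuous_const,
    fun x hx => ((hg k x (hSD hx)).2.sub (lf B C).hasFDerivAt).congr_fderiv (by ext <;> simp),
    h2, k2, k3⟩, by rwa [integral_indicator hm] at h3⟩

lemma swap_ball (p : ℝ × ℝ) (r : ℝ) : Prod.swap ⁻¹' closedBall p r = closedBall p.swap r := by
  ext x
  simp [Prod.dist_eq, and_comm]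

lemma Plane.loc (h : Plane D α β γ Q O) (hg : Pots D α β γ g₁ g₂) (A B C : ℝ) {p : ℝ × ℝ}
    {ρ θ : ℝ} (hθ : 0 < θ) (hθρ : θ ≤ ρ) (hD : closedBall p (3 * ρ) ⊆ D) :
    ∀ᶠ k in atTop, ∃ c, ∀ y ∈ closedBall p ρ,
      ‖(g₁ k y, g₂ k y) - c - (lf A B).prod (lf B C) (y - p)‖ ≤
        (|A| + |C|) * θ + 2 * (∫ x in closedBall p (3 * ρ), dev α β γ A B C x) / θ := by
  filter_upwards [dom_ev h.op (isCompact_closedBall _ _) hD,
    eps_lim.eventually (gt_mem_nhds (hθ.trans_le hθρ))] with k h1 h2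
  obtain ⟨F, h3, h4, h5⟩ := h.grad hg A B C (isCompact_closedBall p (2 * ρ))
    (convex_closedBall _ _) ((closedBall_subset_closedBall (by linarith)).trans h1)
    measurableSet_closedBall (measure_closedBall_lt_top (x := p) (r := 3 * ρ)).ne fun x hx =>
      closedBall_subset_closedBall' (by linarith [mem_closedBall.mp hx])
  obtain ⟨c₁, h6⟩ := h3.osc hθ hθρ (abs_nonneg A) fun x _ => by
    have := h.mpsd k x (1, 0)
    simp only at this
    linarith [le_abs_self A]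
  obtain ⟨c₂, h7⟩ := (swap_ball p _ ▸ h4.swap).osc hθ hθρ (abs_nonneg C) fun x _ => by
    have := h.mpsd k x.swap (0, 1)
    simp only at this
    linarith [le_abs_self C]
  rw [integral_swap'] at h7
  have h8 : 2 * (∫ x, F x) / θ ≤ 2 * (∫ x in closedBall p (3 * ρ), dev α β γ A B C x) / θ := by
    gcongr
  refine ⟨(c₁ + lf A B p, c₂ + lf B C p), fun y hy => norm_prod_le_iff.mpr ⟨?_, ?_⟩⟩
  · refine (le_of_eq ?_).trans ((h6 y hy).trans (by nlinarith [abs_nonneg C]))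
    rw [Real.norm_eq_abs]
    congr 1
    simp
    ring
  · refine (le_of_eq ?_).trans ((h7 y.swap (swap_ball p _ ▸ hy)).trans
      (by nlinarith [abs_nonneg A]))
    rw [Real.norm_eq_abs]
    congr 1
    simp
    ring

lemma Plane.loc0 (h : Plane D α β γ Q O) (hg : Pots D α β γ g₁ g₂) {p : ℝ × ℝ} {ρ : ℝ}
    (hρ : 0 < ρ) (hD : closedBall p (3 * ρ) ⊆ D) : ∀ᶠ k in atTop, ∃ c, ∀ y ∈ closedBall p ρ,
      (g₁ k y, g₂ k y) ∈ closedBall c (4 * (∫ x in closedBall p (3 * ρ), (α x + γ x)) / ρ) := by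
  filter_upwards [h.loc hg 0 0 0 hρ le_rfl hD] with k ⟨c, hc⟩
  refine ⟨c, fun y hy => mem_closedBall_iff_norm.mpr (((le_of_eq ?_).trans (hc y hy)).trans ?_)⟩
  · congr 1
    ext <;> simp
  · have h1 : ∫ x in closedBall p (3 * ρ), dev α β γ 0 0 0 x ≤
        ∫ x in closedBall p (3 * ρ), 2 * (α x + γ x) := by
      refine integral_mono_ae (h.dev_int 0 0 0 measure_closedBall_lt_top.ne)
        ((h.iα.add h.iγ).const_mul 2).integrableOn (ae_restrict_of_ae (h.psd.mono fun x hx => ?_))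
      have e1 := hx (1, 0)
      have e2 := hx (0, 1)
      have e3 := hx (1, 1)
      have e4 := hx (1, -1)
      simp only [dev, sub_zero] at *
      have : |β x| ≤ α x + γ x := abs_le.mpr ⟨by linarith, by linarith⟩
      rw [abs_of_nonneg (by linarith), abs_of_nonneg (show 0 ≤ γ x by linarith)]
      linarith
    rw [integral_const_mul] at h1
    rw [abs_zero, add_zero, zero_mul, zero_add]
    exact div_le_div_of_nonneg_right (by linarith) hρ.le

lemma small_ball {p : ℝ × ℝ} (hD : IsOpen D) (hp : p ∈ D) :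
    ∀ᶠ ρ in 𝓝[>] (0 : ℝ), closedBall p ρ ⊆ D :=
  (eventually_closedBall_subset (hD.mem_nhds hp)).filter_mono nhdsWithin_le_nhds

lemma Plane.neg_hole (h : Plane D α β γ Q O) (hg : Pots D α β γ g₁ g₂) (i : ℕ) :
    Neg (jac α β γ) {p | p ∈ D ∧ p ∈ closure (O i) ∧
      ∀ η > 0, ∃ᶠ ρ in 𝓝[>] 0, ∫ x in closedBall p ρ, (α x + γ x) ≤ η * ρ} := by
  obtain ⟨h1, h2, h3, h4⟩ := h.hole i
  have hrel : ∀ x ∈ O i, ∀ y ∈ O i, ∀ᶠ k in atTop, (g₁ k x, g₂ k x) = (g₁ k y, g₂ k y) := by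
    intro x hx y hy
    refine h2.induction₂ (fun x y => ∀ᶠ k in atTop, (g₁ k x, g₂ k x) = (g₁ k y, g₂ k y))
      (fun x hx => ?_) (fun _ _ _ _ _ _ e1 e2 => (e1.and e2).mono fun _ e => e.1.trans e.2)
      (fun _ _ _ _ e => e.mono fun _ e => e.symm) hx hy
    obtain ⟨ρ, h5, hρ⟩ := ((small_ball h1 hx).and self_mem_nhdsWithin).exists
    have hρ3 : 0 < ρ / 3 := div_pos hρ three_pos
    have h6 := h.loc0 hg (p := x) hρ3 (by rw [mul_div_cancel₀ _ three_ne_zero]; exact h5.trans h3)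
    rw [mul_div_cancel₀ _ three_ne_zero, setIntegral_eq_zero_of_ae_eq_zero
      (h4.mono fun y hy hy' => hy (h5 hy')), mul_zero, zero_div] at h6
    filter_upwards [nhdsWithin_le_nhds (closedBall_mem_nhds x hρ3)] with y hy
    filter_upwards [h6] with k ⟨c, hc⟩
    rw [closedBall_zero] at hc
    exact (hc x (mem_closedBall_self hρ3.le)).trans (hc y hy).symm
  intro ε hε
  obtain ⟨η, h5, hη⟩ := ((((tendsto_measure_cthickening_of_isCompact (μ := volume)
    (isCompact_singleton (x := (0 : ℝ × ℝ)))).eventually (gt_mem_nhds (by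
      rw [measure_singleton]; exact pos_iff_ne_zero.mpr hε))).filter_mono
        (nhdsWithin_le_nhds (s := Ioi 0))).and self_mem_nhdsWithin).exists
  have hη0 : 0 < η := hη
  rw [cthickening_singleton _ hη0.le] at h5
  have key : ∀ p : {p | p ∈ D ∧ p ∈ closure (O i) ∧ ∀ η > 0, ∃ᶠ ρ in 𝓝[>] 0,
      ∫ x in closedBall p ρ, (α x + γ x) ≤ η * ρ}, ∃ ρ > 0, closedBall p.1 ρ ⊆ D ∧ ∀ y₀ ∈ O i,
        ∀ᶠ k in atTop, ∀ y ∈ ball p.1 ρ, (g₁ k y, g₂ k y) ∈ closedBall (g₁ k y₀, g₂ k y₀) η := by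
    rintro ⟨p, hp1, hp2, hp3⟩
    obtain ⟨ρ, h6, h7, hρ⟩ := ((hp3 (η / 24) (by positivity)).and_eventually
      ((small_ball h.op hp1).and self_mem_nhdsWithin)).exists
    have hρ0 : 0 < ρ := hρ
    have hρ3 : 0 < ρ / 3 := by positivity
    have h8 := h.loc0 hg (p := p) hρ3 (by rwa [mul_div_cancel₀ _ three_ne_zero])
    rw [mul_div_cancel₀ _ three_ne_zero] at h8
    obtain ⟨z, hz1, hz2⟩ := mem_closure_iff.mp hp2 _ hρ3
    refine ⟨ρ / 3, hρ3, (closedBall_subset_closedBall (by linarith)).trans h7, fun y₀ hy₀ => ?_⟩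
    filter_upwards [h8, hrel y₀ hy₀ z hz1] with k ⟨c, hc⟩ h9 y hy
    have e1 := hc y (ball_subset_closedBall hy)
    have e2 := hc z (mem_closedBall'.mpr hz2.le)
    have e3 : 4 * (∫ x in closedBall p ρ, (α x + γ x)) / (ρ / 3) ≤ η / 2 := by
      rw [div_le_iff₀ hρ3]; linarith
    rw [h9, mem_closedBall]
    linarith [dist_triangle_right (g₁ k y, g₂ k y) (g₁ k z, g₂ k z) c, mem_closedBall.mp e1,
      mem_closedBall.mp e2]
  choose r hr0 hr1 hr2 using key
  refine ⟨⋃ p, ball p.1 (r p), isOpen_iUnion fun _ => isOpen_ball,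
    fun p hp => mem_iUnion.mpr ⟨⟨p, hp⟩, mem_ball_self (hr0 _)⟩, fun K hK hKW => ?_⟩
  rcases (O i).eq_empty_or_nonempty with h6 | ⟨y₀, hy₀⟩
  · have : K = ∅ := eq_empty_of_forall_notMem fun x hx => by
      obtain ⟨p, -⟩ := mem_iUnion.mp (hKW hx)
      simpa [h6] using p.2.2.1
    simp [this]
  obtain ⟨t, ht⟩ := hK.elim_finite_subcover _ (fun _ => isOpen_ball) hKW
  filter_upwards [dom_ev h.op hK (hKW.trans (iUnion_subset fun p =>
    ball_subset_closedBall.trans (hr1 p))), (eventually_all_finset t).mpr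
      fun p _ => hr2 p y₀ hy₀] with k h6 h7
  refine (h.jac_le hg hK h6 (isCompact_closedBall (g₁ k y₀, g₂ k y₀) η) fun x hx => ?_).trans
    ((Measure.addHaar_closedBall_center _ _ _).trans_le h5.le)
  obtain ⟨p, hp, hx'⟩ := mem_iUnion₂.mp (ht hx)
  exact h7 p hp x hx'

lemma Plane.neg_null (h : Plane D α β γ Q O) (hg : Pots D α β γ g₁ g₂) {N : Set (ℝ × ℝ)}
    (hN : volume N = 0) (j : ℕ) : Neg (jac α β γ) {p | p ∈ N ∧ p ∈ D ∧
      ∃ᶠ ρ in 𝓝[>] 0, ∫ x in closedBall p ρ, (α x + γ x) ≤ j * ρ ^ 2} := by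
  refine neg_of_null (l := ENNReal.ofReal ((72 * j) ^ 2)) ENNReal.ofReal_ne_top
    (measure_mono_null (fun _ hp => hp.1) hN) ?_
  rintro p ⟨-, hp1, hp2⟩ δ hδ
  obtain ⟨ρ, h6, h7, hρ⟩ := (hp2.and_eventually
    ((small_ball h.op hp1).and (Ioo_mem_nhdsGT hδ))).exists
  have hρ0 := hρ.1
  have h8 := h.loc0 hg (p := p) (ρ := ρ / 3) (by positivity)
    (by rwa [mul_div_cancel₀ _ three_ne_zero])
  rw [mul_div_cancel₀ _ three_ne_zero] at h8
  refine ⟨ρ / 6, ⟨by positivity, by linarith [hρ.2]⟩, ball p (ρ / 3), isOpen_ball,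
    closedBall_subset_ball (by linarith), fun K hK hKW => ?_⟩
  filter_upwards [h8, dom_ev h.op hK (hKW.trans ((ball_subset_closedBall.trans
    (closedBall_subset_closedBall (by linarith))).trans h7))] with k ⟨c, hc⟩ h9
  refine (h.jac_le hg hK h9 (isCompact_closedBall c (72 * j * (ρ / 6))) fun x hx =>
    closedBall_subset_closedBall ?_ (hc x (ball_subset_closedBall (hKW hx)))).trans_eq ?_
  · rw [div_le_iff₀ (by positivity)]
    linarith
  · rw [Measure.addHaar_closedBall_mul _ _ (by positivity) (by positivity),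
      Measure.addHaar_closedBall_center _ p]
    simp

lemma scale_lim {c : ℝ} (hc : 0 < c) : Tendsto (fun ρ : ℝ => c * ρ) (𝓝[>] 0) (𝓝[>] 0) :=
  tendsto_iff_comap.mpr (comap_mulLeft_nhdsGT_zero hc).ge

lemma leb {f : ℝ × ℝ → ℝ} (hf : Integrable f) : ∀ᵐ p, ∀ η > 0, ∀ᶠ ρ in 𝓝[>] (0 : ℝ),
    ∫ x in closedBall p (3 * ρ), |f x - f p| ≤ η * ρ ^ 2 := by
  filter_upwards [(Besicovitch.vitaliFamily volume).ae_tendsto_average_norm_sub
    hf.locallyIntegrable] with p hp η hη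
  filter_upwards [((hp.comp (Besicovitch.tendsto_filterAt volume p)).comp
    (scale_lim three_pos)).eventually (gt_mem_nhds (show 0 < η / 36 by positivity)),
    self_mem_nhdsWithin] with ρ h2 hρ
  have hρ0 : 0 < ρ := hρ
  have h3 : volume.real (closedBall p (3 * ρ)) = 36 * ρ ^ 2 := by
    rw [← closedBall_prod_same, Measure.volume_eq_prod, measureReal_prod_prod,
      Real.volume_real_closedBall (by positivity), Real.volume_real_closedBall (by positivity)]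
    ring
  simp only [Function.comp_apply, setAverage_eq, h3, smul_eq_mul, Real.norm_eq_abs] at h2
  rw [inv_mul_lt_iff₀ (by positivity)] at h2
  linarith

lemma Plane.limsup_jac (h : Plane D α β γ Q O) {K : Set (ℝ × ℝ)} (hK : IsCompact K)
    (hKD : K ⊆ D) :
    limsup (fun k => jac α β γ k K) atTop ≤ ENNReal.ofReal (Q ^ 2) * volume K := by
  obtain ⟨g₁, g₂, hg⟩ := h.pots
  have hN := ((((leb h.iα).and (leb h.iβ)).and (leb h.iγ)).and h.psd).and h.det
  obtain ⟨N, hN, hN'⟩ := exists_measurable_superset_iff_measure_eq_zero.mpr (ae_iff.mp hN)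
  refine limsup_le_of_cover (L := D ∩ Nᶜ) ENNReal.ofReal_ne_top hK ?_
    ((Neg.iUnion (h.neg_null hg hN'.2)).union (Neg.iUnion (h.neg_hole hg))) ?_
  · intro p hp
    by_contra h1
    simp only [mem_union, mem_inter_iff, mem_iUnion, mem_ofPred_eq, not_or, not_exists] at h1
    rcases h.steep p (hKD hp) with ⟨C, h2⟩ | ⟨h2, i, h3⟩
    · obtain ⟨j, hj⟩ := exists_nat_ge C
      exact h1.2.1 j ⟨by_contra fun h3 => h1.1 ⟨hKD hp, h3⟩, hKD hp,
        h2.mono fun ρ h3 => h3.trans (by gcongr)⟩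
    · exact h1.2.2 i ⟨hKD hp, h3, h2⟩
  · rintro l hl p ⟨hp, hp'⟩ δ hδ
    obtain ⟨⟨⟨⟨l1, l2⟩, l3⟩, h1⟩, h2⟩ := not_not.mp fun h1 => hp' (hN h1)
    have h3 : 0 ≤ α p * γ p - β p * β p := by
      have := discrim_le_zero (a := α p) (b := 2 * β p) (c := γ p) fun t => by
        simpa [sq] using h1 (t, 1)
      rw [discrim] at this
      linarith
    obtain ⟨η, hη, h4⟩ := thick ((lf (α p) (β p)).prod (lf (β p) (γ p))) (l := l)
      ((ENNReal.ofReal_le_ofReal (by rw [det_lf, abs_of_nonneg h3]; linarith)).trans_lt hl)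
    have hη0 := hη.1
    obtain ⟨κ, hκ⟩ : ∃ κ, κ = η / (2 * (|α p| + |γ p| + 1)) := ⟨_, rfl⟩
    have hκ0 : 0 < κ := by rw [hκ]; positivity
    have hκ1 : (|α p| + |γ p| + 1) * κ = η / 2 := by rw [hκ]; field_simp
    have hη' : 0 < η * κ / 48 := by positivity
    obtain ⟨ρ, ⟨⟨⟨e1, e2⟩, e3⟩, e4⟩, hρ⟩ := (((scale_lim two_pos).eventually
      ((((l1 _ hη').and (l2 _ hη')).and (l3 _ hη')).and ((scale_lim three_pos).eventually
        (small_ball h.op hp)))).and (Ioo_mem_nhdsGT hδ)).exists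
    have hρ0 := hρ.1
    have hsub : ball p ((1 + η) * ρ) ⊆ closedBall p (2 * ρ) :=
      ball_subset_closedBall.trans (closedBall_subset_closedBall (by nlinarith [hη.2]))
    refine ⟨ρ, hρ, ball p ((1 + η) * ρ), isOpen_ball, closedBall_subset_ball (by nlinarith),
      fun U hU hUW => ?_⟩
    filter_upwards [h.loc hg (α p) (β p) (γ p) (θ := κ * ρ) (by positivity)
      (by nlinarith [abs_nonneg (α p), abs_nonneg (γ p), hη.2]) e4, dom_ev h.op hU
      (hUW.trans (hsub.trans ((closedBall_subset_closedBall (by linarith)).trans e4)))]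
      with k ⟨c, hc⟩ h5
    obtain ⟨S, hS, h6, h7⟩ := h4 c p ρ hρ0
    refine (h.jac_le hg hU h5 hS fun x hx => h7 x (ball_subset_closedBall (hUW hx)) _
      ((hc x (hsub (hUW hx))).trans ?_)).trans h6
    have hi : ∀ f : ℝ × ℝ → ℝ, Integrable f → IntegrableOn (fun x => |f x - f p|)
        (closedBall p (3 * (2 * ρ))) := fun f hf =>
      (hf.integrableOn.sub (integrableOn_const measure_closedBall_lt_top.ne)).abs
    have h8 : 2 * (∫ x in closedBall p (3 * (2 * ρ)), dev α β γ (α p) (β p) (γ p) x) / (κ * ρ) ≤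
        η / 2 * ρ := by
      rw [div_le_iff₀ (by positivity), int_lin 1 1 1 (hi α h.iα) (hi β h.iβ) (hi γ h.iγ)
        (Eventually.of_forall fun x => by simp [dev])]
      linarith
    nlinarith [mul_pos hκ0 hρ0]

lemma fatou_real {μ : Measure (ℝ × ℝ)} {f : ℕ → ℝ × ℝ → ℝ} {g : ℝ × ℝ → ℝ} {b : ℝ}
    (h1 : ∀ k, Integrable (f k) μ) (h2 : ∀ k x, 0 ≤ f k x) (h3 : Integrable g μ)
    (h4 : ∀ᵐ x ∂μ, Tendsto (fun k => f k x) atTop (𝓝 (g x)))
    (h5 : ∀ᶠ k in atTop, ∫ x, f k x ∂μ ≤ b) : ∫ x, g x ∂μ ≤ b := by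
  obtain ⟨k, hk⟩ := h5.exists
  rw [← ENNReal.ofReal_le_ofReal_iff ((integral_nonneg (h2 k)).trans hk),
    ofReal_integral_eq_lintegral_ofReal h3 (h4.mono fun x hx => ge_of_tendsto' hx fun k => h2 k x)]
  refine le_trans (lintegral_congr_ae (h4.mono fun x hx =>
    ((ENNReal.continuous_ofReal.tendsto _).comp hx).liminf_eq.symm)).le
    ((lintegral_liminf_le' fun k => (h1 k).aemeasurable.ennreal_ofReal).trans
      (liminf_le_of_frequently_le' (h5.mono fun k hk => ?_).frequently))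
  rw [← ofReal_integral_eq_lintegral_ofReal (h1 k) (Eventually.of_forall (h2 k))]
  exact ENNReal.ofReal_le_ofReal hk

theorem Plane.main (h : Plane D α β γ Q O) (hQ : 0 < Q) {K : Set (ℝ × ℝ)} {C : ℝ}
    {χ χ₁ χ₂ χ₁₁ χ₁₂ χ₂₂ : ℝ × ℝ → ℝ} (hT : Test K C χ χ₁ χ₂ χ₁₁ χ₁₂ χ₂₂) {B B' : Set (ℝ × ℝ)}
    (hB : IsCompact B) (hc : Convex ℝ B) (hKB : K ⊆ B) (hBD : B ⊆ D) (hB' : IsOpen B')
    (hfin : volume B' ≠ ⊤) (hBB : B ⊆ B') {r δ : ℝ} (hδ : 0 < δ) (hδr : δ ≤ r)
    (h1 : K ⊆ Icc (-r) r ×ˢ Icc (-r) r)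
    (h2 : ∀ s ∈ Icc (-δ) δ, ∀ t ∈ Icc (-r) r, (s, t) ∈ B ∧ (t, s) ∈ B) :
    Q * ((∫ x in K, χ x * (α x + γ x)) - 2 * Q * ∫ x in K, χ x) ≤
      2 * C * ((1 + r / δ) * ∫ x in B', dev α β γ Q 0 Q x) ^ 2 := by
  obtain ⟨g₁, g₂, hg⟩ := h.pots
  have hK := hT.cpt
  have hχ : Continuous χ := continuous_iff_continuousAt.mpr fun x => (hT.d x).continuousAt
  have hC : 0 ≤ C := (abs_nonneg _).trans (hT.bd 0).1
  have hδ' : 0 ≤ 1 + r / δ := add_nonneg zero_le_one (div_nonneg (hδ.le.trans hδr) hδ.le)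
  obtain ⟨J, hJ⟩ : ∃ J, J = ((1 + r / δ) * ∫ x in B', dev α β γ Q 0 Q x) ^ 2 := ⟨_, rfl⟩
  have hX : 0 ≤ ∫ x in K, χ x := integral_nonneg hT.nonneg
  have hind : ∀ f : ℝ × ℝ → ℝ, Continuous f → IntegrableOn (fun x => χ x * f x) K :=
    fun f hf => (hχ.mul hf).continuousOn.integrableOn_compact hK
  have hlim := limsup_lintegral_le_of_compact ENNReal.ofReal_ne_top
    (fun U hU hUD => h.limsup_jac hU hUD) hχ hT.nonneg hK (hKB.trans hBD) fun x hx =>
      (hT.zero x hx).1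
  rw [← ofReal_integral_eq_lintegral_ofReal (hχ.integrable_of_hasCompactSupport
    (HasCompactSupport.intro hK fun x hx => (hT.zero x hx).1)) (Eventually.of_forall hT.nonneg),
    ← setIntegral_eq_integral_of_forall_compl_eq_zero fun x hx => (hT.zero x hx).1,
    ← ENNReal.ofReal_mul (sq_nonneg Q)] at hlim
  rw [← hJ, ← le_div_iff₀' hQ, sub_le_iff_le_add]
  refine le_of_forall_pos_le_add fun η hη => ?_
  obtain ⟨M, hM⟩ := hK.exists_bound_of_continuousOn hχ.continuousOn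
  refine fatou_real (f := fun k x => χ x * (mol (ker k) α x + mol (ker k) γ x))
    (fun k => hind _ ((ker_cont k h.iα).add (ker_cont k h.iγ)))
    (fun k x => mul_nonneg (hT.nonneg x) (by
      have e1 := h.mpsd k x (1, 0)
      have e2 := h.mpsd k x (0, 1)
      simp only at e1 e2
      linarith))
    ((h.iα.add h.iγ).integrableOn.bdd_mul hχ.aestronglyMeasurable
      ((ae_restrict_mem hK.measurableSet).mono hM))
    (ae_restrict_of_ae (((mol_ae h.iα).and (mol_ae h.iγ)).mono fun x hx =>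
      (hx.1.add hx.2).const_mul _)) ?_
  filter_upwards [dom_ev h.op hB hBD, dom_ev hB' hB hBB, eventually_lt_of_limsup_lt
    (hlim.trans_lt ((ENNReal.ofReal_lt_ofReal_iff (by positivity)).mpr
      (lt_add_of_pos_right _ (mul_pos hQ hη))))] with k e1 e2 e3
  obtain ⟨F, h3, h4, h5⟩ := h.grad hg Q 0 Q hB hc e1 hB'.measurableSet hfin fun x hx =>
    interior_subset (s := {x | closedBall x (eps k) ⊆ B'}) (e2 hx)
  obtain ⟨c₁, h6⟩ := h3.cross hδ hδr hK hKB h1 h2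
  obtain ⟨c₂, h7⟩ := h4.cross hδ hδr hK hKB h1 h2
  have h8 : ((1 + r / δ) * ∫ x, F x) ^ 2 ≤ J := by
    have : 0 ≤ ∫ x, F x := integral_nonneg h3.maj.nonneg
    rw [hJ]
    gcongr
  have h9 := hT.null (fun x hx => (h3.der x (hKB hx)).sub_const c₁)
    (fun x hx => (h4.der x (hKB hx)).sub_const c₂)
    (fun x _ => (mol_deriv k h.iβ x).sub_const 0)
    (fun x hx => h.c₂.mol h.iβ h.iγ k (e1 (hKB hx)) ▸ (mol_deriv k h.iγ x).sub_const Q)
    h3.ca.continuousOn (mol_cont (pd_cont k _) (pd_cs k _) h.iβ).continuousOn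
  have ca := ker_cont k h.iα
  have cb := ker_cont k h.iβ
  have cc := ker_cont k h.iγ
  have h10 : ∫ x in K, χ x * (mol (ker k) α x * mol (ker k) γ x - mol (ker k) β x ^ 2) ≤
      Q ^ 2 * (∫ x in K, χ x) + Q * η := by
    have hd : ∀ x, 0 ≤ mol (ker k) α x * mol (ker k) γ x - mol (ker k) β x ^ 2 := fun x => by
      have := discrim_le_zero (a := mol (ker k) α x) (b := 2 * mol (ker k) β x)
        (c := mol (ker k) γ x) fun t => by simpa [sq] using h.mpsd k x (t, 1)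
      rw [discrim] at this
      linarith
    rw [← ENNReal.ofReal_le_ofReal_iff (by positivity), ofReal_integral_eq_lintegral_ofReal
      (hind _ (by fun_prop)) (Eventually.of_forall fun x => mul_nonneg (hT.nonneg x) (hd x))]
    refine (setLIntegral_le_lintegral _ _).trans (le_trans (le_of_eq ?_) e3.le)
    rw [jac, lintegral_withDensity_eq_lintegral_mul _ (by fun_prop) (by fun_prop)]
    exact lintegral_congr fun x => by rw [ENNReal.ofReal_mul (hT.nonneg x), mul_comm]; rfl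
  have h11 := int_lin (F := fun x => χ x * ((mol (ker k) α x - Q) * (mol (ker k) γ x - Q) -
      (mol (ker k) β x - 0) ^ 2)) 1 (-Q) (Q ^ 2)
    (hind (fun x => mol (ker k) α x * mol (ker k) γ x - mol (ker k) β x ^ 2) (by fun_prop))
    (hind (fun x => mol (ker k) α x + mol (ker k) γ x) (by fun_prop))
    (hχ.continuousOn.integrableOn_compact hK) (Eventually.of_forall fun x => by ring)
  rw [h11] at h9
  have h12 : 2 * C * J / Q * Q = 2 * C * J := div_mul_cancel₀ _ hQ.ne'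
  refine le_of_mul_le_mul_left ?_ hQ
  nlinarith [mul_le_mul_of_nonneg_left (add_le_add (h6.trans h8) (h7.trans h8)) hC]

end Pool.Agent.Lib.MP_8daebb_an.H16
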