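import Pool.Agent.Lib.MP_8daebb_an.H16.Ident
import Pool.Agent.Lib.MP_8daebb_an.H16.Plane

/-! The planar inequality for polynomial weights on discs. -/

open MeasureTheory Metric Filter Topology Set

namespace Pool.Agent.Lib.MP_8daebb_an.H16

/-- The squared Euclidean norm. -/
def q2 (x : ℝ × ℝ) : ℝ := x.1 ^ 2 + x.2 ^ 2

@[fun_prop] lemma q2_cont : Continuous q2 := by unfold q2; fun_prop

lemma q2_conv : ConvexOn ℝ univ q2 := ⟨convex_univ, fun x _ y _ s t hs ht hst => by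
  obtain rfl : t = 1 - s := by linarith
  simp only [q2, Prod.fst_add, Prod.snd_add, Prod.smul_fst, Prod.smul_snd, smul_eq_mul]
  nlinarith [mul_nonneg (mul_nonneg hs ht) (sq_nonneg (x.1 - y.1)),
    mul_nonneg (mul_nonneg hs ht) (sq_nonneg (x.2 - y.2))]⟩

lemma disc_conv (a : ℝ) : Convex ℝ {x | q2 x < a} := by simpa using q2_conv.convex_lt a

lemma cd_conv (a : ℝ) : Convex ℝ {x | q2 x ≤ a} := by simpa using q2_conv.convex_le a

lemma disc_open (a : ℝ) : IsOpen {x | q2 x < a} := isOpen_lt q2_cont continuous_const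

lemma cd_sub {r : ℝ} (hr : 0 ≤ r) : {x | q2 x ≤ r ^ 2} ⊆ Icc (-r) r ×ˢ Icc (-r) r := fun x hx =>
  have h : x.1 ^ 2 + x.2 ^ 2 ≤ r ^ 2 := hx
  ⟨abs_le_of_sq_le_sq' (by nlinarith [sq_nonneg x.2]) hr,
    abs_le_of_sq_le_sq' (by nlinarith [sq_nonneg x.1]) hr⟩

lemma cd_cpt (a : ℝ) : IsCompact {x | q2 x ≤ a} :=
  (isCompact_Icc.prod isCompact_Icc).of_isClosed_subset (isClosed_le q2_cont continuous_const)
    (Subset.trans (fun x (hx : q2 x ≤ a) => show q2 x ≤ √a ^ 2 from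
      hx.trans ((le_max_left a 0).trans Real.sq_sqrt'.ge)) (cd_sub (Real.sqrt_nonneg a)))

lemma disc_fin (a : ℝ) : volume {x | q2 x < a} ≠ ⊤ :=
  (lt_of_le_of_lt (measure_mono fun x (hx : q2 x < a) => hx.le) (cd_cpt a).measure_lt_top).ne

lemma wd (k : ℕ) (a : ℝ) (x : ℝ × ℝ) : HasFDerivAt (fun x => pp (k + 2) (a - q2 x))
    (lf (-2 * (k + 2) * pp (k + 1) (a - q2 x) * x.1) (-2 * (k + 2) * pp (k + 1) (a - q2 x) * x.2))
    x :=
  ((pp_deriv k _).comp_hasFDerivAt x (((hasFDerivAt_fst.pow 2).add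
    (hasFDerivAt_snd.pow 2)).const_sub a)).congr_fderiv (by ext <;> simp [q2] <;> ring)

lemma test_disc {a : ℝ} (ha : 0 ≤ a) : Test {x | q2 x ≤ a} (24 * a ^ 2) (fun x => pp 3 (a - q2 x))
    (fun x => -6 * pp 2 (a - q2 x) * x.1) (fun x => -6 * pp 2 (a - q2 x) * x.2)
    (fun x => 24 * (pp 1 (a - q2 x) * x.1 ^ 2) - 6 * pp 2 (a - q2 x))
    (fun x => 24 * (pp 1 (a - q2 x) * (x.1 * x.2)))
    (fun x => 24 * (pp 1 (a - q2 x) * x.2 ^ 2) - 6 * pp 2 (a - q2 x)) := by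
  refine ⟨cd_cpt a, fun x => (wd 1 a x).congr_fderiv (by congr 1 <;> (push_cast; ring)),
    fun x => (((wd 0 a x).const_mul (-6)).mul hasFDerivAt_fst).congr_fderiv
      (by ext <;> simp <;> ring),
    fun x => (((wd 0 a x).const_mul (-6)).mul hasFDerivAt_snd).congr_fderiv
      (by ext <;> simp <;> ring), by fun_prop, by fun_prop, by fun_prop,
    fun x hx => by simp [pp_zero _ (sub_nonpos.mpr (not_le.mp hx).le)], fun x => ?_,
    fun x => pp_nonneg _ _⟩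
  rcases le_total a (q2 x) with h | h
  · simp [pp_zero _ (sub_nonpos.mpr h), sq_nonneg]
  · simp only [pp_pos _ (sub_nonneg.mpr h), abs_le]
    have h1 := sub_nonneg.mpr h
    have h2 : a - q2 x ≤ a := sub_le_self _ (by unfold q2; positivity)
    have h3 : (a - q2 x) * q2 x ≤ a ^ 2 := by nlinarith
    have h4 : (a - q2 x) ^ 2 ≤ a ^ 2 := by gcongr
    have h5 := mul_nonneg h1 (sq_nonneg x.1)
    have h6 := mul_nonneg h1 (sq_nonneg x.2)
    have h7 := mul_nonneg h1 (sq_nonneg (x.1 - x.2))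
    have h8 := mul_nonneg h1 (sq_nonneg (x.1 + x.2))
    have h9 := sq_nonneg (a - q2 x)
    generalize a - q2 x = u at *
    unfold q2 at h3
    refine ⟨⟨?_, ?_⟩, ⟨?_, ?_⟩, ?_, ?_⟩ <;> nlinarith

lemma w_int (k : ℕ) (a : ℝ) {f : ℝ × ℝ → ℝ} (hf : IntegrableOn f {x | q2 x ≤ a}) :
    Integrable fun x => pp (k + 1) (a - q2 x) * f x := by
  obtain ⟨M, hM⟩ := (cd_cpt a).exists_bound_of_continuousOn
    (f := fun x => pp (k + 1) (a - q2 x)) (by fun_prop)
  refine (integrableOn_iff_integrable_of_support_subset (s := {x | q2 x ≤ a}) fun x hx =>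
    by_contra fun h => hx (by simp [pp_zero _ (sub_nonpos.mpr (not_le.mp h).le)])).mp ?_
  exact Integrable.bdd_mul hf (Continuous.aestronglyMeasurable (by fun_prop))
    ((ae_restrict_mem (cd_cpt a).measurableSet).mono hM)

lemma w_scale {a : ℝ} (ha : 0 < a) :
    ∫ x, pp 3 (a - q2 x) * 1 = a ^ 4 * ∫ x, pp 3 (1 - q2 x) * 1 := by
  have h1 := Measure.integral_comp_smul (volume : Measure (ℝ × ℝ))
    (fun x => pp 3 (a - q2 x) * 1) √a
  have h2 : ∀ x : ℝ × ℝ, pp 3 (a - q2 (√a • x)) * 1 = a ^ 3 * (pp 3 (1 - q2 x) * 1) := fun x => by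
    rw [show a - q2 (√a • x) = a * (1 - q2 x) by
      simp only [q2, Prod.smul_fst, Prod.smul_snd, smul_eq_mul, mul_pow, Real.sq_sqrt ha.le]; ring,
      pp, pp, ← mul_assoc, ← mul_pow, mul_max_of_nonneg _ _ ha.le, mul_zero]
  simp only [h2, integral_const_mul, Module.finrank_prod, Module.finrank_self, Nat.reduceAdd,
    Real.sq_sqrt ha.le, abs_of_pos (inv_pos.mpr ha), smul_eq_mul] at h1
  rw [eq_inv_mul_iff_mul_eq₀ ha.ne'] at h1
  rw [← h1]
  ring

variable {α β γ : ℝ × ℝ → ℝ} {Q A : ℝ} {O : ℕ → Set (ℝ × ℝ)}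

theorem Plane.disc (h : Plane {x | q2 x < A} α β γ Q O) (hQ : 0 < Q) {a τ : ℝ} (ha : 0 < a)
    (hτ : 0 < τ) (hτ1 : τ ≤ 1) (hA : a * (1 + τ) < A) :
    Q * ((∫ x, pp 3 (a - q2 x) * (α x + γ x)) - 2 * Q * ∫ x, pp 3 (a - q2 x) * 1) ≤
      432 * 4 ^ 6 * (∫ x, pp 3 (a * (1 + 3 / 4 * τ) - q2 x) * dev α β γ Q 0 Q x) ^ 2 /
        (τ ^ 8 * a ^ 4) := by
  obtain ⟨r, hr, rfl⟩ : ∃ r, 0 < r ∧ a = r ^ 2 :=
    ⟨√a, Real.sqrt_pos.mpr ha, (Real.sq_sqrt ha.le).symm⟩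
  have hτa := mul_pos ha hτ
  have h1 := h.main hQ (test_disc ha.le) (cd_cpt (r ^ 2 * (1 + τ / 4))) (cd_conv _)
    (fun x (hx : q2 x ≤ _) => show q2 x ≤ _ by linarith)
    (fun x (hx : q2 x ≤ _) => show q2 x < _ by linarith) (disc_open (r ^ 2 * (1 + τ / 2)))
    (disc_fin _) (fun x (hx : q2 x ≤ _) => show q2 x < _ by linarith)
    (δ := τ * r / 2) (by positivity) (by nlinarith) (cd_sub hr.le) fun s hs t ht => by
      have e1 := sq_le_sq' hs.1 hs.2
      have e2 := sq_le_sq' ht.1 ht.2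
      have e3 := mul_le_mul_of_nonneg_left hτ1 hτa.le
      exact ⟨show s ^ 2 + t ^ 2 ≤ _ by nlinarith, show t ^ 2 + s ^ 2 ≤ _ by nlinarith⟩
  rw [setIntegral_eq_integral_of_forall_compl_eq_zero fun x hx => by
    simp [((test_disc ha.le).zero x hx).1], setIntegral_eq_integral_of_forall_compl_eq_zero
      fun x hx => ((test_disc ha.le).zero x hx).1] at h1
  have hd : ∀ x, 0 ≤ dev α β γ Q 0 Q x := fun x => by unfold dev; positivity
  have h2 : (r ^ 2 * τ / 4) ^ 3 * ∫ x in {x | q2 x < r ^ 2 * (1 + τ / 2)}, dev α β γ Q 0 Q x ≤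
      ∫ x, pp 3 (r ^ 2 * (1 + 3 / 4 * τ) - q2 x) * dev α β γ Q 0 Q x := by
    have hi := w_int 2 (r ^ 2 * (1 + 3 / 4 * τ)) (h.dev_int Q 0 Q (cd_cpt _).measure_lt_top.ne)
    rw [← integral_const_mul]
    refine (setIntegral_mono_on ((h.dev_int Q 0 Q (disc_fin _)).const_mul _) hi.integrableOn
      (disc_open _).measurableSet fun x hx => mul_le_mul_of_nonneg_right ?_ (hd x)).trans
      (setIntegral_le_integral hi (Eventually.of_forall fun x =>
        mul_nonneg (pp_nonneg _ _) (hd x)))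
    rw [← pp_pos 3 (by positivity)]
    exact pp_mono _ (by linarith [show q2 x < _ from hx])
  have h3 : 0 ≤ ∫ x in {x | q2 x < r ^ 2 * (1 + τ / 2)}, dev α β γ Q 0 Q x := integral_nonneg hd
  have h4 : 1 + r / (τ * r / 2) ≤ 3 / τ := by
    rw [show r / (τ * r / 2) = 2 / τ by field_simp, ← sub_nonneg,
      show 3 / τ - (1 + 2 / τ) = (1 - τ) / τ by field_simp; ring]
    exact div_nonneg (by linarith) hτ.le
  simp only [mul_one]
  refine h1.trans (le_trans ?_ (div_le_div_of_nonneg_right (mul_le_mul_of_nonneg_left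
    (pow_le_pow_left₀ (by positivity) h2 2) (by positivity)) (by positivity)))
  refine le_trans (mul_le_mul_of_nonneg_left (pow_le_pow_left₀ (by positivity)
    (mul_le_mul_of_nonneg_right h4 h3) 2) (by positivity)) (le_of_eq ?_)
  field_simp
  ring

end Pool.Agent.Lib.MP_8daebb_an.H16
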