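import Pool.Agent.Lib.MP_8daebb_an.Fiber

/-! The projected stress tensor of a two-dimensional varifold in a cylinder. -/

open MeasureTheory Set
open scoped RealInnerProductSpace

namespace Pool.Agent.Lib.MP_8daebb_an

variable {E : Type*} [NormedAddCommGroup E] [InnerProductSpace ℝ E] [FiniteDimensional ℝ E]
  [MeasurableSpace E] [BorelSpace E]

/-- The matrix function `m` is integrable and is the density, with respect to Lebesgue measure on
the plane, of the projection of the matrix measure `⟪P ι e_a, ι e_b⟫ dV(x, P)` restricted to the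
cylinder of radius `R` about `x₀`. -/
def IsProjectedStress (V : Measure (E × (E →L[ℝ] E))) (ι : EuclideanSpace ℝ (Fin 2) →ₗᵢ[ℝ] E)
    (x₀ : E) (R : ℝ) (m : EuclideanSpace ℝ (Fin 2) → Matrix (Fin 2) (Fin 2) ℝ) : Prop :=
  ∀ a b, Integrable (fun p => m p a b) ∧
    ∀ φ : EuclideanSpace ℝ (Fin 2) → ℝ, Measurable φ → (∃ C, ∀ p, |φ p| ≤ C) →
      ∫ z in cyl ι x₀ R ×ˢ univ, φ (pr ι (z.1 - x₀)) *
        ⟪z.2 (ι (EuclideanSpace.single a 1)), ι (EuclideanSpace.single b 1)⟫ ∂V =
      ∫ p, φ p * m p a b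

end Pool.Agent.Lib.MP_8daebb_an
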