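import Pool.Agent.Lib.MP_8daebb_an.H16.Zero
import Pool.Agent.Lib.MP_8daebb_an.H16.Stress
import Pool.Agent.Lib.MP_8daebb_an.Cases
import Pool.Agent.Lib.MP_8daebb_an.Setting

/-! Unique continuation for surfaces whose projected stress has bounded determinant. -/

set_option linter.unusedSectionVars false

open MeasureTheory Metric Filter Topology Set
open scoped RealInnerProductSpace

namespace Pool.Agent.Lib.MP_8daebb_an.H16

/-- Coordinates on the Euclidean plane. -/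
noncomputable def eqv : EuclideanSpace ℝ (Fin 2) ≃ᵐ ℝ × ℝ :=
  (MeasurableEquiv.toLp 2 (Fin 2 → ℝ)).symm.trans MeasurableEquiv.finTwoArrow

lemma eqv_apply (p : EuclideanSpace ℝ (Fin 2)) : eqv p = (p 0, p 1) := rfl

lemma eqv_mp : MeasurePreserving eqv :=
  (volume_preserving_finTwoArrow ℝ).comp
    (EuclideanSpace.volume_preserving_symm_measurableEquiv_toLp (Fin 2))

lemma eqv_cont : Continuous eqv := by
  change Continuous fun p : EuclideanSpace ℝ (Fin 2) => (p 0, p 1)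
  fun_prop

lemma eqv_symm_cont : Continuous eqv.symm := by
  change Continuous fun x : ℝ × ℝ => (WithLp.toLp 2 ![x.1, x.2] : EuclideanSpace ℝ (Fin 2))
  fun_prop

lemma q2_eqv (p q : EuclideanSpace ℝ (Fin 2)) : q2 (eqv p - eqv q) = ‖p - q‖ ^ 2 := by
  rw [EuclideanSpace.real_norm_sq_eq, Fin.sum_univ_two]; rfl

lemma q2_eqv' (p : EuclideanSpace ℝ (Fin 2)) : q2 (eqv p) = ‖p‖ ^ 2 := by
  rw [EuclideanSpace.real_norm_sq_eq, Fin.sum_univ_two]; rfl

variable {E : Type*} [NormedAddCommGroup E] [InnerProductSpace ℝ E] [FiniteDimensional ℝ E]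
  [MeasurableSpace E] [BorelSpace E] {ι : EuclideanSpace ℝ (Fin 2) →ₗᵢ[ℝ] E} {x₀ : E}
  {U : Set E} {V : Measure (E × (E →L[ℝ] E))} {R Q : ℝ}
  {m : EuclideanSpace ℝ (Fin 2) → Matrix (Fin 2) (Fin 2) ℝ}

lemma rep_of_stress (h : IsProjectedStress V ι x₀ R m) (a b : Fin 2) :
    Rep (V.restrict (cyl ι x₀ R ×ˢ univ)) ι x₀ (en ι a b) fun x => m (eqv.symm x) a b :=
  ⟨en_cont ι a b, (eqv_mp.symm.integrable_comp_emb eqv.symm.measurableEmbedding).mpr (h a b).1,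
    fun φ h1 ⟨C, h2⟩ => ((h a b).2 _ (h1.comp eqv.measurable) ⟨C, fun _ => h2 _⟩).trans (by
      rw [← eqv_mp.integral_comp']; simp)⟩

theorem flat_of_stress (hU : IsOpen U) (hV : IsStationaryVarifold 2 U V)
    (h1 : ∀ᵐ x ∂V.fst, ∃ θ, 1 ≤ θ ∧ HasDensity 2 V.fst x θ) (hQ : 0 < Q)
    (hd : HasDensity 2 V.fst x₀ Q) (hR : 0 < R) (hRU : closedBall x₀ (2 * R) ⊆ U)
    (hc : ∀ x ∈ V.fst.support, x ∈ cyl ι x₀ R → ‖nr ι (x - x₀)‖ ≤ ‖pr ι (x - x₀)‖)
    (hthin : ∀ η > 0, ∀ᶠ r in 𝓝[>] (0 : ℝ),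
      V.fst.real ({x | nr ι (x - x₀) ≠ 0} ∩ ball x₀ r) ≤ η * r ^ 2)
    (hm : IsProjectedStress V ι x₀ R m) (hdet : ∀ᵐ p, (m p).det ≤ Q ^ 2)
    {O : ℕ → Set (EuclideanSpace ℝ (Fin 2))} (hO : ∀ i, IsOpen (O i) ∧ IsPreconnected (O i) ∧
      O i ⊆ ball 0 R ∧ ∀ᵐ p, p ∈ O i → (m p).trace = 0)
    (hs : ∀ p ∈ ball (0 : EuclideanSpace ℝ (Fin 2)) R,
      (∃ C, ∃ᶠ ρ in 𝓝[>] 0, ∫ q in ball p ρ, (m q).trace ≤ C * ρ ^ 2) ∨
      ((∀ η > 0, ∃ᶠ ρ in 𝓝[>] 0, ∫ q in ball p ρ, (m q).trace ≤ η * ρ) ∧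
        ∃ i, p ∈ closure (O i))) :
    ∃ r > 0, V.fst.support ∩ ball x₀ r = (range fun p => x₀ + ι p) ∩ ball x₀ r := by
  have hcore := core_of_cone hV hRU hc
  have hfin := hcore.fin
  have hω := omega_pos 2
  have hco := isOpen_cyl ι x₀ R
  have hcm : MeasurableSet (cyl ι x₀ R ×ˢ (univ : Set (E →L[ℝ] E))) :=
    hco.measurableSet.prod MeasurableSet.univ
  have hcU : cyl ι x₀ R ⊆ U := (cyl_subset ι x₀ R).trans (ball_subset_closedBall.trans hRU)
  have hres : ∀ S, IsOpen S → S ⊆ cyl ι x₀ R →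
      V.restrict (cyl ι x₀ R ×ˢ univ) (Prod.fst ⁻¹' S) = V.fst S := fun S h2 h3 => by
    rw [Measure.fst_apply h2.measurableSet]
    exact Measure.restrict_eq_self _ fun z hz => mk_mem_prod (h3 hz) (mem_univ z.2)
  have hsupp : ∀ᵐ z ∂V.restrict (cyl ι x₀ R ×ˢ univ), z.1 ∈ V.fst.support ∧ z.1 ∈ cyl ι x₀ R := by
    filter_upwards [ae_restrict_of_ae (ae_of_ae_map measurable_fst.aemeasurable
      (Measure.support_mem_ae (μ := V.fst))), ae_restrict_mem hcm] with z h2 h3 using ⟨h2, h3.1⟩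
  have hlow : ∀ x ∈ V.fst.support, x ∈ cyl ι x₀ R → ∀ᶠ r in 𝓝[>] (0 : ℝ), omega 2 * r ^ 2 ≤
      (V.restrict (cyl ι x₀ R ×ˢ univ)).real (Prod.fst ⁻¹' ball x r) := fun x hx hx' => by
    filter_upwards [(eventually_closedBall_subset (hco.mem_nhds hx')).filter_mono
      nhdsWithin_le_nhds, self_mem_nhdsWithin] with r h2 hr
    rw [Measure.real, hres _ isOpen_ball (ball_subset_closedBall.trans h2)]
    exact hV.mass_ge_of_support h1 hx hr (h2.trans hcU) hU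
  have r00 := rep_of_stress hm 0 0
  have r01 := rep_of_stress hm 0 1
  have r10 := rep_of_stress hm 1 0
  have r11 := rep_of_stress hm 1 1
  have hae : ∀ {P : EuclideanSpace ℝ (Fin 2) → Prop}, (∀ᵐ p, P p) → ∀ᵐ x, P (eqv.symm x) :=
    fun h => eqv_mp.symm.quasiMeasurePreserving.ae h
  have htr : ∀ᵐ x, 0 ≤ m (eqv.symm x) 1 1 + m (eqv.symm x) 0 0 :=
    ((Rep.lin hcore r11 r00 r00 1 1 0).nonneg hcore fun P hP => by
      linarith [quad_nonneg (ι := ι) hP 1 0, quad_nonneg (ι := ι) hP 0 1]).mono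
      fun x hx => by linarith
  have hball : ∀ p ρ, 0 < ρ → ∫ x in closedBall (eqv p) (1 / 2 * ρ),
      (m (eqv.symm x) 1 1 + m (eqv.symm x) 0 0) ≤ ∫ q in ball p ρ, (m q).trace := fun p ρ hρ => by
    rw [← eqv_mp.symm.setIntegral_preimage_emb eqv.symm.measurableEmbedding]
    simp only [Matrix.trace_fin_two, add_comm (m _ 0 0)]
    refine setIntegral_mono_set (r11.2.1.add r00.2.1).integrableOn (ae_restrict_of_ae htr)
      (LE.le.eventuallyLE fun x hx => ?_)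
    obtain ⟨q, rfl⟩ := eqv.surjective x
    rw [mem_preimage, eqv.symm_apply_apply, mem_ball_iff_norm]
    rw [mem_closedBall_iff_norm, norm_prod_le_iff] at hx
    refine lt_of_pow_lt_pow_left₀ 2 hρ.le ?_
    rw [← q2_eqv, q2]
    nlinarith [sq_le_sq' (abs_le.mp hx.1).1 (abs_le.mp hx.1).2,
      sq_le_sq' (abs_le.mp hx.2).1 (abs_le.mp hx.2).2]
  have hD : Data (V.restrict (cyl ι x₀ R ×ˢ univ)) ι x₀ R Q (omega 2)
      (fun x => m (eqv.symm x) 1 1) (fun x => -m (eqv.symm x) 0 1) (fun x => m (eqv.symm x) 0 0)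
      fun i => eqv '' O i := by
    refine ⟨hcore, hR, hQ, hω, r11, by simpa using Rep.lin hcore r01 r01 r01 (-1) 0 0, r00, ?_,
      fun i => ?_, fun x hx => ?_, fun u hu => ?_, hsupp.mono fun z hz => hlow _ hz.1 hz.2,
      fun η hη => ?_⟩
    · filter_upwards [hae hdet, (Rep.lin hcore r01 r10 r10 1 (-1) 0).nonneg hcore fun P hP => by
        linarith [en_symm (ι := ι) hP], (Rep.lin hcore r01 r10 r10 (-1) 1 0).nonneg hcore
        fun P hP => by linarith [en_symm (ι := ι) hP]] with x h2 h3 h4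
      rw [Matrix.det_fin_two, show m (eqv.symm x) 1 0 = m (eqv.symm x) 0 1 by linarith] at h2
      linarith
    · obtain ⟨h2, h3, h4, h5⟩ := hO i
      refine ⟨eqv.image_eq_preimage_symm _ ▸ h2.preimage eqv_symm_cont,
        h3.image _ eqv_cont.continuousOn, ?_, (hae h5).mono fun x hx hx' => ?_⟩
      · rintro _ ⟨p, hp, rfl⟩
        rw [mem_ofPred_eq, q2_eqv']
        have := mem_ball_zero_iff.mp (h4 hp)
        gcongr
      · rw [add_comm, ← Matrix.trace_fin_two]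
        exact hx (by rwa [eqv.image_eq_preimage_symm] at hx')
    · obtain ⟨p, rfl⟩ := eqv.surjective x
      rw [q2_eqv'] at hx
      have hs2 := scale_lim (c := 1 / 2) (by norm_num)
      refine (hs p (mem_ball_zero_iff.mpr (lt_of_pow_lt_pow_left₀ 2 hR.le hx))).imp
        (fun ⟨C, h2⟩ => ⟨4 * C, hs2.frequently ((h2.and_eventually self_mem_nhdsWithin).mono
          fun ρ h3 => ((hball p ρ h3.2).trans h3.1).trans_eq (by ring))⟩)
        fun ⟨h2, i, h3⟩ => ⟨fun η hη => hs2.frequently (((h2 (η / 2) (half_pos hη)).and_eventually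
          self_mem_nhdsWithin).mono fun ρ h3 => ((hball p ρ h3.2).trans h3.1).trans_eq (by ring)),
          i, image_closure_subset_closure_image eqv_cont ⟨p, h3, rfl⟩⟩
    · obtain ⟨r, hr, rfl⟩ : ∃ r, 0 < r ∧ u = r ^ 2 :=
        ⟨√u, Real.sqrt_pos.mpr hu.1, (Real.sq_sqrt hu.1.le).symm⟩
      have hrR : r < R := lt_of_pow_lt_pow_left₀ 2 hR.le hu.2
      have hrU : closedBall x₀ r ⊆ U := (closedBall_subset_closedBall (by linarith)).trans hRU
      rw [← eqv_mp.measure_preimage_equiv, show eqv ⁻¹' {x | q2 x < r ^ 2} = ball 0 r by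
        ext p; simp [q2_eqv', abs_of_pos hr, sq_lt_sq], vol_ball 2 0 hr,
        ← ENNReal.ofReal_mul hQ.le, ← mul_assoc]
      refine (ENNReal.ofReal_le_of_le_toReal (hV.mass_ge_of_density hd hr hrU hU)).trans ?_
      rw [← hres _ isOpen_ball ((ball_subset_ball hrR.le).trans (ball_subset_cyl ι x₀ R))]
      refine measure_mono fun z hz => ?_
      have := (norm_pr_le ι _).trans_lt (mem_ball_iff_norm.mp hz)
      rw [mem_ofPred_eq, sv, norm_hz]
      gcongr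
    · have ht : Tendsto (fun a : ℝ => 2 * √a) (𝓝[>] 0) (𝓝[>] 0) := (scale_lim two_pos).comp
        (tendsto_nhdsWithin_iff.mpr ⟨(Real.continuous_sqrt.tendsto' 0 0 Real.sqrt_zero).mono_left
          nhdsWithin_le_nhds, eventually_mem_nhdsWithin.mono fun a ha => Real.sqrt_pos.mpr ha⟩)
      filter_upwards [ht.eventually (hthin (η / 4) (by positivity)), self_mem_nhdsWithin,
        ht.eventually (Ioo_mem_nhdsGT hR)] with a h2 ha h3
      rw [mul_pow, Real.sq_sqrt (le_of_lt ha), Measure.real, ← hres _ (IsOpen.inter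
        (isOpen_ne_fun (by fun_prop) continuous_const) isOpen_ball) (inter_subset_right.trans
          ((ball_subset_ball h3.2.le).trans (ball_subset_cyl ι x₀ R)))] at h2
      refine le_trans (ENNReal.toReal_mono (measure_ne_top _ _) (measure_mono_ae ?_))
        (h2.trans_eq (by ring))
      filter_upwards [hsupp] with z hz h4
      refine ⟨fun h5 => h4.2 (by simp [fv, h5]), mem_ball_iff_norm.mpr ?_⟩
      have h5 : ‖pr ι (z.1 - x₀)‖ < √a := Real.lt_sqrt_of_sq_lt (by rw [← norm_hz]; exact h4.1)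
      linarith [norm_le_pr_add_nr ι (z.1 - x₀), hc _ hz.1 hz.2]
  obtain ⟨a, ha, h0⟩ := hD.zero
  have hfull := hD.full ha h0
  obtain ⟨r, hr, hra⟩ : ∃ r, 0 < r ∧ r ^ 2 = a / 2 :=
    ⟨√(a / 2), Real.sqrt_pos.mpr (half_pos ha.1), Real.sq_sqrt (half_pos ha.1).le⟩
  have hrR : r < R := lt_of_pow_lt_pow_left₀ 2 hR.le (by linarith [ha.1, ha.2])
  have hflat : ∀ x ∈ V.fst.support, x ∈ cyl ι x₀ R → ‖pr ι (x - x₀)‖ < r → nr ι (x - x₀) = 0 := by
    intro x hx hx' h2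
    have h3 := hcore.sup hR (half_pos ha.1) one_pos le_rfl (by linarith [ha.2])
      (by rw [← hra]; gcongr) (hlow x hx hx') hω
    rw [show a / 2 * (1 + 1) = a by ring, h0, mul_zero, zero_div] at h3
    exact norm_eq_zero.mp (pow_eq_zero_iff two_ne_zero |>.mp (le_antisymm h3 (sq_nonneg _)))
  refine ⟨r, hr, Subset.antisymm (fun x hx => ⟨⟨pr ι (x - x₀), ?_⟩, hx.2⟩) ?_⟩
  · have := iota_pr_add_nr ι (x - x₀)
    rw [hflat x hx.1 (ball_subset_cyl ι x₀ R (ball_subset_ball hrR.le hx.2))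
      ((norm_pr_le ι _).trans_lt (mem_ball_iff_norm.mp hx.2)), add_zero] at this
    simp only [this, add_sub_cancel]
  rintro _ ⟨⟨p, rfl⟩, hp⟩
  refine ⟨(Measure.mem_support_iff_forall _).mpr fun N hN => ?_, hp⟩
  obtain ⟨ρ, hρ, h2⟩ := Metric.mem_nhds_iff.mp (inter_mem hN (isOpen_ball.mem_nhds hp))
  have h3 : ∀ q ∈ ball p ρ, x₀ + ι q ∈ ball (x₀ + ι p) ρ := fun q hq => by simpa using hq
  have h4 : ∀ q ∈ ball p ρ, ‖q‖ < r := fun q hq => by simpa using (h2 (h3 q hq)).2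
  refine pos_iff_ne_zero.mpr fun h5 => ?_
  have h6 := (hm 0 0).2 _ (measurable_one.indicator (measurableSet_ball (x := p) (ε := ρ)))
    ⟨1, fun x => by by_cases h : x ∈ ball p ρ <;> simp [h]⟩
  rw [integral_eq_zero_of_ae, integral_congr_ae (g := (ball p ρ).indicator fun _ => Q),
    integral_indicator_const _ measurableSet_ball] at h6
  · exact (smul_pos (ENNReal.toReal_pos (measure_ball_pos volume p hρ).ne'
      measure_ball_lt_top.ne) hQ).ne h6
  · filter_upwards [eqv_mp.quasiMeasurePreserving.ae hfull] with q hq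
    by_cases h7 : q ∈ ball p ρ
    · have h8 := h4 q h7
      simpa [h7] using hq (by rw [q2_eqv', ← hra]; gcongr)
    · simp [h7]
  · filter_upwards [hsupp, ae_restrict_of_ae (ae_of_ae_map measurable_fst.aemeasurable
      (measure_eq_zero_iff_ae_notMem.mp h5))] with z hz h7
    refine mul_eq_zero_of_left (indicator_of_notMem (fun h8 => h7 (h2 ?_).1) _) _
    have := iota_pr_add_nr ι (z.1 - x₀)
    rw [hflat _ hz.1 hz.2 (h4 _ h8), add_zero] at this
    simpa only [this, add_sub_cancel] using h3 _ h8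

theorem flat_of_stress' (hU : IsOpen U) (hV : IsStationaryVarifold 2 U V)
    (h1 : ∀ᵐ x ∂V.fst, ∃ θ, 1 ≤ θ ∧ HasDensity 2 V.fst x θ) (hx₀ : x₀ ∈ U)
    (hx₀s : x₀ ∈ V.fst.support) (hd : HasDensity 2 V.fst x₀ Q)
    (ht : HasFlatTangent 2 V.fst x₀ Q ι) (hbad : DensityCondition 2 V.fst x₀ Q)
    (hflat : ∃ r > 0, ∀ᵐ x ∂V.fst, x ∈ ball x₀ r → HasDensity 2 V.fst x Q →
      x ∈ range fun p => x₀ + ι p)
    (hs : ∃ᶠ R in 𝓝[>] 0, ∃ (m : EuclideanSpace ℝ (Fin 2) → Matrix (Fin 2) (Fin 2) ℝ)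
      (O : ℕ → Set (EuclideanSpace ℝ (Fin 2))), IsProjectedStress V ι x₀ R m ∧
      (∀ᵐ p, (m p).det ≤ Q ^ 2) ∧
      (∀ i, IsOpen (O i) ∧ IsPreconnected (O i) ∧ O i ⊆ ball 0 R ∧
        ∀ᵐ p, p ∈ O i → (m p).trace = 0) ∧
      ∀ p ∈ ball (0 : EuclideanSpace ℝ (Fin 2)) R,
        (∃ C, ∃ᶠ ρ in 𝓝[>] 0, ∫ q in ball p ρ, (m q).trace ≤ C * ρ ^ 2) ∨
        ((∀ η > 0, ∃ᶠ ρ in 𝓝[>] 0, ∫ q in ball p ρ, (m q).trace ≤ η * ρ) ∧
          ∃ i, p ∈ closure (O i))) :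
    ∃ r > 0, V.fst.support ∩ ball x₀ r = (range fun p => x₀ + ι p) ∩ ball x₀ r := by
  have hQ := hV.one_le_density hU h1 hx₀ hx₀s hd
  obtain ⟨r₀, hr₀, hflat⟩ := hflat
  obtain ⟨R₀, hR₀, hh⟩ := (nhdsGT_basis (0 : ℝ)).eventually_iff.mp
    (hV.height hU h1 hx₀ ht one_pos le_rfl)
  have hb := (eventually_closedBall_subset (hU.mem_nhds hx₀)).filter_mono
    (nhdsWithin_le_nhds (s := Ioi 0))
  obtain ⟨R, ⟨m, O, h2, h3, h4, h5⟩, h6, hR⟩ := (hs.and_eventually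
    (((scale_lim two_pos).eventually hb).and (Ioo_mem_nhdsGT hR₀))).exists
  refine flat_of_stress hU hV h1 (by linarith) hd hR.1 h6 (fun x hx hx' => ?_)
    (fun η hη => ?_) h2 h3 h4 h5
  · rcases eq_or_ne x x₀ with rfl | h7
    · simp
    have h8 := mem_ball_iff_norm.mp (cyl_subset ι x₀ R hx')
    have h9 := hh (x := ‖x - x₀‖ / 2) ⟨half_pos (norm_pos_iff.mpr (sub_ne_zero.mpr h7)),
      by linarith [hR.2]⟩ x hx (mem_closedBall_iff_norm.mpr (by linarith))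
    linarith [norm_le_pr_add_nr ι (x - x₀)]
  · filter_upwards [hbad.eventually (gt_mem_nhds hη), hb, Ioo_mem_nhdsGT hr₀] with r h7 h8 hr
    rw [div_lt_iff₀ (pow_pos hr.1 2)] at h7
    refine le_trans (ENNReal.toReal_mono ((measure_mono inter_subset_right).trans_lt
      (hV.ball_lt_top h8)).ne (measure_mono_ae (hflat.mono fun x hx h9 => ⟨fun h10 => ?_, h9.2⟩)))
      h7.le
    obtain ⟨p, rfl⟩ := hx (ball_subset_ball hr.2.le h9.2) h10
    exact h9.1 (by simp [nr_iota])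

end Pool.Agent.Lib.MP_8daebb_an.H16
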