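import Pool.Agent.Lib.MP_8daebb_an.H16.Core

/-! Weighted identities and the mean value inequality for the height. -/

set_option linter.unusedSectionVars false

open MeasureTheory Metric Filter Topology Set
open scoped RealInnerProductSpace

namespace Pool.Agent.Lib.MP_8daebb_an.H16

variable {E : Type*} [NormedAddCommGroup E] [InnerProductSpace ℝ E] [FiniteDimensional ℝ E]
variable (ι : EuclideanSpace ℝ (Fin 2) →ₗᵢ[ℝ] E) (x₀ : E)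

/-- Squared horizontal distance. -/
noncomputable def sv (z : E × (E →L[ℝ] E)) : ℝ := ‖hz ι (z.1 - x₀)‖ ^ 2

/-- Squared height. -/
noncomputable def fv (z : E × (E →L[ℝ] E)) : ℝ := ‖nr ι (z.1 - x₀)‖ ^ 2

/-- The mixed term. -/
noncomputable def cv (z : E × (E →L[ℝ] E)) : ℝ := ⟪hz ι (z.1 - x₀), z.2 (nr ι (z.1 - x₀))⟫

/-- The radial tilt. -/
noncomputable def th (z : E × (E →L[ℝ] E)) : ℝ :=
  ‖hz ι (z.1 - x₀)‖ ^ 2 - ⟪hz ι (z.1 - x₀), z.2 (hz ι (z.1 - x₀))⟫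

@[fun_prop] lemma sv_cont : Continuous (sv ι x₀) := by unfold sv; fun_prop
@[fun_prop] lemma fv_cont : Continuous (fv ι x₀) := by unfold fv; fun_prop
@[fun_prop] lemma cv_cont : Continuous (cv ι x₀) := by unfold cv; fun_prop
@[fun_prop] lemma th_cont : Continuous (th ι x₀) := by unfold th; fun_prop

lemma sv_nonneg (z : E × (E →L[ℝ] E)) : 0 ≤ sv ι x₀ z := sq_nonneg _
lemma fv_nonneg (z : E × (E →L[ℝ] E)) : 0 ≤ fv ι x₀ z := sq_nonneg _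

variable [MeasurableSpace E] [BorelSpace E]

/-- Weighted integrals. -/
noncomputable def Wt (ν : Measure (E × (E →L[ℝ] E))) (k : ℕ) (g : E × (E →L[ℝ] E) → ℝ) (a : ℝ) :
    ℝ := ∫ z, pp k (a - sv ι x₀ z) * g z ∂ν

variable {ι x₀} {ν : Measure (E × (E →L[ℝ] E))} {R a : ℝ}

lemma cut (hR : 0 < R) (ha : a < R ^ 2) (k : ℕ) :
    ∃ r < R, ∀ y, r ≤ ‖pr ι (y - x₀)‖ → pp (k + 1) (a - ‖hz ι (y - x₀)‖ ^ 2) = 0 :=
  ⟨√a, (Real.sqrt_lt' hR).mpr ha, fun y hy => pp_zero _ (by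
    rw [norm_hz, sub_nonpos]; exact (Real.sqrt_le_left (norm_nonneg _)).mp hy)⟩

lemma Core.wint (h : Core ν ι x₀ R) (k : ℕ) (a : ℝ) {g : E × (E →L[ℝ] E) → ℝ}
    (hg : Continuous g) : Integrable (fun z => pp k (a - sv ι x₀ z) * g z) ν := h.int (by fun_prop)

lemma Core.id1 (h : Core ν ι x₀ R) (hR : 0 < R) (ha : a < R ^ 2) (k : ℕ) :
    Wt ι x₀ ν (k + 2) (fun z => tl ι z.2) a = 2 * (k + 2) * Wt ι x₀ ν (k + 1) (cv ι x₀) a := by
  obtain ⟨r, hr, h0⟩ := cut (ι := ι) (x₀ := x₀) hR ha (k + 1)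
  have := h.var ((gr_sq (hz_proj ι) x₀).pp k a) (nr ι) 0 hr h0
  rw [int_lin 1 (-(2 * (k + 2))) 0 (h.wint (k + 2) a (g := fun z => tl ι z.2) (by fun_prop))
    (h.wint (k + 1) a (cv_cont ι x₀)) (integrable_zero _ _ _) (h.car.mono fun z hz => by
      simp only [trc_nr hz.1, inner_smul_left, add_zero, conj_trivial, sv, cv]; ring)] at this
  unfold Wt
  linarith

lemma Core.id2 (h : Core ν ι x₀ R) (hR : 0 < R) (ha : a < R ^ 2) :
    8 * Wt ι x₀ ν 3 (fun _ => 1) a - 6 * a * Wt ι x₀ ν 2 (fun _ => 1) a =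
      Wt ι x₀ ν 3 (fun z => tl ι z.2) a - 6 * Wt ι x₀ ν 2 (th ι x₀) a := by
  obtain ⟨r, hr, h0⟩ := cut (ι := ι) (x₀ := x₀) hR ha 2
  have h1 := h.var ((gr_sq (hz_proj ι) x₀).pp 1 a) (hz ι) 0 hr h0
  have h2 := int_lin (F := fun z => pp 3 (a - sv ι x₀ z) * tl ι z.2 -
    6 * (pp 2 (a - sv ι x₀ z) * th ι x₀ z)) 1 (-6) 0
    (h.wint 3 a (g := fun z => tl ι z.2) (by fun_prop)) (h.wint 2 a (th_cont ι x₀))
    (integrable_zero _ _ _) (Eventually.of_forall fun z => by ring)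
  rw [int_lin 8 (-(6 * a)) (-1) (h.wint 3 a (g := fun _ => 1) (by fun_prop))
    (h.wint 2 a (g := fun _ => 1) (by fun_prop)) (h := fun z => pp 3 (a - sv ι x₀ z) * tl ι z.2 -
    6 * (pp 2 (a - sv ι x₀ z) * th ι x₀ z)) (h.int (by fun_prop)) (Eventually.of_forall fun z => by
      simp only [trc_hz, inner_smul_left, add_zero, conj_trivial, sv, th, pp_succ]
      push_cast; ring), h2] at h1
  unfold Wt
  linarith

lemma Core.id3 (h : Core ν ι x₀ R) (hR : 0 < R) (ha : a < R ^ 2) :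
    4 * a * Wt ι x₀ ν 1 (fv ι x₀) a = 6 * Wt ι x₀ ν 2 (fv ι x₀) a +
      Wt ι x₀ ν 3 (fun z => tl ι z.2) a / 3 + Wt ι x₀ ν 1 (fun z => fv ι x₀ z *
        (4 * th ι x₀ z - (a - sv ι x₀ z) * tl ι z.2)) a := by
  obtain ⟨r, hr, h0⟩ := cut (ι := ι) (x₀ := x₀) hR ha 1
  have h1 := h.var (((gr_sq (hz_proj ι) x₀).pp 0 a).mul (gr_sq (nr_proj ι) x₀)) (hz ι) 0 hr
    fun y hy => by rw [h0 y hy, zero_mul]
  have h2 := int_lin (F := fun z => 6 * (pp 2 (a - sv ι x₀ z) * fv ι x₀ z) -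
    4 * a * (pp 1 (a - sv ι x₀ z) * fv ι x₀ z)) 6 (-(4 * a)) 0
    (h.wint 2 a (fv_cont ι x₀)) (h.wint 1 a (fv_cont ι x₀))
    (integrable_zero _ _ _) (Eventually.of_forall fun z => by ring)
  rw [int_lin 2 1 1 (h.wint 2 a (cv_cont ι x₀)) (h.wint 1 a (g := fun z => fv ι x₀ z *
    (4 * th ι x₀ z - (a - sv ι x₀ z) * tl ι z.2)) (by fun_prop))
    (h := fun z => 6 * (pp 2 (a - sv ι x₀ z) * fv ι x₀ z) -
      4 * a * (pp 1 (a - sv ι x₀ z) * fv ι x₀ z)) (h.int (by fun_prop)) (h.car.mono fun z hz => by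
      simp only [trc_hz, inner_smul_left, inner_add_left, add_zero, conj_trivial, sv, th, pp_succ,
        cv, fv, ← hz.1.1 (nr ι _), real_inner_comm (H16.hz ι _) (z.2 (nr ι _))]
      push_cast; ring), h2] at h1
  have h3 := h.id1 hR ha 1
  unfold Wt at *
  push_cast at h3
  linarith

lemma Core.wnonneg (h : Core ν ι x₀ R) (k : ℕ) (a : ℝ) {g : E × (E →L[ℝ] E) → ℝ}
    (hg : ∀ z, IsPlane 2 z.2 → 0 ≤ g z) : 0 ≤ Wt ι x₀ ν k g a :=
  integral_nonneg_of_ae (h.car.mono fun z hz => mul_nonneg (pp_nonneg _ _) (hg z hz.1))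

lemma Core.cs (h : Core ν ι x₀ R) (hR : 0 < R) (ha : a < R ^ 2) :
    Wt ι x₀ ν 3 (fun z => tl ι z.2) a ^ 2 ≤
      36 * Wt ι x₀ ν 2 (fv ι x₀) a * Wt ι x₀ ν 2 (th ι x₀) a := by
  have h1 := discrim_le_zero (a := Wt ι x₀ ν 2 (fv ι x₀) a) (b := -2 * Wt ι x₀ ν 2 (cv ι x₀) a)
    (c := Wt ι x₀ ν 2 (th ι x₀) a) fun t => by
      refine (h.wnonneg 2 a fun z hz => theta_quad (ι := ι) hz (z.1 - x₀) t 1).trans_eq ?_
      rw [Wt, int_lin (t ^ 2) (-2 * t) 1 (h.wint 2 a (fv_cont ι x₀)) (h.wint 2 a (cv_cont ι x₀))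
        (h.wint 2 a (th_cont ι x₀)) (Eventually.of_forall fun z => by simp only [fv, cv, th]; ring)]
      unfold Wt
      ring
  rw [discrim] at h1
  rw [h.id1 hR ha 1]
  push_cast
  linarith

lemma Core.t4 (h : Core ν ι x₀ R) (hR : 0 < R) (ha0 : 0 < a) (ha : a < R ^ 2) :
    Wt ι x₀ ν 4 (fun z => tl ι z.2) a ≤ 64 * a * Wt ι x₀ ν 2 (fv ι x₀) a := by
  have h1 := h.wnonneg 2 a (g := fun z => 64 * a ^ 2 * fv ι x₀ z - 16 * a * ((a - sv ι x₀ z) *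
    cv ι x₀ z) + (a - sv ι x₀ z) ^ 2 * (max a (sv ι x₀ z) * tl ι z.2)) fun z hz => by
      have e1 := theta_quad (ι := ι) hz (z.1 - x₀) (8 * a) (a - sv ι x₀ z)
      have e2 := (theta_le (ι := ι) hz (z.1 - x₀)).trans (mul_le_mul_of_nonneg_right
        (le_max_right a (sv ι x₀ z)) (en_bounds hz).2.2)
      have := mul_le_mul_of_nonneg_left e2 (sq_nonneg (a - sv ι x₀ z))
      simp only [fv, cv]
      linarith
  rw [Wt, int_lin (64 * a ^ 2) (-(16 * a)) a (h.wint 2 a (fv_cont ι x₀))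
    (h.wint 3 a (cv_cont ι x₀)) (h.wint 4 a (g := fun z => tl ι z.2) (by fun_prop))
    (Eventually.of_forall fun z => by
      rcases le_total a (sv ι x₀ z) with h2 | h2
      · simp [pp_zero _ (sub_nonpos.mpr h2)]
      · simp only [max_eq_left h2, pp_succ]; ring)] at h1
  have h2 := h.id1 hR ha 2
  unfold Wt at *
  push_cast at h2
  refine le_of_mul_le_mul_left ?_ ha0
  nlinarith

lemma pp_le {j k : ℕ} {a b s : ℝ} (hab : a ≤ b) :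
    (b - a) ^ k * pp (j + 1) (a - s) ≤ pp (j + 1 + k) (b - s) := by
  rcases le_total a s with h | h
  · rw [pp_zero _ (sub_nonpos.mpr h), mul_zero]
    exact pp_nonneg _ _
  · rw [pp_pos _ (sub_nonneg.mpr h), pp_pos _ (by linarith), pow_add (b - s), mul_comm]
    have := sub_nonneg.mpr h
    have := sub_nonneg.mpr hab
    have : 0 ≤ b - s := by linarith
    gcongr

lemma Core.wle (h : Core ν ι x₀ R) (j k : ℕ) {a b : ℝ} (hab : a ≤ b)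
    {g : E × (E →L[ℝ] E) → ℝ} (hc : Continuous g) (hg : ∀ z, IsPlane 2 z.2 → 0 ≤ g z) :
    (b - a) ^ k * Wt ι x₀ ν (j + 1) g a ≤ Wt ι x₀ ν (j + 1 + k) g b := by
  rw [Wt, ← integral_const_mul]
  refine integral_mono_ae ((h.wint _ _ hc).const_mul _) (h.wint _ _ hc) (h.car.mono fun z hz => ?_)
  simp only [← mul_assoc]
  exact mul_le_mul_of_nonneg_right (pp_le hab) (hg z hz.1)

lemma Core.mean (h : Core ν ι x₀ R) {z₀ : E} {ρ ω : ℝ} (hρ : 0 < ρ)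
    (hz : ‖pr ι (z₀ - x₀)‖ + ρ < R)
    (hm : ∀ᶠ r in 𝓝[>] (0 : ℝ), ω * r ^ 2 ≤ ν.real (Prod.fst ⁻¹' ball z₀ r)) (hω : 0 ≤ ω) :
    ‖nr ι (z₀ - x₀)‖ ^ 2 * (ω / 8) ≤
      (∫ z, pp 2 (ρ ^ 2 - ‖z.1 - z₀‖ ^ 2) * fv ι x₀ z ∂ν) / (ρ ^ 2) ^ 3 := by
  have := h.fin
  have hg := gr_sq (B := ContinuousLinearMap.id ℝ E) (fun _ _ => rfl) z₀
  simp only [ContinuousLinearMap.id_apply] at hg
  have h0 : ∀ k, ∀ b ∈ Ioc 0 (ρ ^ 2), ∀ y, ‖pr ι (z₀ - x₀)‖ + ρ ≤ ‖pr ι (y - x₀)‖ →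
      pp (k + 1) (b - ‖y - z₀‖ ^ 2) = 0 := fun k b hb y hy => pp_zero _ (by
    have e1 := norm_add_le (pr ι (z₀ - x₀)) (pr ι (y - z₀))
    rw [← map_add, show z₀ - x₀ + (y - z₀) = y - x₀ by abel] at e1
    have e2 : ρ ≤ ‖y - z₀‖ := by linarith [norm_pr_le ι (y - z₀)]
    nlinarith [hb.2])
  have hd : ∀ b ∈ Ioc 0 (ρ ^ 2), HasDerivAt
      (fun b => (∫ z, pp 2 (b - ‖z.1 - z₀‖ ^ 2) * fv ι x₀ z ∂ν) / b ^ 3) _ b := fun b hb =>
    (h.deriv (σ := fun z => ‖z.1 - z₀‖ ^ 2) (by fun_prop) (fv_cont ι x₀) 0 b).div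
      (hasDerivAt_pow 3 b) (pow_pos hb.1 3).ne'
  have hmono := monotoneOn_of_deriv_nonneg (convex_Ioc 0 (ρ ^ 2))
    (fun b hb => (hd b hb).continuousAt.continuousWithinAt)
    (fun b hb => (hd b (interior_subset hb)).differentiableAt.differentiableWithinAt)
    (fun b hb => by
      have hb' := interior_subset hb
      rw [(hd b hb').deriv]
      refine div_nonneg ?_ (sq_nonneg _)
      have e1 := h.var ((hg.pp 0 b).mul (gr_sq (nr_proj ι) x₀)) (ContinuousLinearMap.id ℝ E)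
        (x₀ - z₀) hz fun y hy => by rw [h0 1 b hb' y hy, zero_mul]
      have e2 := h.var (hg.pp 1 b) (nr ι) 0 hz (h0 2 b hb')
      have i1 : ∀ k, Integrable (fun z : E × (E →L[ℝ] E) =>
          pp k (b - ‖z.1 - z₀‖ ^ 2) * fv ι x₀ z) ν := fun k => h.int (by fun_prop)
      have i2 : Integrable (fun z : E × (E →L[ℝ] E) => pp 2 (b - ‖z.1 - z₀‖ ^ 2) *
          ⟪z.1 - z₀, z.2 (nr ι (z.1 - x₀))⟫) ν := h.int (by fun_prop)
      have e3 := int_lin (F := fun z => 6 * (pp 2 (b - ‖z.1 - z₀‖ ^ 2) * fv ι x₀ z) -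
        4 * b * (pp 1 (b - ‖z.1 - z₀‖ ^ 2) * fv ι x₀ z)) 6 (-(4 * b)) 0 (i1 2) (i1 1)
        (integrable_zero _ _ _) (Eventually.of_forall fun z => by ring)
      rw [int_lin 2 4 1 i2 (g := fun z => pp 1 (b - ‖z.1 - z₀‖ ^ 2) * fv ι x₀ z *
        ‖z.1 - z₀ - z.2 (z.1 - z₀)‖ ^ 2) (h.int (by fun_prop))
        (h := fun z => 6 * (pp 2 (b - ‖z.1 - z₀‖ ^ 2) * fv ι x₀ z) -
          4 * b * (pp 1 (b - ‖z.1 - z₀‖ ^ 2) * fv ι x₀ z)) (h.int (by fun_prop))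
        (h.car.mono fun z hz => by
          simp only [trc_id hz.1, inner_smul_left, inner_add_left, conj_trivial, pp_succ, fv,
            ContinuousLinearMap.id_apply, sub_add_sub_cancel, norm_perp hz.1, ← hz.1.1 (nr ι _),
            real_inner_comm (z.1 - z₀) (z.2 (nr ι _))]
          push_cast; ring), e3] at e1
      rw [int_lin 1 (-6) 0 (f := fun z => pp 3 (b - ‖z.1 - z₀‖ ^ 2) * tl ι z.2)
        (h.int (by fun_prop)) i2 (integrable_zero _ _ _) (h.car.mono fun z hz => by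
          simp only [trc_nr hz.1, inner_smul_left, add_zero, conj_trivial]
          push_cast; ring)] at e2
      have e4 : 0 ≤ ∫ z, pp 3 (b - ‖z.1 - z₀‖ ^ 2) * tl ι z.2 ∂ν := integral_nonneg_of_ae
        (h.car.mono fun z hz => mul_nonneg (pp_nonneg _ _) (en_bounds hz.1).2.2)
      have e5 : 0 ≤ ∫ z, pp 1 (b - ‖z.1 - z₀‖ ^ 2) * fv ι x₀ z *
          ‖z.1 - z₀ - z.2 (z.1 - z₀)‖ ^ 2 ∂ν := integral_nonneg fun z =>
        mul_nonneg (mul_nonneg (pp_nonneg _ _) (fv_nonneg _ _ _)) (sq_nonneg _)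
      norm_num
      nlinarith [mul_nonneg (sq_nonneg b) e4, mul_nonneg (sq_nonneg b) e5])
  have ht : Tendsto (fun η : ℝ => (‖nr ι (z₀ - x₀)‖ ^ 2 - η) * (ω / 8)) (𝓝[>] 0)
      (𝓝 ((‖nr ι (z₀ - x₀)‖ ^ 2 - 0) * (ω / 8))) :=
    (Continuous.tendsto (by fun_prop) 0).mono_left nhdsWithin_le_nhds
  rw [sub_zero] at ht
  refine le_of_tendsto ht ?_
  filter_upwards [self_mem_nhdsWithin] with η hη
  obtain ⟨r, ⟨e1, e2⟩, hr⟩ := ((hm.and ((eventually_closedBall_subset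
    (continuousAt_const.eventually_lt (g := fun y => ‖nr ι (y - x₀)‖ ^ 2) (by fun_prop)
      (sub_lt_self (‖nr ι (z₀ - x₀)‖ ^ 2) hη))).filter_mono nhdsWithin_le_nhds)).and
        (Ioo_mem_nhdsGT (half_pos hρ))).exists
  have hr0 := hr.1
  have e3 : 2 * r ^ 2 ≤ ρ ^ 2 := by nlinarith [hr.2]
  refine le_trans ?_ (hmono ⟨by positivity, e3⟩ ⟨by positivity, le_rfl⟩ e3)
  have hms : MeasurableSet (Prod.fst ⁻¹' ball z₀ r : Set (E × (E →L[ℝ] E))) :=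
    measurable_fst measurableSet_ball
  have e4 : ν.real (Prod.fst ⁻¹' ball z₀ r) * (r ^ 4 * max (‖nr ι (z₀ - x₀)‖ ^ 2 - η) 0) ≤
      ∫ z, pp 2 (2 * r ^ 2 - ‖z.1 - z₀‖ ^ 2) * fv ι x₀ z ∂ν := by
    rw [← smul_eq_mul, ← integral_indicator_const _ hms]
    refine integral_mono ((integrable_const _).indicator hms) (h.int (by fun_prop)) fun z =>
      indicator_le' (g := fun z => pp 2 (2 * r ^ 2 - ‖z.1 - z₀‖ ^ 2) * fv ι x₀ z)
        (fun z hz => ?_) (fun z _ => mul_nonneg (pp_nonneg _ _) (fv_nonneg _ _ _)) z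
    have e5 : ‖z.1 - z₀‖ ^ 2 ≤ r ^ 2 := by
      have := mem_ball_iff_norm.mp hz
      gcongr
    refine mul_le_mul ?_ (max_le (le_of_lt (e2 (ball_subset_closedBall hz))) (fv_nonneg _ _ _))
      (le_max_right _ _) (pp_nonneg _ _)
    exact (by rw [pp_pos _ (sq_nonneg r)]; ring : r ^ 4 = pp 2 (r ^ 2)).trans_le
      (pp_mono _ (by linarith))
  rw [le_div_iff₀ (by positivity)]
  refine le_trans ?_ e4
  calc _ = ω * r ^ 2 * (r ^ 4 * (‖nr ι (z₀ - x₀)‖ ^ 2 - η)) := by ring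
    _ ≤ ω * r ^ 2 * (r ^ 4 * max (‖nr ι (z₀ - x₀)‖ ^ 2 - η) 0) := by gcongr; exact le_max_left _ _
    _ ≤ _ := by gcongr

lemma Core.sup (h : Core ν ι x₀ R) (hR : 0 < R) {z₀ : E} {τ ω : ℝ} (ha : 0 < a) (hτ : 0 < τ)
    (hτ1 : τ ≤ 1) (haR : a * (1 + τ) < R ^ 2) (hz : ‖pr ι (z₀ - x₀)‖ ^ 2 ≤ a)
    (hm : ∀ᶠ r in 𝓝[>] (0 : ℝ), ω * r ^ 2 ≤ ν.real (Prod.fst ⁻¹' ball z₀ r)) (hω : 0 < ω) :
    ‖nr ι (z₀ - x₀)‖ ^ 2 ≤ 2048 / ω * Wt ι x₀ ν 2 (fv ι x₀) (a * (1 + τ)) / (τ ^ 4 * a ^ 3) := by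
  obtain ⟨r, hr, rfl⟩ : ∃ r, 0 < r ∧ a = r ^ 2 :=
    ⟨√a, Real.sqrt_pos.mpr ha, (Real.sq_sqrt ha.le).symm⟩
  have h1 : ‖pr ι (z₀ - x₀)‖ ≤ r := (abs_le_of_sq_le_sq' hz hr.le).2
  have h2 : (r + τ * r / 4) ^ 2 ≤ r ^ 2 * (1 + 3 / 4 * τ) := by
    nlinarith [mul_le_mul_of_nonneg_left hτ1 (mul_pos ha hτ).le, mul_pos ha hτ]
  have h3 := h.mean (ρ := τ * r / 4) (by positivity) ((add_le_add_left h1 _).trans_lt
    (lt_of_pow_lt_pow_left₀ 2 hR.le (by nlinarith [mul_pos ha hτ]))) hm hω.le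
  have h4 : ∫ z, pp 2 ((τ * r / 4) ^ 2 - ‖z.1 - z₀‖ ^ 2) * fv ι x₀ z ∂ν ≤
      (τ / 4) ^ 2 * Wt ι x₀ ν 2 (fv ι x₀) (r ^ 2 * (1 + τ)) := by
    rw [Wt, ← integral_const_mul]
    refine integral_mono (h.int (by fun_prop)) (h.int (by fun_prop)) fun z => ?_
    simp only [← mul_assoc]
    refine mul_le_mul_of_nonneg_right ?_ (fv_nonneg _ _ _)
    rcases le_total (τ * r / 4) ‖z.1 - z₀‖ with h5 | h5
    · rw [pp_zero _ (sub_nonpos.mpr (by gcongr))]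
      exact mul_nonneg (sq_nonneg _) (pp_nonneg _ _)
    · have e1 := norm_add_le (pr ι (z₀ - x₀)) (pr ι (z.1 - z₀))
      rw [← map_add, show z₀ - x₀ + (z.1 - z₀) = z.1 - x₀ by abel] at e1
      have e2 : sv ι x₀ z ≤ (r + τ * r / 4) ^ 2 := by
        rw [sv, norm_hz]
        gcongr
        linarith [norm_pr_le ι (z.1 - z₀)]
      calc _ ≤ pp 2 ((τ * r / 4) ^ 2) := pp_mono _ (sub_le_self _ (sq_nonneg _))
        _ = (τ / 4) ^ 2 * pp 2 (r ^ 2 * τ / 4) := by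
          rw [pp_pos _ (by positivity), pp_pos _ (by positivity)]; ring
        _ ≤ _ := mul_le_mul_of_nonneg_left (pp_mono _ (by linarith)) (sq_nonneg _)
  rw [le_div_iff₀ (by positivity)] at h3 ⊢
  rw [div_mul_eq_mul_div, le_div_iff₀ hω]
  refine le_of_mul_le_mul_left ?_ (show 0 < τ ^ 2 / 32768 by positivity)
  nlinarith

end Pool.Agent.Lib.MP_8daebb_an.H16
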