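import Pool.Agent.Lib.MP_8daebb_an.H16.Data

/-! The height vanishes near the centre. -/

set_option linter.unusedSectionVars false

open MeasureTheory Metric Filter Topology Set
open scoped RealInnerProductSpace

namespace Pool.Agent.Lib.MP_8daebb_an.H16

variable {E : Type*} [NormedAddCommGroup E] [InnerProductSpace ℝ E] [FiniteDimensional ℝ E]
  [MeasurableSpace E] [BorelSpace E] {ι : EuclideanSpace ℝ (Fin 2) →ₗᵢ[ℝ] E} {x₀ : E}
  {ν : Measure (E × (E →L[ℝ] E))} {R Q ω a τ : ℝ} {α β γ : ℝ × ℝ → ℝ} {O : ℕ → Set (ℝ × ℝ)}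

lemma Core.H0 (h : Core ν ι x₀ R) (a : ℝ) : 0 ≤ Wt ι x₀ ν 2 (fv ι x₀) a :=
  h.wnonneg 2 a fun z _ => fv_nonneg ι x₀ z

lemma Core.T0 (h : Core ν ι x₀ R) (k : ℕ) (a : ℝ) : 0 ≤ Wt ι x₀ ν k (fun z => tl ι z.2) a :=
  h.wnonneg k a fun _ hz => (en_bounds hz).2.2

lemma Core.Hmono (h : Core ν ι x₀ R) : Monotone (Wt ι x₀ ν 2 (fv ι x₀)) := fun a b hab => by
  simpa using h.wle 1 0 hab (fv_cont ι x₀) fun z _ => fv_nonneg ι x₀ z

lemma Core.Tle (h : Core ν ι x₀ R) (hR : 0 < R) (j k : ℕ) (hjk : j + 1 + k = 4) {b : ℝ}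
    (ha : 0 < a) (hτ : 0 < τ) (hτ1 : τ ≤ 1) (haR : a * (1 + τ) < R ^ 2) (hb : b ≤ a * (1 + τ)) :
    (a * (1 + τ) - b) ^ k * Wt ι x₀ ν (j + 1) (fun z => tl ι z.2) b ≤
      128 * a * Wt ι x₀ ν 2 (fv ι x₀) (a * (1 + τ)) := by
  have h1 := h.wle j k hb (g := fun z => tl ι z.2) (by fun_prop) fun _ hz => (en_bounds hz).2.2
  rw [hjk] at h1
  refine h1.trans ((h.t4 hR (by positivity) haR).trans
    (mul_le_mul_of_nonneg_right (by nlinarith) (h.H0 _)))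

lemma Data.sup (h : Data ν ι x₀ R Q ω α β γ O) (ha : 0 < a) (hτ : 0 < τ) (hτ1 : τ ≤ 1)
    (haR : a * (1 + τ) < R ^ 2) : ∀ᵐ z ∂ν, sv ι x₀ z ≤ a →
      fv ι x₀ z ≤ 2048 / ω * Wt ι x₀ ν 2 (fv ι x₀) (a * (1 + τ)) / (τ ^ 4 * a ^ 3) :=
  h.low.mono fun z hz h1 => h.core.sup h.R0 ha hτ hτ1 haR (by rwa [← norm_hz]) hz h.ω0

lemma Data.err1 (h : Data ν ι x₀ R Q ω α β γ O) (ha : 0 < a) (hτ : 0 < τ) (hτ1 : τ ≤ 1)
    (haR : a * (1 + τ) < R ^ 2) :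
    2 * (Wt ι x₀ ν 3 (fun _ => 1) a - Q * (a ^ 4 * ∫ x, pp 3 (1 - q2 x) * 1)) -
      Wt ι x₀ ν 3 (fun z => tl ι z.2) a ≤ 432 * 4 ^ 6 * (9 * 512) ^ 2 / Q *
        Wt ι x₀ ν 2 (fv ι x₀) (a * (1 + τ)) ^ 2 / (τ ^ 10 * a ^ 4) := by
  have hτa := mul_pos ha hτ
  have h1 := h.plane.disc h.Q0 ha hτ hτ1 haR
  have h2 := h.dev_le (a := a * (1 + 3 / 4 * τ)) (by linarith)
  have h3 := h.core.Tle h.R0 2 1 rfl (b := a * (1 + 3 / 4 * τ)) ha hτ hτ1 haR (by linarith)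
  have h4 : ∫ x, pp 3 (a * (1 + 3 / 4 * τ) - q2 x) * dev α β γ Q 0 Q x ≤
      9 * 512 * Wt ι x₀ ν 2 (fv ι x₀) (a * (1 + τ)) / τ := by
    rw [le_div_iff₀ hτ]
    refine le_of_mul_le_mul_left ?_ ha
    norm_num at h3
    nlinarith [mul_le_mul_of_nonneg_left h2 hτa.le]
  have h5 : 0 ≤ ∫ x, pp 3 (a * (1 + 3 / 4 * τ) - q2 x) * dev α β γ Q 0 Q x :=
    integral_nonneg fun x => mul_nonneg (pp_nonneg _ _) (by unfold dev; positivity)
  have hQ := h.Q0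
  rw [h.tr, w_scale ha] at h1
  refine le_of_mul_le_mul_left ((le_of_eq (by ring)).trans (h1.trans (le_trans
    (div_le_div_of_nonneg_right (mul_le_mul_of_nonneg_left (pow_le_pow_left₀ h5 h4 2)
      (by positivity)) (by positivity)) (le_of_eq ?_)))) hQ
  field_simp

lemma Data.err2 (h : Data ν ι x₀ R Q ω α β γ O) (ha : 0 < a) (hτ : 0 < τ) (hτ1 : τ ≤ 1)
    (haR : a * (1 + τ) < R ^ 2) :
    |Wt ι x₀ ν 1 (fun z => fv ι x₀ z * (4 * th ι x₀ z - (a - sv ι x₀ z) * tl ι z.2)) a| ≤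
      4 * 2048 * 128 / ω * Wt ι x₀ ν 2 (fv ι x₀) (a * (1 + τ)) ^ 2 / (τ ^ 10 * a ^ 4) := by
  obtain ⟨F, hF⟩ : ∃ F, F = 2048 / ω * Wt ι x₀ ν 2 (fv ι x₀) (a * (1 + τ)) / (τ ^ 4 * a ^ 3) :=
    ⟨_, rfl⟩
  have hω := h.ω0
  have hH := h.core.H0 (a * (1 + τ))
  have h1 : |Wt ι x₀ ν 1 (fun z => fv ι x₀ z * (4 * th ι x₀ z - (a - sv ι x₀ z) * tl ι z.2)) a| ≤
      F * (4 * a) * Wt ι x₀ ν 1 (fun z => tl ι z.2) a := by
    rw [Wt, Wt, ← integral_const_mul]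
    refine abs_integral_le_integral_abs.trans (integral_mono_ae (h.core.int (by fun_prop))
      (h.core.int (by fun_prop)) ?_)
    filter_upwards [h.core.car, h.sup ha hτ hτ1 haR] with z hz h2
    rcases le_total a (sv ι x₀ z) with h3 | h3
    · simp [pp_zero _ (sub_nonpos.mpr h3)]
    · rw [abs_mul, abs_mul, abs_of_nonneg (pp_nonneg _ _), abs_of_nonneg (fv_nonneg _ _ _),
        mul_left_comm (F * _), mul_assoc F]
      refine mul_le_mul_of_nonneg_left (mul_le_mul (hF ▸ h2 h3) ?_ (abs_nonneg _)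
        (by rw [hF]; positivity)) (pp_nonneg _ _)
      have e1 := theta_quad (ι := ι) hz.1 (z.1 - x₀) 0 1
      have e2 := theta_le (ι := ι) hz.1 (z.1 - x₀)
      have e3 := (en_bounds (ι := ι) hz.1).2.2
      have e4 := mul_nonneg (sub_nonneg.mpr h3) e3
      have e5 := mul_nonneg (sv_nonneg ι x₀ z) e3
      unfold th sv at *
      exact abs_le.mpr ⟨by nlinarith, by nlinarith⟩
  have h2 := h.core.Tle h.R0 0 3 rfl (b := a) ha hτ hτ1 haR (by nlinarith)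
  have h3 : Wt ι x₀ ν 1 (fun z => tl ι z.2) a ≤
      128 * a * Wt ι x₀ ν 2 (fv ι x₀) (a * (1 + τ)) / (a * τ) ^ 3 := by
    rw [le_div_iff₀ (by positivity), mul_comm]
    exact (le_of_eq (by ring)).trans h2
  refine h1.trans ((mul_le_mul_of_nonneg_left h3 (by rw [hF]; positivity)).trans ?_)
  calc _ = 4 * 2048 * 128 / ω * Wt ι x₀ ν 2 (fv ι x₀) (a * (1 + τ)) ^ 2 / (τ ^ 7 * a ^ 4) := by
        rw [hF]; field_simp
    _ ≤ _ := by gcongr _ / (?_ * _); exact pow_le_pow_of_le_one hτ.le hτ1 (by norm_num)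

lemma Data.decay (h : Data ν ι x₀ R Q ω α β γ O) (η : ℝ) (hη : 0 < η) : ∀ᶠ a in 𝓝[>] 0,
    Wt ι x₀ ν 2 (fv ι x₀) (a / 4) ≤ η * Wt ι x₀ ν 2 (fv ι x₀) a := by
  have hω := h.ω0
  have := h.core.fin
  filter_upwards [(scale_lim (c := 1 / 4) (by norm_num)).eventually
    (h.thin (η * ω / 2048) (by positivity)), Ioo_mem_nhdsGT (pow_pos h.R0 2)] with a h1 ha
  have ha0 := ha.1
  have hm : MeasurableSet {z | sv ι x₀ z < 1 / 4 * a ∧ fv ι x₀ z ≠ 0} :=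
    ((isOpen_lt (sv_cont ι x₀) continuous_const).inter
      (isOpen_ne_fun (fv_cont ι x₀) continuous_const)).measurableSet
  have hH := h.core.H0 a
  have h2 : Wt ι x₀ ν 2 (fv ι x₀) (a / 4) ≤ ν.real {z | sv ι x₀ z < 1 / 4 * a ∧ fv ι x₀ z ≠ 0} *
      ((a / 4) ^ 2 * (2048 / ω * Wt ι x₀ ν 2 (fv ι x₀) a / (a / 4) ^ 3)) := by
    rw [← smul_eq_mul, ← integral_indicator_const _ hm]
    refine integral_mono_ae (h.core.wint _ _ (fv_cont ι x₀)) ((integrable_const _).indicator hm) ?_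
    filter_upwards [h.sup (a := a / 4) (by positivity) one_pos le_rfl (by linarith [ha.2])]
      with z hz
    by_cases h3 : z ∈ {z | sv ι x₀ z < 1 / 4 * a ∧ fv ι x₀ z ≠ 0}
    · rw [indicator_of_mem h3, ← pp_pos 2 (by positivity)]
      refine mul_le_mul (pp_mono _ (sub_le_self _ (sv_nonneg _ _ _)))
        ((hz (by linarith [h3.1])).trans ?_) (fv_nonneg _ _ _) (pp_nonneg _ _)
      rw [one_pow, one_mul]
      gcongr
      exact h.core.Hmono (by linarith)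
    · rw [indicator_of_notMem h3]
      rcases not_and_or.mp h3 with h4 | h4
      · rw [pp_zero _ (by linarith [not_lt.mp h4]), zero_mul]
      · rw [not_not.mp h4, mul_zero]
  refine h2.trans ((mul_le_mul_of_nonneg_right h1 (by positivity)).trans (le_of_eq ?_))
  field_simp

theorem Data.zero (h : Data ν ι x₀ R Q ω α β γ O) :
    ∃ a ∈ Ioo 0 (R ^ 2), Wt ι x₀ ν 2 (fv ι x₀) a = 0 := by
  by_contra hcon
  have hpos : ∀ a ∈ Ioo 0 (R ^ 2), 0 < Wt ι x₀ ν 2 (fv ι x₀) a := fun a ha =>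
    (h.core.H0 a).lt_of_ne fun h1 => hcon ⟨a, ha, h1.symm⟩
  obtain ⟨L, hL⟩ : ∃ L, L = ∫ x, pp 3 (1 - q2 x) * 1 := ⟨_, rfl⟩
  have hQ := h.Q0
  have hω := h.ω0
  have dH : ∀ a, HasDerivAt (Wt ι x₀ ν 2 (fv ι x₀)) (2 * Wt ι x₀ ν 1 (fv ι x₀) a) a := fun a =>
    (h.core.deriv (sv_cont ι x₀) (fv_cont ι x₀) 0 a).congr_deriv (by norm_num [Wt])
  have dM : ∀ a, HasDerivAt (Wt ι x₀ ν 3 fun _ => 1) (3 * Wt ι x₀ ν 2 (fun _ => 1) a) a :=
    fun a => (h.core.deriv (sv_cont ι x₀) continuous_const 1 a).congr_deriv (by norm_num [Wt])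
  refine Freq.false (a₀ := R ^ 2) (K := 432 * 4 ^ 6 * (9 * 512) ^ 2 / Q + 4 * 2048 * 128 / ω)
    (p := 10) (H := Wt ι x₀ ν 2 (fv ι x₀))
    (n := fun a => (Wt ι x₀ ν 3 (fun _ => 1) a - Q * (a ^ 4 * L)) / (3 * Wt ι x₀ ν 2 (fv ι x₀) a))
    (x := fun a => Wt ι x₀ ν 3 (fun z => tl ι z.2) a / (6 * Wt ι x₀ ν 2 (fv ι x₀) a))
    (ε := fun a => Wt ι x₀ ν 1 (fun z => fv ι x₀ z * (4 * th ι x₀ z - (a - sv ι x₀ z) * tl ι z.2))
      a / (2 * Wt ι x₀ ν 2 (fv ι x₀) a))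
    ⟨by positivity, hpos, h.core.Hmono.monotoneOn _, fun a ha => (dH a).congr_deriv ?_,
      fun a ha => ((dM a).sub (((hasDerivAt_pow 4 a).mul_const L).const_mul Q)).div
        ((dH a).const_mul 3) (mul_pos three_pos (hpos a ha)).ne', fun a ha => ?_, fun a ha => ?_,
      fun a τ ha hτ hτ1 haR => ?_⟩ (pow_pos h.R0 2) h.decay
  · have h1 := h.core.id3 h.R0 ha.2
    have h2 := hpos a ha
    have h3 := ha.1
    field_simp
    linarith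
  · have h1 := h.core.id3 h.R0 ha.2
    have h2 := h.core.id2 h.R0 ha.2
    have h3 := h.core.cs h.R0 ha.2
    have h4 := hpos a ha
    simp only [Pi.sub_apply]
    generalize Wt ι x₀ ν 1 (fun z => fv ι x₀ z * (4 * th ι x₀ z - (a - sv ι x₀ z) * tl ι z.2))
      a = e, Wt ι x₀ ν 2 (fv ι x₀) a = H, Wt ι x₀ ν 1 (fv ι x₀) a = H₁,
      Wt ι x₀ ν 3 (fun z => tl ι z.2) a = T, Wt ι x₀ ν 2 (th ι x₀) a = Θ,
      Wt ι x₀ ν 3 (fun _ => 1) a = M, Wt ι x₀ ν 2 (fun _ => 1) a = M₂ at *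
    rw [← sub_nonneg]
    have h5 : a * M₂ = (8 * M - T + 6 * Θ) / 6 := by linarith
    have h6 : a * H₁ = (6 * H + T / 3 + e) / 4 := by linarith
    refine le_of_le_of_eq (div_nonneg (sub_nonneg.mpr h3) (sq_nonneg (6 * H))) ?_
    rw [show ∀ c : ℝ, a * (((3 * M₂ - c) * (3 * H) - (M - Q * (a ^ 4 * L)) * (3 * (2 * H₁))) /
      (3 * H) ^ 2) = ((3 * (a * M₂) - a * c) * (3 * H) - (M - Q * (a ^ 4 * L)) * (6 * (a * H₁))) /
      (3 * H) ^ 2 from fun c => by ring, h5, h6]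
    field_simp
    push_cast
    ring
  · have h1 := h.exc ha.2
    rw [w_scale ha.1, ← hL] at h1
    exact div_nonneg (sub_nonneg.mpr h1) (mul_pos three_pos (hpos a ha)).le
  · have h1 := h.err1 ha hτ hτ1 haR
    have h2 := h.err2 ha hτ hτ1 haR
    have h3 := hpos a ⟨ha, by nlinarith [mul_pos ha hτ]⟩
    have h4 : 0 ≤ 432 * 4 ^ 6 * (9 * 512) ^ 2 / Q * Wt ι x₀ ν 2 (fv ι x₀) (a * (1 + τ)) ^ 2 /
      (τ ^ 10 * a ^ 4) := by positivity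
    have h5 : 0 ≤ 4 * 2048 * 128 / ω * Wt ι x₀ ν 2 (fv ι x₀) (a * (1 + τ)) ^ 2 /
      (τ ^ 10 * a ^ 4) := by positivity
    rw [← hL] at h1
    rw [← div_div _ (τ ^ 10 * a ^ 4), add_mul, add_div, abs_div, abs_of_pos (mul_pos two_pos h3),
      le_div_iff₀ h3, le_div_iff₀ h3]
    refine ⟨le_trans (le_of_eq (b := (2 * (Wt ι x₀ ν 3 (fun _ => 1) a - Q * (a ^ 4 * L)) -
      Wt ι x₀ ν 3 (fun z => tl ι z.2) a) / 6) (by field_simp; ring)) (by linarith),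
      le_trans (le_of_eq (b := |_| / 2) (by field_simp)) (by linarith)⟩

lemma Data.full (h : Data ν ι x₀ R Q ω α β γ O) (ha : a ∈ Ioo 0 (R ^ 2))
    (h0 : Wt ι x₀ ν 2 (fv ι x₀) a = 0) : ∀ᵐ x, q2 x < a / 2 → γ x = Q := by
  have ha0 := ha.1
  have h1 := h.core.Tle h.R0 2 1 rfl (a := a / 2) (b := a / 2) (by positivity) one_pos le_rfl
    (by linarith [ha.2]) (by linarith)
  rw [show a / 2 * (1 + 1) = a by ring, h0] at h1
  have h2 := h.dev_le (a := a / 2) (by linarith [ha.2])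
  have h3 : ∀ x, 0 ≤ pp 3 (a / 2 - q2 x) * dev α β γ Q 0 Q x := fun x =>
    mul_nonneg (pp_nonneg _ _) (by unfold dev; positivity)
  have h4 := (integral_eq_zero_iff_of_nonneg h3 (w_int 2 (a / 2) (h.plane.dev_int Q 0 Q
    (cd_cpt _).measure_lt_top.ne))).mp (le_antisymm (by
      norm_num at h1; nlinarith [h.core.T0 3 (a / 2)]) (integral_nonneg h3))
  filter_upwards [h4] with x hx h5
  rw [Pi.zero_apply, pp_pos _ (sub_pos.mpr h5).le, mul_eq_zero,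
    or_iff_right (pow_pos (sub_pos.mpr h5) 3).ne', dev] at hx
  exact sub_eq_zero.mp (abs_eq_zero.mp (le_antisymm (by
    linarith [abs_nonneg (α x - Q), abs_nonneg (β x - 0)]) (abs_nonneg _)))

end Pool.Agent.Lib.MP_8daebb_an.H16
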